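import Pool.Agent.K7.H20.AW.Th

/-!
# Britton's lemma for two and three syllables; words with even exponents
-/

set_option autoImplicit false
set_option linter.unusedSectionVars false

namespace Pool.Agent.K7.H20.AW

open Pool.Agent.Helper741 Pool.Agent.K7.H87.FJ6 CoxeterSystem HNNExtension HNNExtension.NormalWord
open Real

section raag

variable {B : Type*} [DecidableEq B] {M : CoxeterMatrix B}

/-- the element has a reduced word with the given head that contains the stable letter -/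
def Lst (x : B) (Y : HN M x) (h : Art (ra M)) : Prop :=
  ∃ R : ReducedWord (Art (ra M)) (lk M x) (lk M x), R.prod (MulEquiv.refl _) = Y ∧ R.head = h ∧
    R.toList ≠ []

theorem Lst.mul {x : B} {Y : HN M x} {h : Art (ra M)} (hY : Lst x Y h) (β : Art (ra M)) :
    Lst x (HNNExtension.of β * Y) (β * h) := by
  obtain ⟨R, rfl, rfl, h3⟩ := hY
  refine ⟨⟨β * R.head, R.toList, R.chain⟩, ?_, rfl, h3⟩
  simp [ReducedWord.prod, mul_assoc]

theorem exists_sign {k : ℤ} (hk : k ≠ 0) : ∃ (ε : ℤˣ) (n : ℕ), k = (ε : ℤ) * (n + 1) := by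
  rcases lt_or_gt_of_ne hk with h | h
  · exact ⟨-1, (-k).toNat - 1, by push_cast; omega⟩
  · exact ⟨1, k.toNat - 1, by push_cast; omega⟩

theorem Lst.t {x : B} {Y : HN M x} {h : Art (ra M)} (hY : Lst x Y h) (hh : h ∉ lk M x) {k : ℤ}
    (hk : k ≠ 0) : Lst x (HNNExtension.t ^ k * Y) 1 := by
  obtain ⟨R, rfl, rfl, h3⟩ := hY
  obtain ⟨ε, n, hε⟩ := exists_sign hk
  obtain ⟨R', h4, ⟨g', L, h5⟩, h6⟩ := st R ε (fun a _ hmem => absurd hmem hh) n
  exact ⟨R', by rw [h6, hε], h4, by simp [h5]⟩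

theorem Lst.t0 (x : B) (γ : Art (ra M)) {k : ℤ} (hk : k ≠ 0) :
    Lst x ((HNNExtension.t : HN M x) ^ k * HNNExtension.of γ) 1 := by
  obtain ⟨ε, n, hε⟩ := exists_sign hk
  obtain ⟨R', h4, ⟨g', L, h5⟩, h6⟩ := st (A := lk M x) ⟨γ, [], List.isChain_nil⟩ ε
    (fun a ha => by simp at ha) n
  exact ⟨R', by rw [h6, hε]; simp [ReducedWord.prod], h4, by simp [h5]⟩

theorem Lst.not {x : B} {y h : Art (ra M)} (hy : y ∈ P (ra M) {x}ᶜ) : ¬ Lst x (et M x y) h := by
  rintro ⟨R, h1, _, h3⟩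
  refine h3 (ReducedWord.toList_eq_nil_of_mem_of_range (MulEquiv.refl _) R ?_)
  rw [h1, et_mem hy]
  exact ⟨_, rfl⟩

theorem et_x (x : B) (k : ℤ) : et M x (g (ra M) x ^ k) = HNNExtension.t ^ k := by
  rw [map_zpow, et_g, if_pos rfl]

/-- two syllables -/
theorem br2 {x : B} {β γ : Art (ra M)} (hβ : β ∈ P (ra M) {x}ᶜ) (hβ' : β ∉ lk M x)
    (hγ : γ ∈ P (ra M) {x}ᶜ) {e f : ℤ} (he : e ≠ 0) (hf : f ≠ 0)
    (h : g (ra M) x ^ e * β * g (ra M) x ^ f * γ = 1) : False := by
  have h1 : Lst x (et M x (g (ra M) x ^ e * β * g (ra M) x ^ f * γ)) 1 := by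
    rw [map_mul, map_mul, map_mul, et_x, et_x, et_mem hβ, et_mem hγ, mul_assoc, mul_assoc]
    exact (((Lst.t0 x γ hf).mul β).t (by rwa [mul_one]) he)
  rw [h] at h1
  exact Lst.not (one_mem _) h1

/-- three syllables -/
theorem br3 {x : B} {β δ γ : Art (ra M)} (hβ : β ∈ P (ra M) {x}ᶜ) (hβ' : β ∉ lk M x)
    (hδ : δ ∈ P (ra M) {x}ᶜ) (hδ' : δ ∉ lk M x)
    (hγ : γ ∈ P (ra M) {x}ᶜ) {e f k : ℤ} (he : e ≠ 0) (hf : f ≠ 0) (hk : k ≠ 0)
    (h : g (ra M) x ^ e * β * g (ra M) x ^ f * δ * g (ra M) x ^ k * γ = 1) : False := by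
  have h1 : Lst x (et M x (g (ra M) x ^ e * β * g (ra M) x ^ f * δ * g (ra M) x ^ k * γ)) 1 := by
    rw [map_mul, map_mul, map_mul, map_mul, map_mul, et_x, et_x, et_x, et_mem hβ, et_mem hγ,
      et_mem hδ, mul_assoc, mul_assoc, mul_assoc, mul_assoc]
    exact (((((Lst.t0 x γ hk).mul δ).t (by rwa [mul_one]) hf).mul β).t (by rwa [mul_one]) he)
  rw [h] at h1
  exact Lst.not (one_mem _) h1

theorem lk_comm {x : B} {β : Art (ra M)} (hβ : β ∈ lk M x) (k : ℤ) :
    g (ra M) x ^ k * β = β * g (ra M) x ^ k := by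
  apply comm_P
  refine P_mono ?_ hβ
  rintro u ⟨h1, h2⟩
  exact ⟨h1, ra_two h1 h2⟩

/-- split off the only occurrence -/
theorem split_one {x : B} {u : List (B × ℤ)} (h : ct x u = 1) :
    ∃ α e β, u = α ++ (x, e) :: β ∧ (∀ a ∈ α, a.1 ≠ x) ∧ (∀ a ∈ β, a.1 ≠ x) := by
  have h0 : ∃ c ∈ u, c.1 = x := by
    by_contra hcon
    push Not at hcon
    have : ct x u = 0 := by
      apply List.count_eq_zero.2
      intro hx
      obtain ⟨a, ha, hax⟩ := List.mem_map.1 hx
      exact hcon a ha hax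
    omega
  obtain ⟨α, ⟨x', e⟩, β, rfl, hx', hα⟩ := split_first (fun c : B × ℤ => c.1 = x) u h0
  have hx'' : x' = x := hx'
  subst hx''
  refine ⟨α, e, β, rfl, hα, ct_eq_zero ?_⟩
  rw [ct_append, ct_cons] at h
  simp only [if_true] at h
  omega

/-- split off two occurrences -/
theorem split_two {x : B} {u : List (B × ℤ)} (h : ct x u = 2) :
    ∃ α e β f γ, u = α ++ (x, e) :: (β ++ (x, f) :: γ) ∧ (∀ a ∈ α, a.1 ≠ x) ∧
      (∀ a ∈ β, a.1 ≠ x) ∧ (∀ a ∈ γ, a.1 ≠ x) := by
  have h0 : ∃ c ∈ u, c.1 = x := by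
    by_contra hcon
    push Not at hcon
    have : ct x u = 0 := by
      apply List.count_eq_zero.2
      intro hx
      obtain ⟨a, ha, hax⟩ := List.mem_map.1 hx
      exact hcon a ha hax
    omega
  obtain ⟨α, ⟨x', e⟩, β, rfl, hx', hα⟩ := split_first (fun c : B × ℤ => c.1 = x) u h0
  have hx'' : x' = x := hx'
  subst hx''
  have h1 : ct x' α = 0 := by
    apply List.count_eq_zero.2
    intro hx
    obtain ⟨a, ha, hax⟩ := List.mem_map.1 hx
    exact hα a ha hax
  rw [ct_append, ct_cons] at h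
  simp only [if_true] at h
  obtain ⟨β', f, γ, rfl, h2, h3⟩ := split_one (x := x') (u := β) (by omega)
  exact ⟨α, e, β', f, γ, rfl, hα, h2, h3⟩

theorem not_lk_of_red {x : B} {α β γ : List (B × ℤ)} {e f : ℤ}
    (hR : Rd M (α ++ (x, e) :: (β ++ (x, f) :: γ))) : val (ra M) β ∉ lk M x := by
  intro h
  obtain ⟨c, hc, hcx, hc2⟩ := hR.2 α β γ x e f rfl
  have hβ : Rd M β := Rd.mid (u := α ++ [(x, e)]) (z := (x, f) :: γ) (by simpa using hR)
  exact hc2 (mem_of_red hβ h c hc).2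

/-- the numbers of syllables of two reduced words whose product does not involve the generator -/
theorem pt {x : B} {u v : List (B × ℤ)} (hu : Rd M u) (hv : Rd M v)
    (h : val (ra M) u * val (ra M) v ∈ P (ra M) {x}ᶜ) (h3 : ct x u + ct x v ≤ 3) :
    ct x u = ct x v := by
  have hz : ∀ w : List (B × ℤ), ct x w = 0 → val (ra M) w ∈ P (ra M) {x}ᶜ := fun w hw =>
    val_mem (ct_eq_zero hw)
  have hn : ∀ w : List (B × ℤ), Rd M w → val (ra M) w ∈ P (ra M) {x}ᶜ → ct x w = 0 := by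
    intro w hw hm
    apply List.count_eq_zero.2
    intro hx
    obtain ⟨a, ha, hax⟩ := List.mem_map.1 hx
    exact mem_of_red hw hm a ha hax
  by_cases hu0 : ct x u = 0
  · rw [hu0, hn v hv ((Subgroup.mul_mem_cancel_left _ (hz u hu0)).1 h)]
  by_cases hv0 : ct x v = 0
  · rw [hv0, hn u hu ((Subgroup.mul_mem_cancel_right _ (hz v hv0)).1 h)]
  have hcases : (ct x u = 1 ∧ ct x v = 1) ∨ (ct x u = 1 ∧ ct x v = 2) ∨
      (ct x u = 2 ∧ ct x v = 1) := by omega
  rcases hcases with ⟨h1, h2⟩ | ⟨h1, h2⟩ | ⟨h1, h2⟩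
  · rw [h1, h2]
  · exfalso
    obtain ⟨α, e, β, rfl, hα, hβ⟩ := split_one h1
    obtain ⟨γ, f, δ, k, ε, rfl, hγ, hδ, hε⟩ := split_two h2
    have he : e ≠ 0 := hu.1 (x, e) (by simp)
    have hf : f ≠ 0 := hv.1 (x, f) (by simp)
    have hk : k ≠ 0 := hv.1 (x, k) (by simp)
    have hδ' := not_lk_of_red hv
    have hα' : val (ra M) α ∈ P (ra M) {x}ᶜ := val_mem hα
    have hβ' : val (ra M) β ∈ P (ra M) {x}ᶜ := val_mem hβ
    have hγ' : val (ra M) γ ∈ P (ra M) {x}ᶜ := val_mem hγ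
    have hδ'' : val (ra M) δ ∈ P (ra M) {x}ᶜ := val_mem hδ
    have hε' : val (ra M) ε ∈ P (ra M) {x}ᶜ := val_mem hε
    set Z := val (ra M) (α ++ (x, e) :: β) * val (ra M) (γ ++ (x, f) :: (δ ++ (x, k) :: ε))
      with hZ
    have hrel : g (ra M) x ^ e * (val (ra M) β * val (ra M) γ) * g (ra M) x ^ f *
        val (ra M) δ * g (ra M) x ^ k * (val (ra M) ε * Z⁻¹ * val (ra M) α) = 1 := by
      have h5 : g (ra M) x ^ e * (val (ra M) β * val (ra M) γ) * g (ra M) x ^ f *
        val (ra M) δ * g (ra M) x ^ k * val (ra M) ε = (val (ra M) α)⁻¹ * Z := by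
        rw [hZ]
        simp only [val_append, val_cons]
        group
      calc g (ra M) x ^ e * (val (ra M) β * val (ra M) γ) * g (ra M) x ^ f *
          val (ra M) δ * g (ra M) x ^ k * (val (ra M) ε * Z⁻¹ * val (ra M) α)
          = (g (ra M) x ^ e * (val (ra M) β * val (ra M) γ) * g (ra M) x ^ f *
            val (ra M) δ * g (ra M) x ^ k * val (ra M) ε) * Z⁻¹ * val (ra M) α := by group
        _ = 1 := by rw [h5]; group
    have hend : val (ra M) ε * Z⁻¹ * val (ra M) α ∈ P (ra M) {x}ᶜ :=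
      mul_mem (mul_mem hε' (inv_mem h)) hα'
    by_cases hb : val (ra M) β * val (ra M) γ ∈ lk M x
    · by_cases hef : e + f = 0
      · have h6 : g (ra M) x ^ k ∈ P (ra M) {x}ᶜ := by
          have h7 : g (ra M) x ^ k = (val (ra M) β * val (ra M) γ * val (ra M) δ)⁻¹ *
              (val (ra M) ε * Z⁻¹ * val (ra M) α)⁻¹ := by
            rw [lk_comm hb, mul_assoc (val (ra M) β * val (ra M) γ), ← zpow_add, hef, zpow_zero,
              mul_one] at hrel
            rw [eq_mul_inv_iff_mul_eq]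
            exact eq_inv_of_mul_eq_one_right (by rw [← mul_assoc]; exact hrel)
          rw [h7]
          exact mul_mem (inv_mem (mul_mem (mul_mem hβ' hγ') hδ'')) (inv_mem hend)
        have h8 : et M x (g (ra M) x ^ k) = HNNExtension.t ^ k := et_x x k
        have h9 : Lst x (et M x (g (ra M) x ^ k)) 1 := by
          rw [h8]
          simpa using Lst.t0 x (1 : Art (ra M)) hk
        exact Lst.not h6 h9
      · rw [lk_comm hb, mul_assoc (val (ra M) β * val (ra M) γ), ← zpow_add] at hrel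
        refine br2 (x := x) (β := val (ra M) δ)
          (γ := (val (ra M) ε * Z⁻¹ * val (ra M) α) * (val (ra M) β * val (ra M) γ)) hδ'' hδ'
          (mul_mem hend (mul_mem hβ' hγ')) hef hk ?_
        have h10 := congrArg (fun y => (val (ra M) β * val (ra M) γ)⁻¹ * y *
          (val (ra M) β * val (ra M) γ)) hrel
        simp only [mul_one, inv_mul_cancel] at h10
        rw [← h10]
        group
    · exact br3 (mul_mem hβ' hγ') hb hδ'' hδ' hend he hf hk hrel
  · exfalso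
    obtain ⟨α, e, β, f, γ, rfl, hα, hβ, hγ⟩ := split_two h1
    obtain ⟨δ, k, ε, rfl, hδ, hε⟩ := split_one h2
    have he : e ≠ 0 := hu.1 (x, e) (by simp)
    have hf : f ≠ 0 := hu.1 (x, f) (by simp)
    have hk : k ≠ 0 := hv.1 (x, k) (by simp)
    have hβ0 := not_lk_of_red hu
    have hα' : val (ra M) α ∈ P (ra M) {x}ᶜ := val_mem hα
    have hβ' : val (ra M) β ∈ P (ra M) {x}ᶜ := val_mem hβ
    have hγ' : val (ra M) γ ∈ P (ra M) {x}ᶜ := val_mem hγ
    have hδ' : val (ra M) δ ∈ P (ra M) {x}ᶜ := val_mem hδ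
    have hε' : val (ra M) ε ∈ P (ra M) {x}ᶜ := val_mem hε
    set Z := val (ra M) (α ++ (x, e) :: (β ++ (x, f) :: γ)) * val (ra M) (δ ++ (x, k) :: ε)
      with hZ
    have hrel : g (ra M) x ^ e * val (ra M) β * g (ra M) x ^ f *
        (val (ra M) γ * val (ra M) δ) * g (ra M) x ^ k *
        (val (ra M) ε * Z⁻¹ * val (ra M) α) = 1 := by
      have h5 : g (ra M) x ^ e * val (ra M) β * g (ra M) x ^ f *
        (val (ra M) γ * val (ra M) δ) * g (ra M) x ^ k * val (ra M) ε =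
          (val (ra M) α)⁻¹ * Z := by
        rw [hZ]
        simp only [val_append, val_cons]
        group
      calc g (ra M) x ^ e * val (ra M) β * g (ra M) x ^ f *
          (val (ra M) γ * val (ra M) δ) * g (ra M) x ^ k * (val (ra M) ε * Z⁻¹ * val (ra M) α)
          = (g (ra M) x ^ e * val (ra M) β * g (ra M) x ^ f *
            (val (ra M) γ * val (ra M) δ) * g (ra M) x ^ k * val (ra M) ε) * Z⁻¹ *
            val (ra M) α := by group
        _ = 1 := by rw [h5]; group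
    have hend : val (ra M) ε * Z⁻¹ * val (ra M) α ∈ P (ra M) {x}ᶜ :=
      mul_mem (mul_mem hε' (inv_mem h)) hα'
    by_cases hb : val (ra M) γ * val (ra M) δ ∈ lk M x
    · rw [mul_assoc (g (ra M) x ^ e * val (ra M) β * g (ra M) x ^ f), ← lk_comm hb,
        ← mul_assoc (g (ra M) x ^ e * val (ra M) β * g (ra M) x ^ f),
        mul_assoc (g (ra M) x ^ e * val (ra M) β), ← zpow_add] at hrel
      by_cases hfk : f + k = 0
      · have h6 : g (ra M) x ^ e ∈ P (ra M) {x}ᶜ := by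
          have h7 : g (ra M) x ^ e = (val (ra M) β * (val (ra M) γ * val (ra M) δ) *
              (val (ra M) ε * Z⁻¹ * val (ra M) α))⁻¹ := by
            rw [hfk, zpow_zero, mul_one] at hrel
            rw [eq_inv_iff_mul_eq_one, ← hrel]
            group
          rw [h7]
          exact inv_mem (mul_mem (mul_mem hβ' (mul_mem hγ' hδ')) hend)
        have h9 : Lst x (et M x (g (ra M) x ^ e)) 1 := by
          rw [et_x]
          simpa using Lst.t0 x (1 : Art (ra M)) he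
        exact Lst.not h6 h9
      · refine br2 (x := x) (β := val (ra M) β)
          (γ := (val (ra M) γ * val (ra M) δ) * (val (ra M) ε * Z⁻¹ * val (ra M) α)) hβ' hβ0
          (mul_mem (mul_mem hγ' hδ') hend) he hfk ?_
        rw [← hrel]
        group
    · exact br3 hβ' hβ0 (mul_mem hγ' hδ') hb hend he hf hk hrel

end raag

end Pool.Agent.K7.H20.AW
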