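import Mathlib

/-!
# Decoupling the generators outside a set

Definition used in the statement of `MP_a1ec0a_al.DecoupledGenerators`.
-/

set_option autoImplicit false

namespace Pool.Agent.K7.H20.AW

/-- The Coxeter matrix in which the labels between two elements of `Y` and all labels `2` are kept,
and all other labels off the diagonal are replaced by infinity (the entry `0`). -/
def decouple {S : Type*} [DecidableEq S] (M : CoxeterMatrix S) (Y : Finset S) : CoxeterMatrix S where
  M := Matrix.of fun i j =>
    if i = j then 1 else if M i j = 2 ∨ (i ∈ Y ∧ j ∈ Y) then M i j else 0
  isSymm := by
    ext i j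
    simp only [Matrix.transpose_apply, Matrix.of_apply, M.symmetric i j, eq_comm (a := i),
      and_comm (a := i ∈ Y)]
  diagonal i := by simp
  off_diagonal i j h := by
    simp only [Matrix.of_apply, if_neg h]
    split_ifs
    · exact M.off_diagonal i j h
    · norm_num

end Pool.Agent.K7.H20.AW
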