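import Mathlib

/-!
# Artin groups, words in syllables and the shuffle procedure

Definitions used in the statement of `MP_a1ec0a_al.FewSyllables`.
-/

set_option autoImplicit false

namespace Pool.Agent.K7.H20.AW

/-- The alternating product `a b a ⋯` with `m` factors. -/
def altProd {G : Type*} [Monoid G] : ℕ → G → G → G
  | 0, _, _ => 1
  | (m + 1), a, b => a * altProd m b a

/-- The Artin group of a Coxeter matrix `M` (in Mathlib the entry `0` of a Coxeter matrix stands for
infinity; the relator of such a pair is trivial). -/
abbrev ArtinGroup {S : Type*} (M : CoxeterMatrix S) : Type _ :=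
  PresentedGroup {r : FreeGroup S | ∃ s t : S, r =
    altProd (M s t) (FreeGroup.of s) (FreeGroup.of t) *
      (altProd (M s t) (FreeGroup.of t) (FreeGroup.of s))⁻¹}

/-- The element of the Artin group represented by a word `s₁ ^ k₁ s₂ ^ k₂ ⋯`, given as the list of its
syllables `(sᵢ, kᵢ)`. -/
def value {S : Type*} (M : CoxeterMatrix S) (w : List (S × ℤ)) : ArtinGroup M :=
  (w.map fun p => (PresentedGroup.of p.1 : ArtinGroup M) ^ p.2).prod

/-- The number of syllables of `s` in the word. -/
def syllables {S : Type*} [DecidableEq S] (s : S) (w : List (S × ℤ)) : ℕ :=
  (w.map Prod.fst).count s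

/-- Put the syllable `b ^ k` in front of the word and move it to the right past syllables of generators
that commute with `b`, until it meets a syllable of `b` and is merged with it. If it does not meet one,
it stays in front of the first syllable it cannot pass. -/
def insert {S : Type*} [DecidableEq S] (M : CoxeterMatrix S) (b : S) (k : ℤ) :
    List (S × ℤ) → List (S × ℤ)
  | [] => [(b, k)]
  | (c, l) :: w =>
    if c = b then (if k + l = 0 then w else (b, k + l) :: w)
    else if M c b = 2 then (c, l) :: insert M b k w
    else (b, k) :: (c, l) :: w

/-- The procedure: insert the syllables one after the other, starting from the right. -/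
def reduce {S : Type*} [DecidableEq S] (M : CoxeterMatrix S) : List (S × ℤ) → List (S × ℤ)
  | [] => []
  | (b, k) :: w => if k = 0 then reduce M w else insert M b k (reduce M w)

end Pool.Agent.K7.H20.AW
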