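import Pool.Agent.K7.H20.AW.Main
import Pool.Agent.K7.H20.AW.Defs

/-!
# Restriction to the support, and the procedure
-/

set_option autoImplicit false
set_option linter.unusedSectionVars false

namespace Pool.Agent.K7.H20.AW

open Pool.Agent.Helper741 Pool.Agent.K7.H87.FJ6 CoxeterSystem

section supp

variable {B : Type*} [Fintype B] [DecidableEq B] {M : CoxeterMatrix B}

variable (M) in
/-- the class of words -/
def Cs (w : List (B × ℤ)) : Prop :=
  ∀ b, ct b w ≤ 2 ∨ (ct b w ≤ 3 ∧ ∀ x, (∃ a ∈ w, a.1 = x) → M x b ≠ 3)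

theorem supp_thm {w : List (B × ℤ)} (h : Cs M w) (hw : val M w = 1) : val (ra M) w = 1 := by
  classical
  let A : Type _ := {b : B // ∃ a ∈ w, a.1 = b}
  have : Fintype A := Fintype.ofFinite A
  let ι : A → B := Subtype.val
  have hι : Function.Injective ι := Subtype.val_injective
  let w' : List (A × ℤ) := w.attach.map fun a => (⟨a.1.1, ⟨a.1, a.2, rfl⟩⟩, a.1.2)
  have hw' : w'.map (fun p => (ι p.1, p.2)) = w := by
    simp only [w', List.map_map]
    conv_rhs => rw [← List.attach_map_subtype_val w]
    rfl
  have hval : ∀ u : List (A × ℤ), inc M (z0 B) ι hι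
      ((u.map fun p => Sh.gen (pull M ι hι) (z0 B ∘ ι) p.1 ^ p.2).prod) =
      val M (u.map fun p => (ι p.1, p.2)) := by
    intro u
    induction u with
    | nil => rw [List.map_nil, List.prod_nil, map_one]; rfl
    | cons p u ih =>
      rw [List.map_cons, List.prod_cons, map_mul, ih, map_zpow, inc_gen, List.map_cons, val_cons]
  have h1 : val (pull M ι hι) w' = 1 := by
    apply inc_injective (adm0 M) ι hι
    rw [map_one]
    refine (hval w').trans ?_
    rw [hw', hw]
  have hct : ∀ b : A, ct b w' = ct (ι b) w := by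
    intro b
    have e : ∀ u : List (A × ℤ), (u.map (fun p => (ι p.1, p.2))).map Prod.fst =
        (u.map Prod.fst).map ι := by
      intro u
      rw [List.map_map, List.map_map]; rfl
    have e3 : ct (ι b) w = ((w'.map (fun p => (ι p.1, p.2))).map Prod.fst).count (ι b) :=
      (congrArg (fun u : List (B × ℤ) => (u.map Prod.fst).count (ι b)) hw').symm
    rw [e3, e, List.count_map_of_injective _ _ hι]
    unfold ct
    congr!
  have hcl : Cl (pull M ι hι) w' := by
    intro b
    rw [hct]
    rcases h (ι b) with h2 | ⟨h2, h3⟩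
    · exact Or.inl h2
    · exact Or.inr ⟨h2, fun x => h3 (ι x) x.2⟩
  have h2 := main_thm w'.length w' rfl hcl h1
  let F : Art (ra (pull M ι hι)) →* Art (ra M) :=
    Sh.lift (fun a => g (ra M) (ι a)) (lift_ok _ fun i j hij h =>
      comm_gen (ra_two (fun h => hij (hι h)) h)) (fun _ => pow_zero _)
  have hF : ∀ a, F (g (ra (pull M ι hι)) a) = g (ra M) (ι a) := fun a => Sh.lift_gen _ _ _ _
  have hFval : ∀ u : List (A × ℤ), F (val (ra (pull M ι hι)) u) =
      val (ra M) (u.map fun p => (ι p.1, p.2)) := by
    intro u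
    induction u with
    | nil => exact map_one _
    | cons p u ih => rw [val_cons, map_mul, ih, map_zpow, hF, List.map_cons, val_cons]
  have h3 := hFval w'
  rw [h2, map_one, hw'] at h3
  exact h3.symm

end supp

section proc

variable {B : Type*} [DecidableEq B] {M : CoxeterMatrix B}

theorem val_insert (b : B) (k : ℤ) (w : List (B × ℤ)) :
    val (ra M) (insert M b k w) = g (ra M) b ^ k * val (ra M) w := by
  induction w with
  | nil => simp [insert]
  | cons c w ih =>
    obtain ⟨c, l⟩ := c
    rw [insert]
    split_ifs with h1 h2 h3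
    · subst h1
      rw [val_cons, ← mul_assoc, ← zpow_add, h2, zpow_zero, one_mul]
    · subst h1
      rw [val_cons, val_cons, ← mul_assoc, ← zpow_add]
    · rw [val_cons, ih, val_cons, ← mul_assoc, ← mul_assoc]
      congr 1
      have h4 : Commute (g (ra M) c) (g (ra M) b) := comm_gen (ra_two h1 h3)
      exact ((h4.zpow_left l).zpow_right k).eq
    · rw [val_cons]

theorem val_reduce (w : List (B × ℤ)) : val (ra M) (reduce M w) = val (ra M) w := by
  induction w with
  | nil => rfl
  | cons c w ih =>
    obtain ⟨c, l⟩ := c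
    rw [reduce]
    split_ifs with h
    · rw [ih, val_cons, h, zpow_zero, one_mul]
    · rw [val_insert, ih, val_cons]

variable (M) in
/-- the syllables of `c` cannot be moved to the front -/
def Blk (c : B) (w : List (B × ℤ)) : Prop :=
  ∀ v l z, w = v ++ (c, l) :: z → ∃ d ∈ v, d.1 ≠ c ∧ M d.1 c ≠ 2

theorem blk_nil (c : B) : Blk M c [] := by
  intro v l z h
  simp at h

theorem blk_cons {c d : B} {l : ℤ} {w : List (B × ℤ)} :
    Blk M c ((d, l) :: w) ↔ d ≠ c ∧ (M d c ≠ 2 ∨ Blk M c w) := by
  constructor
  · intro h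
    have hd : d ≠ c := by
      rintro rfl
      obtain ⟨e, he, _⟩ := h [] l w rfl
      simp at he
    refine ⟨hd, ?_⟩
    by_cases h2 : M d c = 2
    · right
      intro v l' z hw
      obtain ⟨e, he, hec, he2⟩ := h ((d, l) :: v) l' z (by rw [hw]; rfl)
      rcases List.mem_cons.1 he with rfl | he
      · exact absurd h2 he2
      · exact ⟨e, he, hec, he2⟩
    · exact Or.inl h2
  · rintro ⟨hd, h⟩ v l' z hw
    rcases v with _ | ⟨e, v⟩
    · exfalso
      simp only [List.nil_append, List.cons.injEq, Prod.mk.injEq] at hw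
      exact hd hw.1.1
    · simp only [List.cons_append, List.cons.injEq] at hw
      rcases h with h | h
      · exact ⟨e, by simp, by rw [← hw.1]; exact ⟨hd, h⟩⟩
      · obtain ⟨f, hf, hf'⟩ := h v l' z hw.2
        exact ⟨f, by simp [hf], hf'⟩

theorem rd_cons {c : B} {l : ℤ} {w : List (B × ℤ)} :
    Rd M ((c, l) :: w) ↔ l ≠ 0 ∧ Rd M w ∧ Blk M c w := by
  constructor
  · intro h
    refine ⟨h.1 (c, l) (by simp), h.tail, ?_⟩
    intro v l' z hw
    exact h.2 [] v z c l l' (by rw [hw]; rfl)
  · rintro ⟨h1, h2, h3⟩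
    refine ⟨?_, ?_⟩
    · intro a ha
      rcases List.mem_cons.1 ha with rfl | ha
      · exact h1
      · exact h2.1 a ha
    · intro u v z b k l' hw
      rcases u with _ | ⟨e, u⟩
      · simp only [List.nil_append, List.cons.injEq, Prod.mk.injEq] at hw
        obtain ⟨⟨rfl, rfl⟩, hw⟩ := hw
        exact h3 v l' z hw
      · simp only [List.cons_append, List.cons.injEq] at hw
        exact h2.2 u v z b k l' hw.2

theorem blk_insert {b c : B} (hcb : c ≠ b) (h2 : M c b = 2) (k : ℤ) {w : List (B × ℤ)}
    (h : Blk M c w) : Blk M c (insert M b k w) := by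
  have h2' : M b c = 2 := by rw [M.symmetric]; exact h2
  induction w with
  | nil =>
    rw [insert, blk_cons]
    exact ⟨hcb.symm, Or.inr (blk_nil c)⟩
  | cons d w ih =>
    obtain ⟨d, l⟩ := d
    rw [insert]
    rw [blk_cons] at h
    split_ifs with h3 h4 h5
    · subst h3
      exact h.2.resolve_left (fun h => h h2')
    · subst h3
      rw [blk_cons]
      exact h
    · rw [blk_cons]
      exact ⟨h.1, h.2.imp_right ih⟩
    · rw [blk_cons]
      exact ⟨hcb.symm, Or.inr (blk_cons.2 h)⟩

theorem rd_insert {b : B} {k : ℤ} (hk : k ≠ 0) {w : List (B × ℤ)} (h : Rd M w) :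
    Rd M (insert M b k w) := by
  induction w with
  | nil =>
    rw [insert, rd_cons]
    exact ⟨hk, h, blk_nil b⟩
  | cons c w ih =>
    obtain ⟨c, l⟩ := c
    rw [rd_cons] at h
    rw [insert]
    split_ifs with h1 h2 h3
    · exact h.2.1
    · subst h1
      rw [rd_cons]
      exact ⟨h2, h.2⟩
    · rw [rd_cons]
      exact ⟨h.1, ih h.2.1, blk_insert h1 h3 k h.2.2⟩
    · rw [rd_cons]
      exact ⟨hk, rd_cons.2 h, blk_cons.2 ⟨h1, Or.inl h3⟩⟩

theorem rd_reduce (w : List (B × ℤ)) : Rd M (reduce M w) := by
  induction w with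
  | nil =>
    rw [reduce]
    exact ⟨by simp, by simp⟩
  | cons c w ih =>
    obtain ⟨c, l⟩ := c
    rw [reduce]
    split_ifs with h
    · exact ih
    · exact rd_insert h ih

theorem reduce_iff (w : List (B × ℤ)) : reduce M w = [] ↔ val (ra M) w = 1 := by
  rw [← val_reduce]
  constructor
  · intro h
    rw [h, val_nil]
  · exact red_ne_one (rd_reduce w)

end proc

section artin

variable {B : Type*} {M : CoxeterMatrix B}

theorem altProd_eq {G : Type*} [Monoid G] (m : ℕ) : ∀ a b : G, altProd m a b = alt a b m := by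
  induction m with
  | zero => intro a b; rw [altProd, alt_zero]
  | succ m ih => intro a b; rw [altProd, alt_succ, ih]

variable (M) in
/-- the two presentations -/
def toArt : ArtinGroup M →* Art M :=
  PresentedGroup.toGroup (f := fun b => g M b) (by
    rintro _ ⟨s, t, rfl⟩
    rw [map_mul, map_inv, altProd_eq, altProd_eq, map_alt, map_alt, FreeGroup.lift_apply_of,
      FreeGroup.lift_apply_of]
    exact mul_inv_eq_one.2 (Sh.rel s t))

variable (M) in
/-- the two presentations -/
def ofArt : Art M →* ArtinGroup M :=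
  Sh.lift (fun b => PresentedGroup.of b) (by
    intro s t
    have h : (PresentedGroup.mk {r : FreeGroup B | ∃ s t : B, r =
        altProd (M s t) (FreeGroup.of s) (FreeGroup.of t) *
          (altProd (M s t) (FreeGroup.of t) (FreeGroup.of s))⁻¹})
        (altProd (M s t) (FreeGroup.of s) (FreeGroup.of t) *
          (altProd (M s t) (FreeGroup.of t) (FreeGroup.of s))⁻¹) = 1 :=
      PresentedGroup.one_of_mem ⟨s, t, rfl⟩
    rw [map_mul, map_inv, mul_inv_eq_one, altProd_eq, altProd_eq, map_alt, map_alt] at h
    exact h) (fun _ => pow_zero _)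

theorem toArt_value (w : List (B × ℤ)) : toArt M (value M w) = val M w := by
  induction w with
  | nil => exact map_one _
  | cons p w ih =>
    have h : value M (p :: w) = (PresentedGroup.of p.1 : ArtinGroup M) ^ p.2 * value M w := by
      simp [value]
    rw [h, map_mul, ih, map_zpow, val_cons]
    congr 2

theorem ofArt_val (w : List (B × ℤ)) : ofArt M (val M w) = value M w := by
  induction w with
  | nil => exact map_one _
  | cons p w ih =>
    have h : value M (p :: w) = (PresentedGroup.of p.1 : ArtinGroup M) ^ p.2 * value M w := by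
      simp [value]
    rw [h, val_cons, map_mul, ih, map_zpow]
    congr 2

theorem value_iff (w : List (B × ℤ)) : value M w = 1 ↔ val M w = 1 := by
  constructor
  · intro h
    rw [← toArt_value, h, map_one]
  · intro h
    rw [← ofArt_val, h, map_one]

end artin

end Pool.Agent.K7.H20.AW
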