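import Pool.Agent.K7.H20.AW.Flag
import Pool.Agent.K7.H20.AW.DefsDec
import Pool.Agent.K7.H20.AW.Fin

/-!
# Generators that occur at most twice
-/

set_option autoImplicit false
set_option linter.unusedSectionVars false

namespace Pool.Agent.K7.H20.AW

open Pool.Agent.Helper741 Pool.Agent.K7.H87.FJ6 CoxeterSystem

section basic

variable {B : Type*} [DecidableEq B] {M : CoxeterMatrix B} {Y : Finset B}

theorem dec_apply (i j : B) : decouple M Y i j =
    if i = j then 1 else if M i j = 2 ∨ (i ∈ Y ∧ j ∈ Y) then M i j else 0 := rfl

theorem dec_Y {i j : B} (hi : i ∈ Y) (hj : j ∈ Y) : decouple M Y i j = M i j := by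
  rw [dec_apply]
  by_cases h : i = j
  · rw [if_pos h, h, M.diagonal]
  · rw [if_neg h, if_pos (Or.inr ⟨hi, hj⟩)]

theorem dec_two {i j : B} (h : M i j = 2) : decouple M Y i j = 2 := by
  have hij : i ≠ j := by
    rintro rfl
    rw [M.diagonal] at h
    norm_num at h
  rw [dec_apply, if_neg hij, if_pos (Or.inl h), h]

theorem lift_dec {G : Type*} [Group G] (f : B → G)
    (h1 : ∀ i ∈ Y, ∀ j ∈ Y, alt (f i) (f j) (M i j) = alt (f j) (f i) (M i j))
    (h2 : ∀ i j, M i j = 2 → f i * f j = f j * f i) (i j : B) :
    alt (f i) (f j) (decouple M Y i j) = alt (f j) (f i) (decouple M Y i j) := by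
  by_cases hij : i = j
  · rw [hij]
  by_cases h : M i j = 2
  · rw [dec_two h, alt_two, alt_two]
    exact h2 i j h
  by_cases hY : i ∈ Y ∧ j ∈ Y
  · rw [dec_Y hY.1 hY.2]
    exact h1 i hY.1 j hY.2
  · rw [dec_apply, if_neg hij, if_neg (not_or.2 ⟨h, hY⟩), alt_zero, alt_zero]

theorem dec_comm {i j : B} (h : M i j = 2) :
    g (decouple M Y) i * g (decouple M Y) j = g (decouple M Y) j * g (decouple M Y) i :=
  comm_gen (dec_two h)

/-- the projection -/
def dq : Art (decouple M Y) →* Art M :=
  Sh.lift (fun b => g M b) (lift_dec _ (fun i _ j _ => Sh.rel i j) fun _ _ h => comm_gen h)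
    (fun _ => pow_zero _)

theorem dq_g (b : B) : dq (M := M) (Y := Y) (g (decouple M Y) b) = g M b :=
  Sh.lift_gen _ _ _ _

theorem dq_val (w : List (B × ℤ)) : dq (val (decouple M Y) w) = val M w := by
  induction w with
  | nil => exact map_one _
  | cons p w ih => rw [val_cons, val_cons, map_mul, ih, map_zpow, dq_g]

theorem dq_surj {V : Set B} {x : Art M} (hx : x ∈ P M V) :
    ∃ x' ∈ P (decouple M Y) V, dq x' = x := by
  induction hx using Subgroup.closure_induction with
  | mem x hx =>
    obtain ⟨b, hb, rfl⟩ := hx
    exact ⟨g _ b, g_mem hb, dq_g b⟩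
  | one => exact ⟨1, one_mem _, map_one _⟩
  | mul x y _ _ hx hy =>
    obtain ⟨u, hu, rfl⟩ := hx
    obtain ⟨v, hv, rfl⟩ := hy
    exact ⟨u * v, mul_mem hu hv, map_mul _ _ _⟩
  | inv x _ hx =>
    obtain ⟨u, hu, rfl⟩ := hx
    exact ⟨u⁻¹, inv_mem hu, map_inv _ _⟩

open Classical in
/-- kill the generators in `T` -/
noncomputable def kil (T : Set B) (hT : ∀ y ∈ Y, y ∉ T) : Art (decouple M Y) →* Art (decouple M Y) :=
  Sh.lift (fun b => if b ∈ T then 1 else g (decouple M Y) b)
    (lift_dec _ (fun i hi j hj => by
      rw [if_neg (hT i hi), if_neg (hT j hj)]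
      have h := Sh.rel (M := decouple M Y) (p := z0 B) i j
      rw [dec_Y hi hj] at h
      exact h) fun i j h => by
      split_ifs
      · rfl
      · rw [one_mul, mul_one]
      · rw [one_mul, mul_one]
      · exact dec_comm h) (fun _ => pow_zero _)

open Classical in
theorem kil_g (T : Set B) (hT : ∀ y ∈ Y, y ∉ T) (b : B) :
    kil (M := M) T hT (g (decouple M Y) b) = if b ∈ T then 1 else g (decouple M Y) b :=
  Sh.lift_gen _ _ _ _

open Classical in
theorem kil_val (T : Set B) (hT : ∀ y ∈ Y, y ∉ T) (w : List (B × ℤ)) :
    kil T hT (val (decouple M Y) w) = val (decouple M Y) (w.filter fun a => a.1 ∉ T) := by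
  induction w with
  | nil => exact map_one _
  | cons p w ih =>
    rw [val_cons, map_mul, ih, map_zpow, kil_g]
    by_cases h : p.1 ∈ T
    · rw [if_pos h, one_zpow, one_mul, List.filter_cons_of_neg (by simpa using h)]
    · rw [if_neg h, List.filter_cons_of_pos (by simpa using h), val_cons]

theorem P_empty {M : CoxeterMatrix B} {x : Art M} (h : x ∈ P M ∅) : x = 1 := by
  rw [P, Set.image_empty, Subgroup.closure_empty] at h
  exact Subgroup.mem_bot.1 h

end basic

section main

variable {B : Type*} [Fintype B] [DecidableEq B] {M : CoxeterMatrix B} {Y : Finset B}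

/-- the subgroup of `Y` is the same in the two groups -/
theorem dY {V : Set B} (hV : V ⊆ (Y : Set B)) {z : Art (decouple M Y)}
    (hz : z ∈ P (decouple M Y) (Y : Set B)) (h : dq z ∈ P M V) : z ∈ P (decouple M Y) V := by
  let ι : {y : B // y ∈ Y} → B := Subtype.val
  have hι : Function.Injective ι := Subtype.val_injective
  let J : Sh (pull M ι hι) (z0 B ∘ ι) →* Art (decouple M Y) :=
    Sh.lift (fun x => g (decouple M Y) (ι x)) (fun i j => by
      have h := Sh.rel (M := decouple M Y) (p := z0 B) (ι i) (ι j)
      rw [dec_Y i.2 j.2] at h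
      exact h) (fun _ => pow_zero _)
  have hJ : ∀ x, J (Sh.gen _ _ x) = g (decouple M Y) (ι x) := fun x => Sh.lift_gen _ _ _ _
  have hqJ : ∀ a, dq (J a) = inc M (z0 B) ι hι a := by
    intro a
    induction a using Sh.induction with
    | one => rw [map_one, map_one, map_one]
    | gen x => rw [hJ, dq_g, inc_gen]
    | mul x y hx hy => rw [map_mul, map_mul, map_mul, hx, hy]
    | inv x hx => rw [map_inv, map_inv, map_inv, hx]
  obtain ⟨z', rfl⟩ : ∃ z', J z' = z := by
    induction hz using Subgroup.closure_induction with
    | mem x hx =>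
      obtain ⟨b, hb, rfl⟩ := hx
      exact ⟨Sh.gen _ _ ⟨b, hb⟩, hJ _⟩
    | one => exact ⟨1, map_one _⟩
    | mul x y hx' hy' hx hy =>
      obtain ⟨a, ha⟩ : ∃ z', J z' = x := by
        clear hx hy h
        induction hx' using Subgroup.closure_induction with
        | mem x hx =>
          obtain ⟨b, hb, rfl⟩ := hx
          exact ⟨Sh.gen _ _ ⟨b, hb⟩, hJ _⟩
        | one => exact ⟨1, map_one _⟩
        | mul x y _ _ hx hy =>
          obtain ⟨a, rfl⟩ := hx
          obtain ⟨b, rfl⟩ := hy
          exact ⟨a * b, map_mul _ _ _⟩
        | inv x _ hx =>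
          obtain ⟨a, rfl⟩ := hx
          exact ⟨a⁻¹, map_inv _ _⟩
      obtain ⟨b, hb⟩ : ∃ z', J z' = y := by
        clear hx hy h
        induction hy' using Subgroup.closure_induction with
        | mem x hx =>
          obtain ⟨b, hb, rfl⟩ := hx
          exact ⟨Sh.gen _ _ ⟨b, hb⟩, hJ _⟩
        | one => exact ⟨1, map_one _⟩
        | mul x y _ _ hx hy =>
          obtain ⟨a, rfl⟩ := hx
          obtain ⟨b, rfl⟩ := hy
          exact ⟨a * b, map_mul _ _ _⟩
        | inv x _ hx =>
          obtain ⟨a, rfl⟩ := hx
          exact ⟨a⁻¹, map_inv _ _⟩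
      exact ⟨a * b, by rw [map_mul, ha, hb]⟩
    | inv x hx' hx =>
      obtain ⟨a, ha⟩ : ∃ z', J z' = x := by
        clear hx h
        induction hx' using Subgroup.closure_induction with
        | mem x hx =>
          obtain ⟨b, hb, rfl⟩ := hx
          exact ⟨Sh.gen _ _ ⟨b, hb⟩, hJ _⟩
        | one => exact ⟨1, map_one _⟩
        | mul x y _ _ hx hy =>
          obtain ⟨a, rfl⟩ := hx
          obtain ⟨b, rfl⟩ := hy
          exact ⟨a * b, map_mul _ _ _⟩
        | inv x _ hx =>
          obtain ⟨a, rfl⟩ := hx
          exact ⟨a⁻¹, map_inv _ _⟩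
      exact ⟨a⁻¹, by rw [map_inv, ha]⟩
  rw [hqJ] at h
  obtain ⟨c, hc, hc'⟩ : ∃ c ∈ Subgroup.closure (Sh.gen (pull M ι hι) (z0 B ∘ ι) '' {x | ι x ∈ V}),
      inc M (z0 B) ι hι c = inc M (z0 B) ι hι z' := by
    generalize inc M (z0 B) ι hι z' = t at h
    induction h using Subgroup.closure_induction with
    | mem x hx =>
      obtain ⟨b, hb, rfl⟩ := hx
      exact ⟨Sh.gen _ _ ⟨b, hV hb⟩, Subgroup.subset_closure ⟨⟨b, hV hb⟩, hb, rfl⟩,
        inc_gen _ _ _ _ _⟩
    | one => exact ⟨1, one_mem _, map_one _⟩
    | mul x y _ _ hx hy =>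
      obtain ⟨a, ha, rfl⟩ := hx
      obtain ⟨b, hb, rfl⟩ := hy
      exact ⟨a * b, mul_mem ha hb, map_mul _ _ _⟩
    | inv x _ hx =>
      obtain ⟨a, ha, rfl⟩ := hx
      exact ⟨a⁻¹, inv_mem ha, map_inv _ _⟩
  rw [← inc_injective (adm0 M) ι hι hc']
  clear hc' h
  induction hc using Subgroup.closure_induction with
  | mem x hx =>
    obtain ⟨b, hb, rfl⟩ := hx
    rw [hJ]
    exact g_mem hb
  | one => rw [map_one]; exact one_mem _
  | mul x y _ _ hx hy => rw [map_mul]; exact mul_mem hx hy
  | inv x _ hx => rw [map_inv]; exact inv_mem hx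

theorem dY_inj {x y : Art (decouple M Y)} (hx : x ∈ P (decouple M Y) (Y : Set B))
    (hy : y ∈ P (decouple M Y) (Y : Set B)) (h : dq x = dq y) : x = y := by
  have h1 : x * y⁻¹ ∈ P (decouple M Y) ∅ := by
    refine dY (Set.empty_subset _) (mul_mem hx (inv_mem hy)) ?_
    rw [map_mul, map_inv, h, mul_inv_cancel]
    exact one_mem _
  exact mul_inv_eq_one.1 (P_empty h1)

/-- membership in a parabolic subgroup, for words in which the generators outside `Y` occur once -/
theorem mem_dec : ∀ (n : ℕ) (y : List (B × ℤ)), y.length = n →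
    (∀ x, x ∉ Y → ct x y ≤ 1 ∧ ∀ a ∈ y, a.1 = x → Odd a.2) → ∀ V : Set B, val M y ∈ P M V →
    val (decouple M Y) y ∈ P (decouple M Y) V := by
  intro n
  induction n using Nat.strong_induction_on with
  | _ n ih =>
    intro y hn hc V hy
    by_cases hex : ∃ a ∈ y, a.1 ∉ Y
    · obtain ⟨p, ⟨x, e⟩, q, rfl, hx, hp⟩ := split_first (fun a : B × ℤ => a.1 ∉ Y) y hex
      have hx' : x ∉ Y := hx
      have hpY : ∀ a ∈ p, a.1 ∈ Y := fun a ha => not_not.1 (hp a ha)
      have hcx := hc x hx'
      have he : Odd e := hcx.2 (x, e) (by simp) rfl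
      have hcount := hcx.1
      rw [ct_append, ct_cons, if_pos rfl] at hcount
      have hpx : ∀ a ∈ p, a.1 ≠ x := ct_eq_zero (by omega)
      have hqx : ∀ a ∈ q, a.1 ≠ x := ct_eq_zero (by omega)
      have hpP : val M p ∈ P M {x}ᶜ := val_mem hpx
      have hqP : val M q ∈ P M {x}ᶜ := val_mem hqx
      have hyv : val M (p ++ (x, e) :: q) = val M p * g M x ^ e * val M q := by
        rw [val_append, val_cons, mul_assoc]
      rw [hyv] at hy
      have hxV : x ∈ V := by
        by_contra hxV
        have h1 : g M x ^ e ∈ P M {x}ᶜ := by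
          have h2 : g M x ^ e = (val M p)⁻¹ * (val M p * g M x ^ e * val M q) * (val M q)⁻¹ := by
            group
          rw [h2]
          refine mul_mem (mul_mem (inv_mem hpP) (P_mono ?_ hy)) (inv_mem hqP)
          rintro u hu rfl
          exact hxV hu
        rw [pow_mem h1] at he
        exact absurd he (by decide)
      obtain ⟨l, hl, c, hcP, l', hl', h1, h2⟩ := once hxV hpP hqP hy he rfl
      have h3 : val (decouple M Y) (p ++ q) ∈ P (decouple M Y) V := by
        refine ih (p ++ q).length (by
          rw [← hn]
          simp only [List.length_append, List.length_cons]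
          omega) _ rfl (fun t ht => ⟨?_, fun a ha hat => ?_⟩) V ?_
        · have := (hc t ht).1
          rw [ct_append, ct_cons] at this
          rw [ct_append]
          omega
        · refine (hc t ht).2 a ?_ hat
          rcases List.mem_append.1 ha with h | h
          · simp [h]
          · simp [h]
        · rw [val_append, h1, h2]
          have h4 : l * c * (c⁻¹ * l') = l * l' := by group
          rw [h4]
          exact mul_mem (P_mono Set.inter_subset_left hl) (P_mono Set.inter_subset_left hl')
      have hpYP : l * c ∈ P M (Y : Set B) := by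
        rw [← h1]
        exact val_mem fun a ha => hpY a ha
      obtain ⟨a, ha, b, hb, h5⟩ := flag hl hcP hpYP
      obtain ⟨a', ha', rfl⟩ := dq_surj (Y := Y) ha
      obtain ⟨b', hb', rfl⟩ := dq_surj (Y := Y) hb
      have h6 : val (decouple M Y) p = a' * b' := by
        apply dY_inj
        · exact val_mem fun a ha => hpY a ha
        · exact mul_mem (P_mono Set.inter_subset_right ha') (P_mono Set.inter_subset_right hb')
        · rw [dq_val, h1, h5, map_mul]
      have h7 : g (decouple M Y) x ^ e * b' = b' * g (decouple M Y) x ^ e := by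
        apply comm_P
        refine P_mono ?_ hb'
        rintro u ⟨⟨hu1, hu2⟩, _⟩
        exact ⟨hu1, dec_two hu2⟩
      have h8 : val (decouple M Y) (p ++ (x, e) :: q) =
          a' * g (decouple M Y) x ^ e * a'⁻¹ * val (decouple M Y) (p ++ q) := by
        rw [val_append, val_cons, val_append, h6]
        calc a' * b' * (g (decouple M Y) x ^ e * val (decouple M Y) q)
            = a' * (b' * g (decouple M Y) x ^ e) * val (decouple M Y) q := by group
          _ = a' * (g (decouple M Y) x ^ e * b') * val (decouple M Y) q := by rw [h7]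
          _ = _ := by group
      rw [h8]
      have ha'' : a' ∈ P (decouple M Y) V := P_mono (fun u hu => hu.1.1) ha'
      exact mul_mem (mul_mem (mul_mem ha'' (zpow_mem (g_mem hxV) _)) (inv_mem ha'')) h3
    · push Not at hex
      have h1 : val M y ∈ P M (V ∩ (Y : Set B)) := P_inter hy (val_mem fun a ha => hex a ha)
      refine P_mono Set.inter_subset_left (dY Set.inter_subset_right
        (val_mem fun a ha => hex a ha) ?_)
      rw [dq_val]
      exact h1

theorem dec_main : ∀ (n : ℕ) (w : List (B × ℤ)), w.length = n →
    (∀ x, x ∉ Y → ct x w ≤ 2 ∧ ∀ a ∈ w, a.1 = x → Odd a.2) → val M w = 1 →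
    val (decouple M Y) w = 1 := by
  classical
  intro n
  induction n using Nat.strong_induction_on with
  | _ n ih =>
    intro w hn hc hw
    by_cases hex : ∃ a ∈ w, a.1 ∉ Y
    · obtain ⟨u, ⟨b, k⟩, v, rfl, hb, hu⟩ := split_first (fun a : B × ℤ => a.1 ∉ Y) w hex
      have hb' : b ∉ Y := hb
      have huY : ∀ a ∈ u, a.1 ∈ Y := fun a ha => not_not.1 (hu a ha)
      have hub : ∀ a ∈ u, a.1 ≠ b := fun a ha h => hb' (h ▸ huY a ha)
      have huP : val M u ∈ P M {b}ᶜ := val_mem hub
      have hk : Odd k := (hc b hb').2 (b, k) (by simp) rfl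
      by_cases hv : ∃ c ∈ v, c.1 = b
      · obtain ⟨y, ⟨b', l⟩, z, rfl, hbb, hy⟩ := split_first (fun c : B × ℤ => c.1 = b) v hv
        have hbb' : b' = b := hbb
        subst hbb'
        have hcount := (hc b' hb').1
        rw [ct_append, ct_cons, ct_append, ct_cons, if_pos rfl] at hcount
        have hz : ∀ a ∈ z, a.1 ≠ b' := ct_eq_zero (by omega)
        have hyP : val M y ∈ P M {b'}ᶜ := val_mem hy
        have hzP : val M z ∈ P M {b'}ᶜ := val_mem hz
        have hw' : val M u * (g M b' ^ k * (val M y * (g M b' ^ l * val M z))) = 1 := by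
          rw [← hw, val_append, val_cons, val_append, val_cons]
        have e : g M b' ^ k * val M y * g M b' ^ l = (val M z * val M u)⁻¹ := by
          rw [eq_inv_iff_mul_eq_one]
          have h1 := congrArg (fun t => (val M u)⁻¹ * t * val M u) hw'
          rw [mul_one, inv_mul_cancel] at h1
          rw [← h1]
          group
        have hhP : (val M z * val M u)⁻¹ ∈ P M {b'}ᶜ := inv_mem (mul_mem hzP huP)
        obtain ⟨hyh, hkl, _⟩ := two' hyP hhP e
        have hyL : val M y ∈ P M {x | x ≠ b' ∧ M x b' = 2} := by
          rcases two hyP hhP e with ⟨_, _, h⟩ | ⟨h, _, _⟩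
          · exact h
          · exact absurd hk (Int.not_odd_iff_even.2 h)
        have hrest : val M (u ++ (y ++ z)) = 1 := by
          rw [val_append, val_append, hyh]
          group
        have hrest' : val (decouple M Y) (u ++ (y ++ z)) = 1 := by
          refine ih (u ++ (y ++ z)).length (by
            rw [← hn]
            simp only [List.length_append, List.length_cons]
            omega) _ rfl (fun t ht => ⟨?_, fun a ha hat => ?_⟩) hrest
          · have := (hc t ht).1
            rw [ct_append, ct_cons, ct_append, ct_cons] at this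
            rw [ct_append, ct_append]
            omega
          · refine (hc t ht).2 a ?_ hat
            rcases List.mem_append.1 ha with h | h
            · simp [h]
            · rcases List.mem_append.1 h with h | h
              · simp [h]
              · simp [h]
        rw [val_append, val_append] at hrest'
        -- the generators outside `Y` that occur twice in `y` can be removed
        let T : Set B := {x | x ∉ Y ∧ 2 ≤ ct x y}
        have hT : ∀ x ∈ Y, x ∉ T := fun x hx h => h.1 hx
        have hTz : ∀ x ∈ T, ct x z = 0 := by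
          intro x hx
          have h1 := (hc x hx.1).1
          have h2 : 2 ≤ ct x y := hx.2
          rw [ct_append, ct_cons, ct_append, ct_cons] at h1
          omega
        have hzk : kil T hT (val (decouple M Y) z) = val (decouple M Y) z := by
          rw [kil_val]
          congr 1
          rw [List.filter_eq_self]
          intro a ha
          have h1 : a.1 ∉ T := fun h => ct_eq_zero (hTz _ h) a ha rfl
          simpa using h1
        have huk : kil T hT (val (decouple M Y) u) = val (decouple M Y) u := by
          rw [kil_val]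
          congr 1
          rw [List.filter_eq_self]
          intro a ha
          simpa using hT a.1 (huY a ha)
        set y1 := y.filter (fun a => a.1 ∉ T) with hy1
        have hyk : val (decouple M Y) y1 = val (decouple M Y) y := by
          have h1 := congrArg (kil T hT) hrest'
          rw [map_mul, map_mul, hzk, huk, map_one, kil_val, ← hrest'] at h1
          have h2 := mul_right_cancel (mul_left_cancel h1)
          rw [← h2]
          congr 1
          rw [hy1]
          apply List.filter_congr
          intro a _
          exact decide_eq_decide.2 Iff.rfl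
        have hcl : ∀ x, x ∉ Y → ct x y1 ≤ 1 ∧ ∀ a ∈ y1, a.1 = x → Odd a.2 := by
          intro x hx
          constructor
          · by_cases hxT : x ∈ T
            · have h1 : ct x y1 = 0 := by
                rw [ct, List.count_eq_zero]
                intro h
                obtain ⟨a, ha, hax⟩ := List.mem_map.1 h
                rw [hy1, List.mem_filter] at ha
                have h2 : a.1 ∉ T := by simpa using ha.2
                exact h2 (hax ▸ hxT)
              omega
            · have h1 : ct x y1 ≤ ct x y :=
                List.Sublist.count_le _ (List.Sublist.map _ List.filter_sublist)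
              have h2 : ¬ 2 ≤ ct x y := fun h => hxT ⟨hx, h⟩
              omega
          · intro a ha hax
            refine (hc x hx).2 a ?_ hax
            have h1 : a ∈ y := (List.mem_filter.1 ha).1
            simp [h1]
        have hyL' : val (decouple M Y) y ∈ P (decouple M Y) {x | x ≠ b' ∧ M x b' = 2} := by
          rw [← hyk]
          refine mem_dec _ y1 rfl hcl _ ?_
          rw [← dq_val (Y := Y) y1, hyk, dq_val]
          exact hyL
        have hcomm : g (decouple M Y) b' ^ k * val (decouple M Y) y =
            val (decouple M Y) y * g (decouple M Y) b' ^ k := by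
          apply comm_P
          refine P_mono ?_ hyL'
          rintro x ⟨hx1, hx2⟩
          exact ⟨hx1, dec_two hx2⟩
        rw [val_append, val_cons, val_append, val_cons]
        show val (decouple M Y) u * (g (decouple M Y) b' ^ k * (val (decouple M Y) y *
          (g (decouple M Y) b' ^ l * val (decouple M Y) z))) = 1
        have hl : l = -k := by omega
        calc val (decouple M Y) u * (g (decouple M Y) b' ^ k * (val (decouple M Y) y *
              (g (decouple M Y) b' ^ l * val (decouple M Y) z)))
            = val (decouple M Y) u * ((g (decouple M Y) b' ^ k * val (decouple M Y) y) *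
              (g (decouple M Y) b' ^ (-k) * val (decouple M Y) z)) := by rw [hl]; group
          _ = val (decouple M Y) u * ((val (decouple M Y) y * g (decouple M Y) b' ^ k) *
              (g (decouple M Y) b' ^ (-k) * val (decouple M Y) z)) := by rw [hcomm]
          _ = val (decouple M Y) u * (val (decouple M Y) y * val (decouple M Y) z) := by group
          _ = 1 := hrest'
      · -- a single syllable
        exfalso
        have h1 : g M b ^ k ∈ P M {b}ᶜ := by
          have h2 : g M b ^ k = (val M u)⁻¹ * (val M v)⁻¹ := by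
            rw [eq_mul_inv_iff_mul_eq]
            exact eq_inv_of_mul_eq_one_right (by rw [← hw, val_append, val_cons])
          rw [h2]
          exact mul_mem (inv_mem huP) (inv_mem (val_mem fun a ha h => hv ⟨a, ha, h⟩))
        rw [pow_mem h1] at hk
        exact absurd hk (by decide)
    · push Not at hex
      apply P_empty
      refine dY (Set.empty_subset _) (val_mem fun a ha => hex a ha) ?_
      rw [dq_val, hw]
      exact one_mem _

end main

end Pool.Agent.K7.H20.AW
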