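import Pool.Agent.K7.H20.AW.TR
import Pool.Agent.K7.H20.AW.Dec

/-!
# Centralisers of powers of generators and conjugates of powers of generators
-/

set_option autoImplicit false
set_option linter.unusedSectionVars false

namespace Pool.Agent.K7.H20.AW

open Pool.Agent.Helper741 Pool.Agent.K7.H87.FJ6 CoxeterSystem Real

section

variable {B : Type*} [Fintype B] [DecidableEq B] {M : CoxeterMatrix B}

/-- a rank function: `b` is the first and `x` the last element -/
noncomputable def rk (b x s : B) : ℕ :=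
  if s = x then Fintype.card B + 1 else if s = b then 0 else (Fintype.equivFin B s).val + 1

theorem rk_inj {b x s t : B} (h : rk b x s = rk b x t) : s = t := by
  have h1 := (Fintype.equivFin B s).isLt
  have h2 := (Fintype.equivFin B t).isLt
  unfold rk at h
  by_cases h3 : s = x <;> by_cases h4 : t = x
  · rw [h3, h4]
  · rw [if_pos h3, if_neg h4] at h
    split_ifs at h <;> omega
  · rw [if_neg h3, if_pos h4] at h
    split_ifs at h <;> omega
  · rw [if_neg h3, if_neg h4] at h
    by_cases h5 : s = b <;> by_cases h6 : t = b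
    · rw [h5, h6]
    · rw [if_pos h5, if_neg h6] at h
      omega
    · rw [if_neg h5, if_pos h6] at h
      omega
    · rw [if_neg h5, if_neg h6] at h
      apply (Fintype.equivFin B).injective
      apply Fin.ext
      omega

theorem rk_lt_last {b x s : B} (h : s ≠ x) : rk b x s < rk b x x := by
  have h1 := (Fintype.equivFin B s).isLt
  unfold rk
  rw [if_neg h, if_pos rfl]
  split_ifs
  · omega
  · omega

theorem rk_first_lt {b x s : B} (hbx : b ≠ x) (h : s ≠ b) : rk b x b < rk b x s := by
  unfold rk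
  rw [if_neg hbx, if_pos rfl, if_neg h]
  split_ifs
  · omega
  · omega

variable (M) in
/-- the scalars -/
noncomputable def scr (b x : B) (α : B → ℝ) (s t : B) : ℝ :=
  if rk b x s < rk b x t then (if s = b then α t else 1) else kap (M s t) / (if t = b then α s else 1)

theorem scr_mul {b x : B} {α : B → ℝ} (hα : ∀ t, α t ≠ 0) (i j : B) (h : 3 ≤ M i j) :
    scr M b x α i j * scr M b x α j i = kap (M i j) := by
  have hij : i ≠ j := by
    rintro rfl
    rw [M.diagonal] at h
    omega
  have h1 : ∀ i j : B, rk b x i < rk b x j →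
      scr M b x α i j * scr M b x α j i = kap (M j i) := by
    intro i j hlt
    rw [scr, scr, if_pos hlt, if_neg (show ¬ rk b x j < rk b x i by omega)]
    apply mul_div_cancel₀
    split_ifs
    · exact hα j
    · exact one_ne_zero
  rcases lt_trichotomy (rk b x i) (rk b x j) with h2 | h2 | h2
  · rw [h1 i j h2, M.symmetric]
  · exact absurd (rk_inj h2) hij
  · rw [mul_comm, h1 j i h2]

theorem scr_ne {b x : B} {α : B → ℝ} (hα : ∀ t, α t ≠ 0) {i j : B} (hij : i ≠ j)
    (h : M i j ≠ 2) : scr M b x α i j ≠ 0 := by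
  have h1 : M i j ≠ 1 := M.off_diagonal i j hij
  unfold scr
  split_ifs
  · exact hα j
  · exact one_ne_zero
  · exact div_ne_zero (kap_ne (by omega)) (hα i)
  · exact div_ne_zero (kap_ne (by omega)) one_ne_zero

theorem comm_of_comm {A : Type*} [Ring A] [Algebra ℝ A] {R T : A} {k : ℝ} (hk : k ≠ 0)
    (h : (1 + k • R) * T = T * (1 + k • R)) : R * T = T * R := by
  rw [add_mul, mul_add, one_mul, mul_one, smul_mul_assoc, mul_smul_comm] at h
  exact smul_right_injective A hk (add_left_cancel h)

variable {Y : Finset B}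

theorem Yo_sc {sc : B → B → ℝ} {s t : B} (hst : s ≠ t) (h2 : M s t ≠ 2) (hY : ¬ (s ∈ Y ∧ t ∈ Y)) :
    Yo M Y sc s t = sc s t • 1 := by
  rw [Yo, if_neg, if_neg hY]
  rintro (h | h)
  · exact hst h
  · exact h2 h

/-- the centraliser of a power of a generator outside `Y` in the subgroup of `Y` -/
theorem c1 (hY : ∀ s ∈ Y, ∀ t ∈ Y, s ≠ t → M s t = 2 ∨ M s t = 0) {x : B} (hx : x ∉ Y)
    {y : List (B × ℤ)} (hy : ∀ p ∈ y, p.1 ∈ Y) (hR : Rd M y) {k : ℤ} (hk : k ≠ 0)
    (h : g M x ^ k * val M y = val M y * g M x ^ k) : val (ra M) y ∈ lk M x := by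
  by_cases hall : ∀ p ∈ y, M p.1 x = 2
  · exact val_mem fun p hp => ⟨fun (h' : p.1 = x) => hx (h' ▸ hy p hp), hall p hp⟩
  push Not at hall
  obtain ⟨⟨c, e⟩, hp, hc2⟩ := hall
  have hcY : c ∈ Y := hy (c, e) hp
  have hcx : c ≠ x := fun h' => hx (h' ▸ hcY)
  have hcx2 : M c x ≠ 2 := hc2
  have hα : ∀ t : B, (fun _ : B => (1 : ℝ)) t ≠ 0 := fun _ => one_ne_zero
  obtain ⟨ρ, hρ⟩ := rep0 (sc := scr M x x (fun _ => 1)) hY (scr_mul hα)
  set β : B → ℝ := fun s => if M s x = 2 then 0 else 1 with hβd
  have hβ : ∀ s ∈ Y, β s = if M s x = 2 then 0 else scr M x x (fun _ => 1) s x := by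
    intro s hs
    have hsx : s ≠ x := fun h' => hx (h' ▸ hs)
    rw [hβd, scr, if_pos (rk_lt_last hsx), if_neg hsx]
  obtain ⟨_, _, h3⟩ := col hx hβ hρ hy
  have h4 := congrArg (fun z => ((ρ z : (Module.End ℝ (B → List B → ℝ))ˣ) :
    Module.End ℝ (B → List B → ℝ))) h
  simp only [map_mul, Units.val_mul, hρ] at h4
  have h5 := comm_of_comm (by exact_mod_cast hk) h4
  have h6 := congrArg (fun T : Module.End ℝ (B → List B → ℝ) => T (Pi.single c de)) h5
  simp only [Module.End.mul_apply] at h6
  rw [Ro_single, Ro_apply, Yo_sc hcx.symm (by rw [M.symmetric]; exact hcx2) (fun h' => hx h'.1)] at h6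
  rw [LinearMap.smul_apply, Module.End.one_apply, Pi.single_smul, map_smul] at h6
  have h7 : ∀ a m, NN M β y a m = 0 := by
    intro a m
    by_cases ha : a ∈ Y
    · have hax : a ≠ x := fun h' => hx (h' ▸ ha)
      have h8 := congrFun (congrFun h6 a) m
      rw [Pi.single_eq_of_ne hax, Pi.smul_apply, Pi.smul_apply, h3 a ha m] at h8
      have h9 : (0 : ℝ) = scr M x x (fun _ => 1) x c * NN M β y a m := h8
      exact (mul_eq_zero.1 h9.symm).resolve_left
        (scr_ne hα hcx.symm (by rw [M.symmetric]; exact hcx2))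
    · exact NN_not (fun p hp (h' : p.1 = a) => ha (h' ▸ hy p hp)) m
  obtain ⟨p, hp, q, hq, e1⟩ := mp (M := M) (β := β) (Q := {u | u ≠ x ∧ M u x = 2}) (fun c hc => by
    by_cases h8 : M c x = 2
    · refine ⟨?_, h8⟩
      rintro rfl
      rw [M.diagonal] at h8
      omega
    · rw [hβd] at hc
      simp [h8] at hc) y hR ∅ (fun a _ m => h7 a m)
  rw [e1, P_empty hp, one_mul]
  exact hq

theorem coord {sc : B → B → ℝ} {ρ : Art M →* (Module.End ℝ (B → List B → ℝ))ˣ}
    (hρ : ∀ (b : B) (k : ℤ), ((ρ (g M b ^ k) : (Module.End ℝ (B → List B → ℝ))ˣ) :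
      Module.End ℝ (B → List B → ℝ)) = 1 + (k : ℝ) • Ro M Y sc b) {x : B} {y : List (B × ℤ)}
    (hy : ∀ p ∈ y, p.1 ≠ x) (v : B → List B → ℝ) :
    ((ρ (val M y) : (Module.End ℝ (B → List B → ℝ))ˣ) : Module.End ℝ (B → List B → ℝ)) v x =
      v x := by
  induction y with
  | nil => rw [val_nil, map_one, Units.val_one, Module.End.one_apply]
  | cons p y ih =>
    rw [val_cons, map_mul, Units.val_mul, hρ, Module.End.mul_apply, LinearMap.add_apply,
      LinearMap.smul_apply, Ro_apply, Module.End.one_apply, Pi.add_apply, Pi.smul_apply,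
      Pi.single_eq_of_ne (show x ≠ p.1 from (hy p (by simp)).symm), smul_zero, add_zero]
    exact ih fun q hq => hy q (by simp [hq])

/-- powers of a generator outside `Y` and of a conjugate of another one -/
theorem c2 (hY : ∀ s ∈ Y, ∀ t ∈ Y, s ≠ t → M s t = 2 ∨ M s t = 0) {b x : B} (hb : b ∉ Y)
    (hx : x ∉ Y) (hbx : b ≠ x)
    {y : List (B × ℤ)} (hy : ∀ p ∈ y, p.1 ∈ Y) (hR : Rd M y) {k e : ℤ} (hk : k ≠ 0) (he : e ≠ 0)
    (h : g M b ^ k * (val M y * g M x ^ e * (val M y)⁻¹) =
      (val M y * g M x ^ e * (val M y)⁻¹) * g M b ^ k) :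
    M x b = 2 ∧ ∃ p ∈ lk M b, ∃ q ∈ lk M x, val (ra M) y = p * q := by
  by_cases hall : M x b = 2 ∧ ∀ p ∈ y, M p.1 x = 2
  · exact ⟨hall.1, 1, one_mem _, val (ra M) y,
      val_mem fun p hp => ⟨fun (h' : p.1 = x) => hx (h' ▸ hy p hp), hall.2 p hp⟩,
      (one_mul _).symm⟩
  obtain ⟨c, hcx, hc2⟩ : ∃ c, c ≠ x ∧ M x c ≠ 2 := by
    by_cases h1 : M x b = 2
    · push Not at hall
      obtain ⟨⟨c, f⟩, hp, hc2⟩ := hall h1
      exact ⟨c, fun h' => hx (h' ▸ hy (c, f) hp), by rw [M.symmetric]; exact hc2⟩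
    · exact ⟨b, hbx, h1⟩
  set β : B → ℝ := fun s => if M s x = 2 then 0 else 1 with hβd
  have key : ∀ α : B → ℝ, (∀ t, α t ≠ 0) → ∀ m : List B,
      (if M b x = 2 then 0 else α x) * de m +
        ∑ a ∈ Y, (if M b a = 2 then 0 else α a) * NN M β y a m = 0 := by
    intro α hα m
    obtain ⟨ρ, hρ⟩ := rep0 (sc := scr M b x α) hY (scr_mul hα)
    have hβ : ∀ s ∈ Y, β s = if M s x = 2 then 0 else scr M b x α s x := by
      intro s hs
      have hsx : s ≠ x := fun h' => hx (h' ▸ hs)
      have hsb : s ≠ b := fun h' => hb (h' ▸ hs)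
      rw [hβd, scr, if_pos (rk_lt_last hsx), if_neg hsb]
    obtain ⟨i1, i2, i3⟩ := col hx hβ hρ hy
    have h4 := congrArg (fun z => ((ρ z : (Module.End ℝ (B → List B → ℝ))ˣ) :
      Module.End ℝ (B → List B → ℝ))) h
    simp only [map_mul, Units.val_mul, hρ, map_inv] at h4
    set T := ((ρ (val M y) : (Module.End ℝ (B → List B → ℝ))ˣ) :
      Module.End ℝ (B → List B → ℝ)) with hT
    set T' := (((ρ (val M y))⁻¹ : (Module.End ℝ (B → List B → ℝ))ˣ) :
      Module.End ℝ (B → List B → ℝ)) with hT'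
    have hTT : T * T' = 1 := Units.mul_inv _
    have hTT' : T' * T = 1 := Units.inv_mul _
    set Rx := Ro M Y (scr M b x α) x with hRx
    set Rb := Ro M Y (scr M b x α) b with hRb
    have h5 : T * (1 + (e : ℝ) • Rx) * T' = 1 + (e : ℝ) • (T * Rx * T') := by
      rw [mul_add, add_mul, mul_one, hTT, mul_smul_comm, smul_mul_assoc]
    rw [h5] at h4
    have h6 := comm_of_comm (by exact_mod_cast hk) h4
    have h7 := comm_of_comm (by exact_mod_cast he) h6.symm
    -- `(T Rx T') Rb = Rb (T Rx T')`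
    have h8 := congrArg (fun S : Module.End ℝ (B → List B → ℝ) => S (T (Pi.single c de))) h7
    simp only [Module.End.mul_apply] at h8
    have h9 : T' (T (Pi.single c de)) = Pi.single c de := by
      rw [← Module.End.mul_apply, hTT', Module.End.one_apply]
    rw [h9, hRx, Ro_single, Yo_sc hcx.symm hc2 (fun h' => hx h'.1)] at h8
    rw [LinearMap.smul_apply, Module.End.one_apply, Pi.single_smul, map_smul, map_smul] at h8
    rw [Ro_apply] at h8
    have hyx : ∀ p ∈ y, p.1 ≠ x := fun p hp (h' : p.1 = x) => hx (h' ▸ hy p hp)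
    have hsc : scr M b x α x c ≠ 0 := scr_ne hα hcx.symm hc2
    set hh := ∑ t, Yo M Y (scr M b x α) x t (T' (Rb (T (Pi.single c de))) t) with hhd
    have h10 : hh = 0 := by
      have e1 := congrFun h8 x
      rw [coord hρ hyx, Pi.single_eq_same, Pi.smul_apply, hRb, Ro_apply,
        Pi.single_eq_of_ne hbx.symm, smul_zero] at e1
      exact e1
    rw [h10, Pi.single_zero, map_zero, hRb, Ro_apply] at h8
    have h11 := (smul_eq_zero.1 h8.symm).resolve_left hsc
    have h12 : ∑ t, Yo M Y (scr M b x α) b t (T (Pi.single x de) t) = 0 := by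
      have e1 := congrFun h11 b
      rw [Pi.single_eq_same] at e1
      exact e1
    have h13 := congrFun h12 m
    rw [Finset.sum_apply] at h13
    have h14 : ∀ t, (Yo M Y (scr M b x α) b t (T (Pi.single x de) t)) m =
        (if t = x then (if M b x = 2 then 0 else α x) * de m else 0) +
          (if t ∈ Y then (if M b t = 2 then 0 else α t) * NN M β y t m else 0) := by
      intro t
      by_cases htx : t = x
      · subst htx
        rw [if_pos rfl, if_neg hx, add_zero, i1]
        by_cases h2 : M b t = 2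
        · rw [if_pos h2, Yo, if_pos (Or.inr h2), zero_mul]
          rfl
        · rw [if_neg h2, Yo_sc hbx h2 (fun h' => hb h'.1), scr,
            if_pos (rk_first_lt hbx hbx.symm), if_pos rfl]
          rfl
      · rw [if_neg htx, zero_add]
        by_cases ht : t ∈ Y
        · have hbt : b ≠ t := fun h' => hb (h' ▸ ht)
          rw [if_pos ht, ← i3 t ht m]
          by_cases h2 : M b t = 2
          · rw [if_pos h2, Yo, if_pos (Or.inr h2), zero_mul]
            rfl
          · rw [if_neg h2, Yo_sc hbt h2 (fun h' => hb h'.1), scr,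
              if_pos (rk_first_lt hbx hbt.symm), if_pos rfl]
            rfl
        · rw [if_neg ht, i2 t ht htx, map_zero]
          rfl
    rw [Finset.sum_congr rfl fun t _ => h14 t, Finset.sum_add_distrib, Finset.sum_ite_eq',
      if_pos (Finset.mem_univ x), Finset.sum_ite_mem, Finset.univ_inter] at h13
    exact h13
  have k1 := key (fun _ => 1) (fun _ => one_ne_zero)
  -- varying the parameter of one generator
  have k2 : ∀ a0, a0 ∉ {u | u ≠ b ∧ M u b = 2} → ∀ m, NN M β y a0 m = 0 := by
    intro a0 ha0 m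
    by_cases haY : a0 ∈ Y
    · have hab : a0 ≠ b := fun h' => hb (h' ▸ haY)
      have hax : x ≠ a0 := fun h' => hx (h' ▸ haY)
      have hab2 : M b a0 ≠ 2 := fun h' => ha0 ⟨hab, by rw [M.symmetric]; exact h'⟩
      have k3 := key (fun t => if t = a0 then 2 else 1) (fun t => by
        show (if t = a0 then (2 : ℝ) else 1) ≠ 0
        split_ifs
        · exact two_ne_zero
        · exact one_ne_zero) m
      have k4 : ∑ a ∈ Y, (if M b a = 2 then 0 else if a = a0 then (2 : ℝ) else 1) * NN M β y a m =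
          ∑ a ∈ Y, (if M b a = 2 then 0 else (1 : ℝ)) * NN M β y a m + NN M β y a0 m := by
        rw [← Finset.add_sum_erase Y _ haY, ← Finset.add_sum_erase Y
          (fun a => (if M b a = 2 then 0 else (1 : ℝ)) * NN M β y a m) haY, if_neg hab2, if_pos rfl]
        have k5 : ∑ a ∈ Y.erase a0, (if M b a = 2 then 0 else if a = a0 then (2 : ℝ) else 1) *
            NN M β y a m = ∑ a ∈ Y.erase a0, (if M b a = 2 then 0 else (1 : ℝ)) * NN M β y a m := by
          apply Finset.sum_congr rfl
          intro a ha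
          rw [if_neg (Finset.ne_of_mem_erase ha)]
        rw [k5, if_neg hab2]
        ring
      have k6 := k1 m
      simp only [if_neg hax] at k3
      rw [k4] at k3
      linarith
    · exact NN_not (fun p hp (h' : p.1 = a0) => haY (h' ▸ hy p hp)) m
  have k3 : M b x = 2 := by
    by_contra h2
    have k4 := key (fun t => if t = x then 2 else 1) (fun t => by
      show (if t = x then (2 : ℝ) else 1) ≠ 0
      split_ifs
      · exact two_ne_zero
      · exact one_ne_zero) []
    have k5 : ∑ a ∈ Y, (if M b a = 2 then 0 else if a = x then (2 : ℝ) else 1) * NN M β y a [] =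
        ∑ a ∈ Y, (if M b a = 2 then 0 else (1 : ℝ)) * NN M β y a [] := by
      apply Finset.sum_congr rfl
      intro a ha
      have hax : a ≠ x := fun h' => hx (h' ▸ ha)
      rw [if_neg hax]
    have k6 := k1 []
    simp only [if_neg h2, if_true, de] at k4 k6
    rw [k5] at k4
    linarith
  refine ⟨by rw [M.symmetric]; exact k3, mp (M := M) (β := β) (fun c hc => ?_) y hR _ k2⟩
  by_cases h8 : M c x = 2
  · refine ⟨?_, h8⟩
    rintro rfl
    rw [M.diagonal] at h8
    omega
  · rw [hβd] at hc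
    simp [h8] at hc

end

end Pool.Agent.K7.H20.AW
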