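import Pool.Agent.K7.H20.AW.RG

/-!
# Three syllables of a generator without labels three
-/

set_option autoImplicit false
set_option linter.unusedSectionVars false

namespace Pool.Agent.K7.H20.AW

open Pool.Agent.Helper741 Pool.Agent.K7.H87.FJ6 CoxeterSystem Real

section cox

variable {B : Type*} [Fintype B] [DecidableEq B] {M : CoxeterMatrix B}
variable {W : Type*} [Group W] (cs : CoxeterSystem M W)

theorem three_of_cc {x b : B} (hx : x ≠ b) (h : cc M x b = 1 / 2) : M x b = 3 := by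
  by_cases h0 : M x b = 0
  · rw [cc_of_zero M h0] at h
    norm_num at h
  · have h2 := two_le_of_ne M hx h0
    have h2' : (2 : ℝ) ≤ (M x b : ℝ) := by exact_mod_cast h2
    have h3 : cos (π / (M x b : ℝ)) = cos (π / 3) := by
      rw [cos_pi_div_three]
      exact h
    have h4 : π / (M x b : ℝ) = π / 3 := by
      apply injOn_cos _ _ h3
      · constructor
        · positivity
        · apply div_le_self pi_pos.le
          linarith
      · constructor
        · positivity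
        · linarith [pi_pos]
    have h5 : (M x b : ℝ) = 3 := by
      have hm : (M x b : ℝ) ≠ 0 := by positivity
      field_simp at h4
      linarith
    exact_mod_cast h5

/-- a coset of the first double coset is fixed only because of a label three -/
theorem label_three {b x : B} (hx : x ≠ b) {w : W} (hw : w ∈ PW cs {b}ᶜ)
    (h : cs.simple b * (w * cs.simple b) = (w * cs.simple b) * cs.simple x) : M x b = 3 := by
  obtain ⟨t, ht⟩ := line cs h
  have h1 : geo cs w⁻¹ (ee b) = t • (ee x + (2 * cc M x b) • ee b) := by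
    have h2 : geo cs (w * cs.simple b)⁻¹ (ee b) = sg M b (geo cs w⁻¹ (ee b)) := by
      rw [_root_.mul_inv_rev, cs.inv_simple, geo_mul_apply, geo_simple]
    rw [h2] at ht
    have h3 := congrArg (sg M b) ht
    rw [sg_sg, map_smul, sg_ee] at h3
    exact h3
  have h4 : t * (2 * cc M x b) = 1 := by
    have h5 := PW_coord cs (inv_mem hw) (ee b) b (fun h => h rfl)
    rw [h1] at h5
    have e1 : ee b b = (1 : ℝ) := by simp [ee]
    have e2 : ee x b = (0 : ℝ) := by simp [ee, Pi.single_apply, hx.symm]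
    simp only [Pi.add_apply, Pi.smul_apply, smul_eq_mul, e1, e2] at h5
    linarith
  have h6 : t * t = 1 := by
    have h7 := bil_geo cs (w * cs.simple b)⁻¹ (ee b) (ee b)
    rw [ht, bil_smul_left, bil_smul_right, bil_ee_left, bil_ee_left, coroot_ee, coroot_ee,
      cc_self, cc_self] at h7
    linarith
  have hc : 0 ≤ cc M x b := by
    by_cases h0 : M x b = 0
    · rw [cc_of_zero M h0]; norm_num
    · have h2 := two_le_of_ne M hx h0
      have h2' : (2 : ℝ) ≤ (M x b : ℝ) := by exact_mod_cast h2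
      apply cos_nonneg_of_mem_Icc
      constructor
      · have : 0 < π / (M x b : ℝ) := by positivity
        linarith [pi_pos]
      · apply div_le_div_of_nonneg_left pi_pos.le (by norm_num) h2'
  apply three_of_cc hx
  rcases mul_self_eq_one_iff.1 h6 with rfl | rfl
  · linarith
  · exfalso
    nlinarith

end cox

section facts

variable {B : Type*} [Fintype B] [DecidableEq B] {M : CoxeterMatrix B}

/-- three syllables, the last exponent even -/
theorem three_even {b : B} (h3 : ∀ x, M x b ≠ 3) {a c d : ℤ} {g1 g2 h : Art M}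
    (hg1 : g1 ∈ P M {b}ᶜ) (hg2 : g2 ∈ P M {b}ᶜ) (hh : h ∈ P M {b}ᶜ) (hd : Even d)
    (e : g M b ^ a * g1 * g M b ^ c * g2 * g M b ^ d = h) :
    (Even a ∧ Even c ∧ g1 * g2 = h) ∨ (Odd a ∧ Odd c ∧ g1 ∈ P M {x | x ≠ b ∧ M x b = 2}) := by
  let cs := M.toCoxeterSystem
  let ι : {x : B // x ≠ b} → B := Subtype.val
  have hι : Function.Injective ι := Subtype.val_injective
  have hr : Set.range ι = {b}ᶜ := by
    ext x
    simp [ι]
  have hg1' := hg1
  rw [← hr] at hg1'
  obtain ⟨y1, hy1⟩ := P_range (hι := hι) hg1'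
  have hg2' := hg2
  rw [← hr] at hg2'
  obtain ⟨y2, hy2⟩ := P_range (hι := hι) hg2'
  have hh' := hh
  rw [← hr] at hh'
  obtain ⟨h', hh''⟩ := P_range (hι := hι) hh'
  have h0 : ¬ ∃ x, cs.simple b * 1 = 1 * cs.simple (ι x) := by
    rintro ⟨x, hx⟩
    rw [mul_one, one_mul] at hx
    exact x.2 (simple_injective cs hx).symm
  let p1 : {v : M.Group // Mn cs ι v} := ⟨1, Mn_one cs ι⟩
  let pb : {v : M.Group // Mn cs ι v} := ⟨cs.simple b * 1, Mn_move cs ι (Mn_one cs ι) h0⟩
  have a1 : ∀ a, ac cs ι hι (g M b) (a, p1) = (a, pb) := fun a => ac_neg h0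
  have a2 : ∀ a, ac cs ι hι (g M b) (a, pb) = (a, p1) := by
    intro a
    rw [ac_neg (v := pb) (back cs ι h0)]
    refine Prod.ext rfl (Subtype.ext ?_)
    show cs.simple b * (cs.simple b * 1) = 1
    rw [mul_one, cs.simple_mul_simple_self]
  have hbW : cs.simple b ∉ PW cs {b}ᶜ := fun h => mem_of_simple_mem cs h rfl
  have hne : p1 ≠ pb := by
    intro h
    have h1 : (1 : M.Group) = cs.simple b * 1 := congrArg Subtype.val h
    rw [mul_one] at h1
    exact hbW (by rw [← h1]; exact one_mem _)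
  let V' : Set M.Group := {v | ∃ w ∈ PW cs {b}ᶜ, v = w * cs.simple b}
  -- the cosets of the first double coset
  have hT : ∀ y ∈ P M ({b}ᶜ : Set B), Tk cs ι hι {x | M (ι x) b = 2} V' y := by
    intro y hy
    refine track ?_ ?_ hy
    · rintro d hd v ⟨w, hw, rfl⟩
      exact ⟨cs.simple d * w, mul_mem (PW_mem cs hd) hw, (mul_assoc _ _ _).symm⟩
    · rintro d hd v ⟨w, hw, rfl⟩ x hx
      refine comm_of_mem cs (V := {b}ᶜ) (b := b) (x := ι x) (fun h => h rfl) x.2 ?_
      have hb := cs.simple_mul_simple_self b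
      have h3 : cs.simple b * cs.simple (ι x) * cs.simple b = w⁻¹ * cs.simple d * w := by
        calc cs.simple b * cs.simple (ι x) * cs.simple b
            = w⁻¹ * ((w * cs.simple b) * cs.simple (ι x)) * cs.simple b := by group
          _ = w⁻¹ * (cs.simple d * (w * cs.simple b)) * cs.simple b := by rw [hx]
          _ = w⁻¹ * cs.simple d * w * (cs.simple b * cs.simple b) := by group
          _ = w⁻¹ * cs.simple d * w := by rw [hb, mul_one]
      rw [h3]
      exact mul_mem (mul_mem (inv_mem hw) (PW_mem cs hd)) hw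
  have hpb : pb.1 ∈ V' := ⟨1, one_mem _, by
    show cs.simple b * 1 = 1 * cs.simple b
    rw [mul_one, one_mul]⟩
  have hp1 : p1.1 ∉ V' := by
    rintro ⟨w, hw, h1⟩
    apply hbW
    have h2 : cs.simple b = w⁻¹ := by
      rw [eq_inv_iff_mul_eq_one]
      have h5 : w = (cs.simple b)⁻¹ := by
        rw [eq_inv_iff_mul_eq_one]
        exact h1.symm
      rw [h5, mul_inv_cancel]
    rw [h2]
    exact inv_mem hw
  -- the generator `b` moves the cosets of the first double coset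
  have hmove : ∀ v : {v : M.Group // Mn cs ι v}, v.1 ∈ V' →
      ¬ ∃ x, cs.simple b * v.1 = v.1 * cs.simple (ι x) := by
    rintro v ⟨w, hw, hv⟩ ⟨x, hx⟩
    rw [hv] at hx
    exact h3 (ι x) (label_three cs x.2 hw hx)
  have hsw : ∀ (a : _) (v : {v : M.Group // Mn cs ι v}) (hv : v.1 ∈ V') (k : ℤ),
      (Even k → ((ac cs ι hι (g M b)) ^ k) (a, v) = (a, v)) ∧
      (Odd k → (((ac cs ι hι (g M b)) ^ k) (a, v)).2.1 = cs.simple b * v.1) := by
    intro a v hv k
    have e1 := ac_neg (hι := hι) (a := a) (hmove v hv)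
    have e2 : ac cs ι hι (g M b) (a, ⟨cs.simple b * v.1, Mn_move cs ι v.2 (hmove v hv)⟩) =
        (a, v) := by
      rw [ac_neg (v := ⟨cs.simple b * v.1, Mn_move cs ι v.2 (hmove v hv)⟩)
        (back cs ι (hmove v hv))]
      refine Prod.ext rfl (Subtype.ext ?_)
      show cs.simple b * (cs.simple b * v.1) = v.1
      rw [← mul_assoc, cs.simple_mul_simple_self, one_mul]
    have e3 := zpow_swap _ e1 e2 k
    exact ⟨e3.1, fun hk => by rw [e3.2 hk]⟩
  have key : ∀ ω, ((ac cs ι hι (g M b)) ^ a) (ac cs ι hι g1 (((ac cs ι hι (g M b)) ^ c)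
      (ac cs ι hι g2 (((ac cs ι hι (g M b)) ^ d) ω)))) = ac cs ι hι h ω := by
    intro ω
    rw [← e, map_mul, map_mul, map_mul, map_mul, map_zpow, map_zpow, map_zpow]
    rfl
  have k1 := key (1, p1)
  rw [(zpow_swap _ (a1 1) (a2 1) d).1 hd, ← hy2, ac_inc, ← hh'', ac_inc, mul_one, mul_one] at k1
  rcases Int.even_or_odd c with hc | hc
  · have k2 : ((ac cs ι hι (g M b)) ^ a) (ac cs ι hι g1 (((ac cs ι hι (g M b)) ^ c)
      (y2, p1))) = (h', p1) := k1
    rw [(zpow_swap _ (a1 y2) (a2 y2) c).1 hc, ← hy1, ac_inc] at k2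
    have k3 : ((ac cs ι hι (g M b)) ^ a) (y1 * y2, p1) = (h', p1) := k2
    left
    rcases Int.even_or_odd a with ha | ha
    · refine ⟨ha, hc, ?_⟩
      rw [(zpow_swap _ (a1 (y1 * y2)) (a2 (y1 * y2)) a).1 ha] at k3
      have k4 : y1 * y2 = h' := congrArg Prod.fst k3
      rw [← hy1, ← hy2, ← map_mul, k4, hh'']
    · exfalso
      rw [(zpow_swap _ (a1 (y1 * y2)) (a2 (y1 * y2)) a).2 ha] at k3
      exact hne (congrArg Prod.snd k3).symm
  · right
    have k2 : ((ac cs ι hι (g M b)) ^ a) (ac cs ι hι g1 (((ac cs ι hι (g M b)) ^ c)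
      (y2, p1))) = (h', p1) := k1
    rw [(zpow_swap _ (a1 y2) (a2 y2) c).2 hc] at k2
    obtain ⟨c1, _, v1, hv1, e1⟩ := hT g1 hg1 y2 pb hpb
    rw [e1] at k2
    rcases Int.even_or_odd a with ha | ha
    · exfalso
      rw [(hsw _ v1 hv1 a).1 ha] at k2
      apply hp1
      rw [← congrArg (fun p => p.2.1) k2]
      exact hv1
    · refine ⟨ha, hc, ?_⟩
      obtain ⟨c2, hc2, v2, hv2, e2⟩ := hT g2⁻¹ (inv_mem hg2) 1 pb hpb
      rw [map_inv, Equiv.Perm.inv_eq_iff_eq] at e2
      obtain ⟨c3, hc3, v3, hv3, e3⟩ := hT h hh (c2 * 1) v2 hv2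
      have k4 := key (c2 * 1, v2)
      rw [(hsw _ v2 hv2 d).1 hd, ← e2, (zpow_swap _ (a2 1) (a1 1) c).2 hc, ← hy1, ac_inc, e3] at k4
      have k5 : ((ac cs ι hι (g M b)) ^ a) (y1 * 1, p1) = (c3 * (c2 * 1), v3) := k4
      rw [(zpow_swap _ (a1 (y1 * 1)) (a2 (y1 * 1)) a).2 ha] at k5
      have k6 : y1 * 1 = c3 * (c2 * 1) := congrArg Prod.fst k5
      rw [mul_one, mul_one] at k6
      rw [← hy1, k6]
      refine P_mono ?_ (inc_mem (mul_mem hc3 hc2))
      rintro _ ⟨x, hx, rfl⟩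
      exact ⟨x.2, hx⟩

/-- three odd exponents are impossible -/
theorem three_odd {b : B} (h3 : ∀ x, M x b ≠ 3) {a c d : ℤ} {g1 g2 h : Art M}
    (hg1 : g1 ∈ P M {b}ᶜ) (hg2 : g2 ∈ P M {b}ᶜ) (hh : h ∈ P M {b}ᶜ) (ha : Odd a) (hc : Odd c)
    (hd : Odd d) (e : g M b ^ a * g1 * g M b ^ c * g2 * g M b ^ d = h) : False := by
  let cs := M.toCoxeterSystem
  let ι : {x : B // x ≠ b} → B := Subtype.val
  have hι : Function.Injective ι := Subtype.val_injective
  have hr : Set.range ι = {b}ᶜ := by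
    ext x
    simp [ι]
  have hg1' := hg1
  rw [← hr] at hg1'
  obtain ⟨y1, hy1⟩ := P_range (hι := hι) hg1'
  have hg2' := hg2
  rw [← hr] at hg2'
  obtain ⟨y2, hy2⟩ := P_range (hι := hι) hg2'
  have hh' := hh
  rw [← hr] at hh'
  obtain ⟨h', hh''⟩ := P_range (hι := hι) hh'
  have h0 : ¬ ∃ x, cs.simple b * 1 = 1 * cs.simple (ι x) := by
    rintro ⟨x, hx⟩
    rw [mul_one, one_mul] at hx
    exact x.2 (simple_injective cs hx).symm
  let p1 : {v : M.Group // Mn cs ι v} := ⟨1, Mn_one cs ι⟩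
  let pb : {v : M.Group // Mn cs ι v} := ⟨cs.simple b * 1, Mn_move cs ι (Mn_one cs ι) h0⟩
  have a1 : ∀ a, ac cs ι hι (g M b) (a, p1) = (a, pb) := fun a => ac_neg h0
  have a2 : ∀ a, ac cs ι hι (g M b) (a, pb) = (a, p1) := by
    intro a
    rw [ac_neg (v := pb) (back cs ι h0)]
    refine Prod.ext rfl (Subtype.ext ?_)
    show cs.simple b * (cs.simple b * 1) = 1
    rw [mul_one, cs.simple_mul_simple_self]
  have hbW : cs.simple b ∉ PW cs {b}ᶜ := fun h => mem_of_simple_mem cs h rfl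
  have hne : p1 ≠ pb := by
    intro h
    have h1 : (1 : M.Group) = cs.simple b * 1 := congrArg Subtype.val h
    rw [mul_one] at h1
    exact hbW (by rw [← h1]; exact one_mem _)
  let V' : Set M.Group := {v | ∃ w ∈ PW cs {b}ᶜ, v = w * cs.simple b}
  -- the cosets of the first double coset
  have hT : ∀ y ∈ P M ({b}ᶜ : Set B), Tk cs ι hι {x | M (ι x) b = 2} V' y := by
    intro y hy
    refine track ?_ ?_ hy
    · rintro d hd v ⟨w, hw, rfl⟩
      exact ⟨cs.simple d * w, mul_mem (PW_mem cs hd) hw, (mul_assoc _ _ _).symm⟩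
    · rintro d hd v ⟨w, hw, rfl⟩ x hx
      refine comm_of_mem cs (V := {b}ᶜ) (b := b) (x := ι x) (fun h => h rfl) x.2 ?_
      have hb := cs.simple_mul_simple_self b
      have h3 : cs.simple b * cs.simple (ι x) * cs.simple b = w⁻¹ * cs.simple d * w := by
        calc cs.simple b * cs.simple (ι x) * cs.simple b
            = w⁻¹ * ((w * cs.simple b) * cs.simple (ι x)) * cs.simple b := by group
          _ = w⁻¹ * (cs.simple d * (w * cs.simple b)) * cs.simple b := by rw [hx]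
          _ = w⁻¹ * cs.simple d * w * (cs.simple b * cs.simple b) := by group
          _ = w⁻¹ * cs.simple d * w := by rw [hb, mul_one]
      rw [h3]
      exact mul_mem (mul_mem (inv_mem hw) (PW_mem cs hd)) hw
  have hpb : pb.1 ∈ V' := ⟨1, one_mem _, by
    show cs.simple b * 1 = 1 * cs.simple b
    rw [mul_one, one_mul]⟩
  have hp1 : p1.1 ∉ V' := by
    rintro ⟨w, hw, h1⟩
    apply hbW
    have h2 : cs.simple b = w⁻¹ := by
      rw [eq_inv_iff_mul_eq_one]
      have h5 : w = (cs.simple b)⁻¹ := by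
        rw [eq_inv_iff_mul_eq_one]
        exact h1.symm
      rw [h5, mul_inv_cancel]
    rw [h2]
    exact inv_mem hw
  -- the generator `b` moves the cosets of the first double coset
  have hmove : ∀ v : {v : M.Group // Mn cs ι v}, v.1 ∈ V' →
      ¬ ∃ x, cs.simple b * v.1 = v.1 * cs.simple (ι x) := by
    rintro v ⟨w, hw, hv⟩ ⟨x, hx⟩
    rw [hv] at hx
    exact h3 (ι x) (label_three cs x.2 hw hx)
  have hsw : ∀ (a : _) (v : {v : M.Group // Mn cs ι v}) (hv : v.1 ∈ V') (k : ℤ),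
      (Even k → ((ac cs ι hι (g M b)) ^ k) (a, v) = (a, v)) ∧
      (Odd k → (((ac cs ι hι (g M b)) ^ k) (a, v)).2.1 = cs.simple b * v.1) := by
    intro a v hv k
    have e1 := ac_neg (hι := hι) (a := a) (hmove v hv)
    have e2 : ac cs ι hι (g M b) (a, ⟨cs.simple b * v.1, Mn_move cs ι v.2 (hmove v hv)⟩) =
        (a, v) := by
      rw [ac_neg (v := ⟨cs.simple b * v.1, Mn_move cs ι v.2 (hmove v hv)⟩)
        (back cs ι (hmove v hv))]
      refine Prod.ext rfl (Subtype.ext ?_)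
      show cs.simple b * (cs.simple b * v.1) = v.1
      rw [← mul_assoc, cs.simple_mul_simple_self, one_mul]
    have e3 := zpow_swap _ e1 e2 k
    exact ⟨e3.1, fun hk => by rw [e3.2 hk]⟩
  have e' : g1 * g M b ^ c * g2 * g M b ^ d = g M b ^ (-a) * h := by
    rw [← e]
    group
  have k1 : ac cs ι hι g1 (((ac cs ι hι (g M b)) ^ c)
      (ac cs ι hι g2 (((ac cs ι hι (g M b)) ^ d) (1, p1)))) =
      ((ac cs ι hι (g M b)) ^ (-a)) (ac cs ι hι h (1, p1)) := by
    have h1 := congrArg (fun x => ac cs ι hι x (1, p1)) e'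
    simp only [map_mul, map_zpow, Equiv.Perm.mul_apply] at h1
    exact h1
  rw [(zpow_swap _ (a1 1) (a2 1) d).2 hd, ← hh'', ac_inc] at k1
  have k2 : ac cs ι hι g1 (((ac cs ι hι (g M b)) ^ c) (ac cs ι hι g2 (1, pb))) =
      ((ac cs ι hι (g M b)) ^ (-a)) (h' * 1, p1) := k1
  rw [(zpow_swap _ (a1 (h' * 1)) (a2 (h' * 1)) (-a)).2 (by simpa using ha)] at k2
  obtain ⟨c1, _, v1, ⟨w, hw, hv1⟩, e1⟩ := hT g2 hg2 1 pb hpb
  rw [e1] at k2
  have k3 := (hsw (c1 * 1) v1 ⟨w, hw, hv1⟩ c).2 hc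
  have hT2 : Tk cs ι hι Set.univ {v | ∃ u ∈ PW cs {b}ᶜ, v = u * (cs.simple b * v1.1)} g1 := by
    refine track ?_ (fun _ _ _ _ _ _ => trivial) hg1
    rintro d hd v ⟨w, hw, rfl⟩
    exact ⟨cs.simple d * w, mul_mem (PW_mem cs hd) hw, (mul_assoc _ _ _).symm⟩
  obtain ⟨c2, _, v2, ⟨u, hu, hv2⟩, e2⟩ := hT2 (((ac cs ι hι (g M b)) ^ c) (c1 * 1, v1)).1
    (((ac cs ι hι (g M b)) ^ c) (c1 * 1, v1)).2 ⟨1, one_mem _, by rw [k3, one_mul]⟩
  rw [Prod.mk.eta, k2] at e2
  have e3 : cs.simple b * 1 = v2.1 := congrArg (fun p => p.2.1) e2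
  rw [hv2, hv1] at e3
  apply hbW
  have hb := cs.simple_mul_simple_self b
  have e4 : cs.simple b = u⁻¹ * w⁻¹ := by
    rw [mul_one] at e3
    have e5 : u * (cs.simple b * w) = 1 := by
      have e6 : u * (cs.simple b * w) * cs.simple b = cs.simple b := by
        rw [mul_assoc, mul_assoc, ← e3]
      exact mul_eq_right.1 e6
    have e7 : cs.simple b * w = u⁻¹ := (inv_eq_of_mul_eq_one_right e5).symm
    rw [← e7, mul_inv_cancel_right]
  rw [e4]
  exact mul_mem (inv_mem hu) (inv_mem hw)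

/-- three syllables -/
theorem three {b : B} (h3 : ∀ x, M x b ≠ 3) {a c d : ℤ} {g1 g2 g3 : Art M}
    (hg1 : g1 ∈ P M {b}ᶜ) (hg2 : g2 ∈ P M {b}ᶜ) (hg3 : g3 ∈ P M {b}ᶜ)
    (e : g M b ^ a * g1 * g M b ^ c * g2 * g M b ^ d * g3 = 1) :
    (Even a ∧ Even c ∧ Even d ∧ g1 * g2 * g3 = 1) ∨
    g1 ∈ P M {x | x ≠ b ∧ M x b = 2} ∨ g2 ∈ P M {x | x ≠ b ∧ M x b = 2} ∨
    g3 ∈ P M {x | x ≠ b ∧ M x b = 2} := by
  have e1 : g M b ^ a * g1 * g M b ^ c * g2 * g M b ^ d = g3⁻¹ :=
    eq_inv_iff_mul_eq_one.2 e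
  have e2 : g M b ^ d * g3 * g M b ^ a * g1 * g M b ^ c = g2⁻¹ := by
    rw [eq_inv_iff_mul_eq_one]
    calc g M b ^ d * g3 * g M b ^ a * g1 * g M b ^ c * g2
        = g M b ^ d * g3 * (g M b ^ a * g1 * g M b ^ c * g2 * g M b ^ d * g3) *
          (g M b ^ d * g3)⁻¹ := by group
      _ = 1 := by rw [e]; group
  have e3 : g M b ^ c * g2 * g M b ^ d * g3 * g M b ^ a = g1⁻¹ := by
    rw [eq_inv_iff_mul_eq_one]
    calc g M b ^ c * g2 * g M b ^ d * g3 * g M b ^ a * g1
        = (g M b ^ a * g1)⁻¹ * (g M b ^ a * g1 * g M b ^ c * g2 * g M b ^ d * g3) *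
          (g M b ^ a * g1) := by group
      _ = 1 := by rw [e]; group
  rcases Int.even_or_odd d with hd | hd
  · rcases three_even h3 hg1 hg2 (inv_mem hg3) hd e1 with ⟨ha, hc, h⟩ | ⟨_, _, h⟩
    · left
      exact ⟨ha, hc, hd, by rw [h, inv_mul_cancel]⟩
    · exact Or.inr (Or.inl h)
  · rcases Int.even_or_odd c with hc | hc
    · rcases three_even h3 hg3 hg1 (inv_mem hg2) hc e2 with ⟨hd', _, _⟩ | ⟨_, _, h⟩
      · exact absurd hd' (Int.not_even_iff_odd.2 hd)
      · exact Or.inr (Or.inr (Or.inr h))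
    · rcases Int.even_or_odd a with ha | ha
      · rcases three_even h3 hg2 hg3 (inv_mem hg1) ha e3 with ⟨hc', _, _⟩ | ⟨_, _, h⟩
        · exact absurd hc' (Int.not_even_iff_odd.2 hc)
        · exact Or.inr (Or.inr (Or.inl h))
      · exact (three_odd h3 hg1 hg2 (inv_mem hg3) ha hc hd e1).elim

end facts

end Pool.Agent.K7.H20.AW
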