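import Pool.Agent.K7.H20.AW.Flag
import Pool.Agent.K7.H20.AW.Th

/-!
# Centralizers and double cosets of a simple reflection relative to the complementary parabolic subgroup
-/

set_option autoImplicit false
set_option linter.unusedSectionVars false

namespace Pool.Agent.K7.H20.AW

open Pool.Agent.Helper741 Pool.Agent.K7.H87.FJ6 CoxeterSystem Real

section cox

variable {B : Type*} [Fintype B] [DecidableEq B] {M : CoxeterMatrix B}
variable {W : Type*} [Group W] (cs : CoxeterSystem M W)

theorem simple_comm {i j : B} (h : M i j = 2) :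
    cs.simple i * cs.simple j = cs.simple j * cs.simple i := by
  have h1 := alt_comm_of_pow (m := 2) (cs.simple_mul_simple_self i) (cs.simple_mul_simple_self j)
    (by rw [← h]; exact cs.simple_mul_simple_pow i j)
  rwa [alt_two, alt_two] at h1

theorem simple_braid {i j : B} (h : M i j = 3) :
    cs.simple i * cs.simple j * cs.simple i = cs.simple j * cs.simple i * cs.simple j := by
  have h1 := alt_comm_of_pow (m := 3) (cs.simple_mul_simple_self i) (cs.simple_mul_simple_self j)
    (by rw [← h]; exact cs.simple_mul_simple_pow i j)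
  rw [alt_succ, alt_two, alt_succ, alt_two] at h1
  rw [mul_assoc, mul_assoc]
  exact h1

theorem cc_nonneg {i j : B} (h : i ≠ j) : 0 ≤ cc M i j := by
  by_cases h0 : M i j = 0
  · rw [cc_of_zero M h0]; norm_num
  · have h2 := two_le_of_ne M h h0
    have h2' : (2 : ℝ) ≤ (M i j : ℝ) := by exact_mod_cast h2
    apply cos_nonneg_of_mem_Icc
    constructor
    · have : 0 < π / (M i j : ℝ) := by positivity
      linarith [pi_pos]
    · apply div_le_div_of_nonneg_left pi_pos.le (by norm_num) h2'

theorem cent_aux {b : B} : ∀ (n : ℕ) (u : W), cs.length u = n → u ∈ PW cs {b}ᶜ →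
    cs.simple b * u = u * cs.simple b → u ∈ PW cs {x | x ≠ b ∧ M x b = 2} := by
  intro n
  induction n using Nat.strong_induction_on with
  | _ n ih =>
    intro u hn hu hc
    by_cases hw : u = 1
    · rw [hw]
      exact one_mem _
    · obtain ⟨i, hi⟩ : ∃ i, ¬ 0 ≤ geo cs u (ee i) := by
        by_contra hcon
        push Not at hcon
        exact hw (eq_one_of_geo cs u hcon)
      have h1 : geo cs u (ee i) ≤ 0 := (sgn cs u i).resolve_left hi
      have hib : i ≠ b := by
        rintro rfl
        have h2 := PW_coord cs hu (ee i) i (fun h => h rfl)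
        have h3 := h1 i
        rw [h2] at h3
        simp only [ee, Pi.single_eq_same, Pi.zero_apply] at h3
        norm_num at h3
      have hub : geo cs u (ee b) = ee b := by
        have h2 : cs.simple b * u⁻¹ = u⁻¹ * cs.simple b := by
          rw [eq_inv_mul_iff_mul_eq, ← mul_assoc, ← hc, mul_inv_cancel_right]
        obtain ⟨t, ht⟩ := line cs h2
        rw [inv_inv] at ht
        have h3 := PW_coord cs hu (ee b) b (fun h => h rfl)
        rw [ht] at h3
        have h4 : t = 1 := by simpa [ee] using h3
        rw [ht, h4, one_smul]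
      have hi0 : geo cs u (ee i) b = 0 := by
        rw [PW_coord cs hu (ee i) b (fun h => h rfl)]
        simp [ee, Pi.single_apply, hib.symm]
      have hM : M i b = 2 := by
        by_contra hM
        have hcc : 0 < cc M i b := lt_of_le_of_ne (cc_nonneg hib) (Ne.symm (cc_ne_zero hib hM))
        have h2 : geo cs (u * cs.simple i) (ee b) = ee b + (2 * cc M i b) • geo cs u (ee i) := by
          rw [geo_mul_apply, geo_simple, sg_ee, map_add, map_smul, hub, cc_symm M b i]
        have h3 : 0 ≤ geo cs (u * cs.simple i) (ee b) := by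
          refine (sgn cs (u * cs.simple i) b).resolve_right fun h => ?_
          have h4 := h b
          rw [h2] at h4
          simp only [Pi.add_apply, Pi.smul_apply, hi0, smul_zero, add_zero] at h4
          simp only [ee, Pi.single_eq_same, Pi.zero_apply] at h4
          norm_num at h4
        apply geo_ee_ne_zero cs u i
        ext e
        by_cases he : e = b
        · rw [he, hi0]; rfl
        · apply le_antisymm (h1 e)
          have h4 := h3 e
          rw [h2] at h4
          have h5 : ee b e = (0 : ℝ) := by simp [ee, Pi.single_apply, he]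
          simp only [Pi.add_apply, Pi.smul_apply, h5, zero_add, Pi.zero_apply, smul_eq_mul] at h4
          exact nonneg_of_mul_nonneg_right (by linarith) (by linarith : (0:ℝ) < 2 * cc M i b)
      have hlt := (geo_nonpos_iff cs u i).1 h1
      have h4 := ih _ (by omega) (u * cs.simple i) rfl (mul_mem hu (PW_mem cs hib)) (by
        rw [← mul_assoc, hc, mul_assoc, ← simple_comm cs hM, mul_assoc])
      have h5 : u = u * cs.simple i * cs.simple i := by
        rw [mul_assoc, cs.simple_mul_simple_self, mul_one]
      rw [h5]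
      exact mul_mem h4 (PW_mem cs ⟨hib, hM⟩)

theorem cent_W {b : B} {u : W} (hu : u ∈ PW cs {b}ᶜ) (h : cs.simple b * u = u * cs.simple b) :
    u ∈ PW cs {x | x ≠ b ∧ M x b = 2} := cent_aux cs _ u rfl hu h

theorem dc_W {b : B} {u : W} (hu : u ∈ PW cs {b}ᶜ)
    (h : cs.simple b * u * cs.simple b ∈ PW cs {b}ᶜ) : u ∈ PW cs {x | x ≠ b ∧ M x b = 2} := by
  apply cent_W cs hu
  have h0 : 0 ≤ geo cs u (ee b) := by
    refine (sgn cs u b).resolve_right fun h => ?_
    have h4 := h b
    rw [PW_coord cs hu (ee b) b (fun h => h rfl)] at h4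
    simp only [ee, Pi.single_eq_same, Pi.zero_apply] at h4
    norm_num at h4
  have h1 := PW_coord cs h (ee b) b (fun h => h rfl)
  rw [geo_mul_apply, geo_mul_apply, geo_simple, sg_ee_self, map_neg, map_neg] at h1
  have h2 : (sg M b (geo cs u (ee b))) b = -1 := by
    simp only [Pi.neg_apply, ee, Pi.single_eq_same] at h1
    have h3 : -(sg M b (geo cs u (ee b))) b = 1 := h1
    linarith
  have h3 : geo cs (cs.simple b * u) (ee b) ≤ 0 := by
    refine (sgn cs (cs.simple b * u) b).resolve_left fun h => ?_
    have h4 := h b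
    rw [geo_mul_apply, geo_simple, h2] at h4
    simp only [Pi.zero_apply] at h4
    norm_num at h4
  apply trick cs (t := 1)
  rw [one_smul]
  ext e
  by_cases he : e = b
  · rw [he]
    exact PW_coord cs hu (ee b) b (fun h => h rfl)
  · have h5 : ee b e = (0 : ℝ) := by simp [ee, Pi.single_apply, he]
    rw [h5]
    apply le_antisymm _ (h0 e)
    have h6 := h3 e
    rw [geo_mul_apply, geo_simple, sg_apply, Pi.sub_apply, Pi.smul_apply, h5, smul_zero,
      sub_zero] at h6
    exact h6

theorem dbl_eq {L : Set B} {x y : B} {p q p' q' : W} (hp : p ∈ PW cs L) (hq : q ∈ PW cs L)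
    (hp' : p' ∈ PW cs L) (hq' : q' ∈ PW cs L) (hy : y ∉ L)
    (h : p * cs.simple x * q = p' * cs.simple y * q') : y = x := by
  have h1 : cs.simple y = p'⁻¹ * (p * cs.simple x * q) * q'⁻¹ := by
    rw [h]
    group
  have hmono : PW cs L ≤ PW cs (insert x L) :=
    Subgroup.closure_mono (Set.image_mono (Set.subset_insert _ _))
  have h2 : cs.simple y ∈ PW cs (insert x L) := by
    rw [h1]
    exact mul_mem (mul_mem (inv_mem (hmono hp')) (mul_mem (mul_mem (hmono hp)
      (PW_mem cs (Set.mem_insert _ _))) (hmono hq))) (inv_mem (hmono hq'))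
  rcases mem_of_simple_mem cs h2 with h3 | h3
  · exact h3
  · exact absurd h3 hy

theorem PW_mono {V V' : Set B} (h : V ⊆ V') : PW cs V ≤ PW cs V' :=
  Subgroup.closure_mono (Set.image_mono h)

theorem PW_comm {b : B} {u : W} (hu : u ∈ PW cs {x | x ≠ b ∧ M x b = 2}) :
    cs.simple b * u = u * cs.simple b := by
  induction hu using Subgroup.closure_induction with
  | mem x hx =>
    obtain ⟨c, hc, rfl⟩ := hx
    exact (simple_comm cs hc.2).symm
  | one => rw [one_mul, mul_one]
  | mul x y _ _ hx hy => rw [← mul_assoc, hx, mul_assoc, hy, mul_assoc]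
  | inv x _ hx => rw [eq_inv_mul_iff_mul_eq, ← mul_assoc, ← hx, mul_inv_cancel_right]

theorem co_mem {V : Set B} {x : Art M} (hx : x ∈ P M V) : co cs x ∈ PW cs V := by
  induction hx using Subgroup.closure_induction with
  | mem x hx =>
    obtain ⟨c, hc, rfl⟩ := hx
    rw [co_gen]
    exact PW_mem cs hc
  | one => rw [map_one]; exact one_mem _
  | mul x y _ _ hx hy => rw [map_mul]; exact mul_mem hx hy
  | inv x _ hx => rw [map_inv]; exact inv_mem hx

theorem co_odd {b : B} {k : ℤ} (hk : Odd k) : co cs (g M b ^ k) = cs.simple b := by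
  obtain ⟨j, rfl⟩ := hk
  rw [map_zpow, co_gen, zpow_add, zpow_mul, zpow_one]
  have : cs.simple b ^ (2 : ℤ) = 1 := by
    rw [zpow_ofNat, pow_two, cs.simple_mul_simple_self]
  rw [this, one_zpow, one_mul]

end cox

end Pool.Agent.K7.H20.AW
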