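import Pool.Agent.K7.H20.AW.Dec

/-!
# Three occurrences
-/

set_option autoImplicit false
set_option linter.unusedSectionVars false

namespace Pool.Agent.K7.H20.AW

open Pool.Agent.Helper741 Pool.Agent.K7.H87.FJ6 CoxeterSystem

section three

variable {B : Type*} [Fintype B] [DecidableEq B] {M : CoxeterMatrix B}

theorem ct_split {b : B} {w : List (B × ℤ)} (h : 0 < ct b w) :
    ∃ u k v, w = u ++ (b, k) :: v ∧ ct b u = 0 ∧ ct b v + 1 = ct b w := by
  have hex : ∃ c ∈ w, c.1 = b := by
    by_contra hcon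
    push Not at hcon
    have : ct b w = 0 := by
      rw [ct, List.count_eq_zero]
      intro hm
      obtain ⟨a, ha, hab⟩ := List.mem_map.1 hm
      exact hcon a ha hab
    omega
  obtain ⟨u, ⟨b', k⟩, v, rfl, hb, hu⟩ := split_first (fun c : B × ℤ => c.1 = b) w hex
  have hb' : b' = b := hb
  subst hb'
  have h0 : ct b' u = 0 := by
    rw [ct, List.count_eq_zero]
    intro hm
    obtain ⟨a, ha, hab⟩ := List.mem_map.1 hm
    exact hu a ha hab
  refine ⟨u, k, v, rfl, h0, ?_⟩
  rw [ct_append, ct_cons, if_pos rfl, h0, zero_add]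

/-- exactly three odd syllables of a generator without labels three -/
theorem no_three {b : B} (h3 : ∀ x, M x b ≠ 3) {w : List (B × ℤ)} (hc : ct b w = 3)
    (ho : ∀ a ∈ w, a.1 = b → Odd a.2) : val M w ≠ 1 := by
  intro hw
  obtain ⟨u, k, v, rfl, hu, hv⟩ := ct_split (b := b) (w := w) (by omega)
  obtain ⟨u1, l, v1, rfl, hu1, hv1⟩ := ct_split (b := b) (w := v) (by omega)
  obtain ⟨u2, m, v2, rfl, hu2, hv2⟩ := ct_split (b := b) (w := v1) (by omega)
  have hv20 : ct b v2 = 0 := by omega
  have m0 : val M u ∈ P M {b}ᶜ := val_mem (ct_eq_zero hu)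
  have m1 : val M u1 ∈ P M {b}ᶜ := val_mem (ct_eq_zero hu1)
  have m2 : val M u2 ∈ P M {b}ᶜ := val_mem (ct_eq_zero hu2)
  have m3 : val M v2 ∈ P M {b}ᶜ := val_mem (ct_eq_zero hv20)
  have e : g M b ^ k * val M u1 * g M b ^ l * val M u2 * g M b ^ m = (val M v2 * val M u)⁻¹ := by
    rw [eq_inv_iff_mul_eq_one]
    have h1 := congrArg (fun t => (val M u)⁻¹ * t * val M u) hw
    simp only [val_append, val_cons] at h1
    rw [mul_one, inv_mul_cancel] at h1
    rw [← h1]
    group
  exact three_odd h3 m1 m2 (inv_mem (mul_mem m3 m0)) (ho (b, k) (by simp) rfl)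
    (ho (b, l) (by simp) rfl) (ho (b, m) (by simp) rfl) e

/-- the same with labels among the generators of the word -/
theorem no_three' {b : B} {w : List (B × ℤ)} (h3 : ∀ x, (∃ a ∈ w, a.1 = x) → M x b ≠ 3)
    (hc : ct b w = 3) (ho : ∀ a ∈ w, a.1 = b → Odd a.2) : val M w ≠ 1 := by
  classical
  intro hw
  let A : Type _ := {b : B // ∃ a ∈ w, a.1 = b}
  have : Fintype A := Fintype.ofFinite A
  let ι : A → B := Subtype.val
  have hι : Function.Injective ι := Subtype.val_injective
  let w' : List (A × ℤ) := w.attach.map fun a => (⟨a.1.1, ⟨a.1, a.2, rfl⟩⟩, a.1.2)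
  have hw' : w'.map (fun p => (ι p.1, p.2)) = w := by
    simp only [w', List.map_map]
    conv_rhs => rw [← List.attach_map_subtype_val w]
    rfl
  have hval : ∀ u : List (A × ℤ), inc M (z0 B) ι hι
      ((u.map fun p => Sh.gen (pull M ι hι) (z0 B ∘ ι) p.1 ^ p.2).prod) =
      val M (u.map fun p => (ι p.1, p.2)) := by
    intro u
    induction u with
    | nil => rw [List.map_nil, List.prod_nil, map_one]; rfl
    | cons p u ih =>
      rw [List.map_cons, List.prod_cons, map_mul, ih, map_zpow, inc_gen, List.map_cons, val_cons]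
  have h1 : val (pull M ι hι) w' = 1 := by
    apply inc_injective (adm0 M) ι hι
    rw [map_one]
    refine (hval w').trans ?_
    rw [hw', hw]
  have hct : ∀ b : A, ct b w' = ct (ι b) w := by
    intro b
    have e : ∀ u : List (A × ℤ), (u.map (fun p => (ι p.1, p.2))).map Prod.fst =
        (u.map Prod.fst).map ι := by
      intro u
      rw [List.map_map, List.map_map]; rfl
    have e3 : ct (ι b) w = ((w'.map (fun p => (ι p.1, p.2))).map Prod.fst).count (ι b) :=
      (congrArg (fun u : List (B × ℤ) => (u.map Prod.fst).count (ι b)) hw').symm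
    rw [e3, e, List.count_map_of_injective _ _ hι]
    have e4 : ∀ (i1 i2 : BEq A) (_ : @LawfulBEq A i1) (_ : @LawfulBEq A i2) (l : List A),
        @List.count A i1 b l = @List.count A i2 b l := by
      intro i1 i2 _ _ l
      rw [lawful_beq_subsingleton i1 i2]
    exact e4 instBEqOfDecidableEq Subtype.instBEq inferInstance inferInstance _
  have hb : ∃ a ∈ w, a.1 = b := by
    by_contra hcon
    push Not at hcon
    have : ct b w = 0 := by
      rw [ct, List.count_eq_zero]
      intro hm
      obtain ⟨a, ha, hab⟩ := List.mem_map.1 hm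
      exact hcon a ha hab
    omega
  refine no_three (M := pull M ι hι) (b := ⟨b, hb⟩) (fun x => h3 x.1 x.2) (w := w')
    (by rw [hct]; exact hc) ?_ h1
  intro a ha hab
  have h2 : (ι a.1, a.2) ∈ w := by
    rw [← hw']
    exact List.mem_map.2 ⟨a, ha, rfl⟩
  exact ho _ h2 (congrArg Subtype.val hab)

theorem dec_thm {Y : Finset B} {w : List (B × ℤ)}
    (h : ∀ b, b ∉ Y → (∀ a ∈ w, a.1 = b → Odd a.2) ∧
      (ct b w ≤ 2 ∨ (ct b w ≤ 3 ∧ ∀ x, (∃ a ∈ w, a.1 = x) → M x b ≠ 3))) :
    val M w = 1 ↔ val (decouple M Y) w = 1 := by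
  constructor
  · intro hw
    refine dec_main w.length w rfl (fun b hb => ⟨?_, (h b hb).1⟩) hw
    rcases (h b hb).2 with h2 | ⟨h2, h3⟩
    · exact h2
    · by_contra hcon
      exact no_three' h3 (by omega) (h b hb).1 hw
  · intro hw
    rw [← dq_val (Y := Y), hw, map_one]

end three

end Pool.Agent.K7.H20.AW
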