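import Pool.Agent.K7.H20.AW.Defs

/-!
# Standard generators and standard parabolic subgroups of an Artin group

Definitions used in the statement of `MP_a1ec0a_al.ThreeOccurrences`.
-/

set_option autoImplicit false

namespace Pool.Agent.K7.H20.AW

/-- The standard generator `s` of the Artin group. -/
def gen {S : Type*} (M : CoxeterMatrix S) (s : S) : ArtinGroup M := PresentedGroup.of s

/-- The standard parabolic subgroup generated by the standard generators in `V`. -/
def parabolic {S : Type*} (M : CoxeterMatrix S) (V : Set S) : Subgroup (ArtinGroup M) :=
  Subgroup.closure (gen M '' V)

end Pool.Agent.K7.H20.AW
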