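import Pool.Agent.K7.H20.AW.Tr

/-!
# Powers of two generators with a label at least three do not commute
-/

set_option autoImplicit false
set_option linter.unusedSectionVars false

namespace Pool.Agent.K7.H20.AW

open Pool.Agent.Helper741 Pool.Agent.K7.H87.FJ6 CoxeterSystem Real

section conj

variable {G : Type*} [Group G]

theorem alt_conj_map {S T R : G} (h1 : R * S * R⁻¹ = T) (h2 : R * T * R⁻¹ = S) (n : ℕ) :
    R * alt S T n * R⁻¹ = alt T S n := by
  have h := map_alt (MulAut.conj R).toMonoidHom S T n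
  simp only [MulEquiv.coe_toMonoidHom, MulAut.conj_apply] at h
  rw [h, h1, h2]

theorem pow_alt {S T R : G} (h1 : R * S * R⁻¹ = T) (h2 : R * T * R⁻¹ = S) (n : ℕ) :
    (S * R) ^ n = alt S T n * R ^ n := by
  induction n with
  | zero => simp
  | succ n ih =>
    rw [pow_succ', ih, alt_succ, ← alt_conj_map h1 h2 n, pow_succ']
    group

theorem alt_of_pow {S T R : G} (h1 : R * S * R⁻¹ = T) (h2 : R * T * R⁻¹ = S) {n : ℕ}
    (h : (S * R) ^ n = (T * R) ^ n) : alt S T n = alt T S n := by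
  rw [pow_alt h1 h2, pow_alt h2 h1] at h
  exact mul_right_cancel h

end conj

/-- powers of a two by two matrix with determinant one -/
theorem mat_pow (Q : Matrix (Fin 2) (Fin 2) ℝ) (c : ℝ) (h : Q * Q = (2 * c) • Q - 1) (n : ℕ) :
    Q ^ (n + 1) = qs c (n + 1) • Q - qs c n • (1 : Matrix (Fin 2) (Fin 2) ℝ) := by
  induction n with
  | zero => simp
  | succ n ih =>
    rw [pow_succ, ih, qs_add_two, sub_mul, smul_mul_assoc, h, smul_mul_assoc, one_mul]
    module

/-- the upper triangular matrix -/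
def Sm (t : ℝ) : Matrix.SpecialLinearGroup (Fin 2) ℝ :=
  ⟨!![1, t; 0, 1], by simp [Matrix.det_fin_two]⟩

/-- the lower triangular matrix -/
def Tm (t : ℝ) : Matrix.SpecialLinearGroup (Fin 2) ℝ :=
  ⟨!![1, 0; -t, 1], by simp [Matrix.det_fin_two]⟩

/-- the rotation -/
def Rm : Matrix.SpecialLinearGroup (Fin 2) ℝ :=
  ⟨!![0, 1; -1, 0], by simp [Matrix.det_fin_two]⟩

theorem Sm_mul (s t : ℝ) : Sm s * Sm t = Sm (s + t) := by
  apply Subtype.ext
  rw [Matrix.SpecialLinearGroup.coe_mul]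
  ext i j
  fin_cases i <;> fin_cases j <;> simp [Sm, Matrix.mul_apply, Fin.sum_univ_two, add_comm]

theorem Tm_mul (s t : ℝ) : Tm s * Tm t = Tm (s + t) := by
  apply Subtype.ext
  rw [Matrix.SpecialLinearGroup.coe_mul]
  ext i j
  fin_cases i <;> fin_cases j <;> simp [Tm, Matrix.mul_apply, Fin.sum_univ_two, add_comm]

theorem Sm_zero : Sm 0 = 1 := by
  apply Subtype.ext
  ext i j
  fin_cases i <;> fin_cases j <;> simp [Sm]

theorem Tm_zero : Tm 0 = 1 := by
  apply Subtype.ext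
  ext i j
  fin_cases i <;> fin_cases j <;> simp [Tm]

/-- the hom -/
def Sh2 : Multiplicative ℝ →* Matrix.SpecialLinearGroup (Fin 2) ℝ where
  toFun t := Sm t.toAdd
  map_one' := Sm_zero
  map_mul' _ _ := (Sm_mul _ _).symm

/-- the hom -/
def Th2 : Multiplicative ℝ →* Matrix.SpecialLinearGroup (Fin 2) ℝ where
  toFun t := Tm t.toAdd
  map_one' := Tm_zero
  map_mul' _ _ := (Tm_mul _ _).symm

theorem Sm_zpow (t : ℝ) (k : ℤ) : Sm t ^ k = Sm (k * t) := by
  have h := map_zpow Sh2 (Multiplicative.ofAdd t) k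
  rw [← ofAdd_zsmul, zsmul_eq_mul] at h
  exact h.symm

theorem Tm_zpow (t : ℝ) (k : ℤ) : Tm t ^ k = Tm (k * t) := by
  have h := map_zpow Th2 (Multiplicative.ofAdd t) k
  rw [← ofAdd_zsmul, zsmul_eq_mul] at h
  exact h.symm

theorem R1 (t : ℝ) : Rm * Sm t * Rm⁻¹ = Tm t := by
  rw [mul_inv_eq_iff_eq_mul]
  apply Subtype.ext
  rw [Matrix.SpecialLinearGroup.coe_mul, Matrix.SpecialLinearGroup.coe_mul]
  ext i j
  fin_cases i <;> fin_cases j <;> simp [Sm, Tm, Rm, Matrix.mul_apply, Fin.sum_univ_two]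

theorem R2 (t : ℝ) : Rm * Tm t * Rm⁻¹ = Sm t := by
  rw [mul_inv_eq_iff_eq_mul]
  apply Subtype.ext
  rw [Matrix.SpecialLinearGroup.coe_mul, Matrix.SpecialLinearGroup.coe_mul]
  ext i j
  fin_cases i <;> fin_cases j <;> simp [Sm, Tm, Rm, Matrix.mul_apply, Fin.sum_univ_two]

/-- the braid relation in `SL(2, ℝ)` -/
theorem braid2 {m : ℕ} {c : ℝ} (h : qs c m = 0) : alt (Sm (-(2 * c))) (Tm (-(2 * c))) m =
    alt (Tm (-(2 * c))) (Sm (-(2 * c))) m := by
  rcases Nat.eq_zero_or_pos m with rfl | hm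
  · simp
  obtain ⟨n, rfl⟩ : ∃ n, m = n + 1 := ⟨m - 1, by omega⟩
  apply alt_of_pow (R1 _) (R2 _)
  apply Subtype.ext
  rw [Matrix.SpecialLinearGroup.coe_pow, Matrix.SpecialLinearGroup.coe_pow,
    Matrix.SpecialLinearGroup.coe_mul, Matrix.SpecialLinearGroup.coe_mul,
    mat_pow _ c, mat_pow _ c, h, zero_smul, zero_smul]
  · ext i j
    fin_cases i <;> fin_cases j <;> simp [Tm, Rm, Matrix.mul_apply, Fin.sum_univ_two] <;> ring
  · ext i j
    fin_cases i <;> fin_cases j <;> simp [Sm, Rm, Matrix.mul_apply, Fin.sum_univ_two] <;> ring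

variable {B : Type*} [Fintype B] [DecidableEq B] {M : CoxeterMatrix B}

theorem qs_zero_of {m j : ℕ} (hj : 0 < j) (hjm : j < m) :
    qs (cos (π - j * (π / m))) m = 0 := by
  have hm : (0 : ℝ) < m := by exact_mod_cast (by omega : 0 < m)
  have h1 := qs_sin (π - j * (π / m)) m
  have h2 : (m : ℝ) * (π - j * (π / m)) = ((m : ℤ) - (j : ℤ) : ℤ) * π := by
    push_cast
    field_simp
  rw [h2, sin_int_mul_pi, sin_pi_sub] at h1
  have h3 : 0 < sin (j * (π / m)) := by
    apply sin_pos_of_pos_of_lt_pi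
    · have : (0 : ℝ) < j := by exact_mod_cast hj
      positivity
    · rw [← mul_div_assoc, div_lt_iff₀ hm]
      have : (j : ℝ) < m := by exact_mod_cast hjm
      nlinarith [pi_pos]
  exact (mul_eq_zero.1 h1).resolve_right h3.ne'

/-- powers of two generators with a label different from two do not commute -/
theorem dih {b x : B} (hbx : b ≠ x) (hM : M b x ≠ 2) {k e : ℤ}
    (h : g M b ^ k * g M x ^ e = g M x ^ e * g M b ^ k) : k = 0 ∨ e = 0 := by
  let ι : Bool → B := fun i => if i then x else b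
  have hι : Function.Injective ι := by
    intro i j hij
    cases i <;> cases j <;> simp [ι, hbx, hbx.symm] at hij ⊢
  have h1 : Sh.gen (pull M ι hι) (z0 B ∘ ι) false ^ k * Sh.gen (pull M ι hι) (z0 B ∘ ι) true ^ e =
      Sh.gen (pull M ι hι) (z0 B ∘ ι) true ^ e * Sh.gen (pull M ι hι) (z0 B ∘ ι) false ^ k := by
    apply inc_injective (adm0 M) ι hι
    rw [map_mul, map_mul, map_zpow, map_zpow, inc_gen, inc_gen]
    exact h
  obtain ⟨c, hc, hr⟩ : ∃ c : ℝ, c ≠ 0 ∧ alt (Sm (-(2 * c))) (Tm (-(2 * c))) (M b x) =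
      alt (Tm (-(2 * c))) (Sm (-(2 * c))) (M b x) := by
    by_cases h0 : M b x = 0
    · exact ⟨1, one_ne_zero, by rw [h0]; simp⟩
    · have h2 := two_le_of_ne M hbx h0
      have h3 : 3 ≤ M b x := by omega
      have h3' : (3 : ℝ) ≤ (M b x : ℝ) := by exact_mod_cast h3
      refine ⟨cos (π - (1 : ℕ) * (π / (M b x : ℕ))), ?_, braid2 (qs_zero_of one_pos (by omega))⟩
      rw [cos_pi_sub]
      apply neg_ne_zero.2
      apply ne_of_gt
      apply cos_pos_of_mem_Ioo
      have h4 : π / (M b x : ℝ) ≤ π / 3 := by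
        apply div_le_div_of_nonneg_left pi_pos.le (by norm_num) h3'
      have h5 : 0 < π / (M b x : ℝ) := by positivity
      constructor
      · push_cast
        linarith [pi_pos]
      · push_cast
        linarith [pi_pos]
  let f : Bool → Matrix.SpecialLinearGroup (Fin 2) ℝ := fun i =>
    if i then Tm (-(2 * c)) else Sm (-(2 * c))
  have hf : ∀ i j, alt (f i) (f j) (pull M ι hι i j) = alt (f j) (f i) (pull M ι hι i j) := by
    intro i j
    cases i <;> cases j
    · rfl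
    · simpa [f, ι] using hr
    · have : M x b = M b x := M.symmetric _ _
      simpa [f, ι, this] using hr.symm
    · rfl
  have hp : ∀ i, f i ^ (z0 B ∘ ι) i = 1 := fun i => pow_zero _
  have h2 := congrArg (Sh.lift (M := pull M ι hι) (p := z0 B ∘ ι) f hf hp) h1
  rw [map_mul, map_mul, map_zpow, map_zpow, Sh.lift_gen f hf hp false,
    Sh.lift_gen f hf hp true] at h2
  have h3 : Sm (-(2 * c)) ^ k * Tm (-(2 * c)) ^ e = Tm (-(2 * c)) ^ e * Sm (-(2 * c)) ^ k := h2
  rw [Sm_zpow, Tm_zpow] at h3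
  have h4 := congrArg (fun Q : Matrix.SpecialLinearGroup (Fin 2) ℝ =>
    (Q : Matrix (Fin 2) (Fin 2) ℝ) 0 0) h3
  simp only [Matrix.SpecialLinearGroup.coe_mul, Matrix.mul_apply, Fin.sum_univ_two] at h4
  simp [Sm, Tm, hc] at h4
  tauto

end Pool.Agent.K7.H20.AW
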