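import Pool.Agent.K7.H20.AW.Br

/-!
# Words with even exponents: restriction to two generators
-/

set_option autoImplicit false
set_option linter.unusedSectionVars false

namespace Pool.Agent.K7.H20.AW

open Pool.Agent.Helper741 Pool.Agent.K7.H87.FJ6 CoxeterSystem
open Real

/-- the action on vectors -/
def ap (Q : Matrix.SpecialLinearGroup (Fin 2) ℝ) (v : ℝ × ℝ) : ℝ × ℝ :=
  (Q.1 0 0 * v.1 + Q.1 0 1 * v.2, Q.1 1 0 * v.1 + Q.1 1 1 * v.2)

theorem ap_mul (Q R : Matrix.SpecialLinearGroup (Fin 2) ℝ) (v : ℝ × ℝ) :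
    ap (Q * R) v = ap Q (ap R v) := by
  have h : (Q * R).1 = Q.1 * R.1 := rfl
  simp only [ap, h, Matrix.mul_apply, Fin.sum_univ_two]
  refine Prod.ext ?_ ?_
  · show _ = _
    ring
  · show _ = _
    ring

theorem ap_one (v : ℝ × ℝ) : ap 1 v = v := by
  simp [ap]

theorem ap_S (t : ℝ) (v : ℝ × ℝ) : ap (Sm t) v = (v.1 + t * v.2, v.2) := by
  simp [ap, Sm]

theorem ap_T (t : ℝ) (v : ℝ × ℝ) : ap (Tm t) v = (v.1, v.2 - t * v.1) := by
  simp [ap, Tm]
  ring

theorem up {t : ℝ} (ht : 2 ≤ |t|) {v : ℝ × ℝ} (hv : |v.1| < |v.2|) :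
    |(ap (Sm t) v).2| < |(ap (Sm t) v).1| := by
  rw [ap_S]
  show |v.2| < |v.1 + t * v.2|
  have h1 : |t * v.2| ≤ |v.1 + t * v.2| + |v.1| := by
    have := abs_sub (v.1 + t * v.2) v.1
    rwa [add_sub_cancel_left] at this
  rw [abs_mul] at h1
  have h2 : 2 * |v.2| ≤ |t| * |v.2| := mul_le_mul_of_nonneg_right ht (abs_nonneg _)
  linarith

theorem lo {t : ℝ} (ht : 2 ≤ |t|) {v : ℝ × ℝ} (hv : |v.2| < |v.1|) :
    |(ap (Tm t) v).1| < |(ap (Tm t) v).2| := by
  rw [ap_T]
  show |v.1| < |v.2 - t * v.1|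
  have h1 : |t * v.1| ≤ |v.2 - t * v.1| + |v.2| := by
    have := abs_sub (v.2) (v.2 - t * v.1)
    rw [sub_sub_cancel] at this
    linarith
  rw [abs_mul] at h1
  have h2 : 2 * |v.1| ≤ |t| * |v.1| := mul_le_mul_of_nonneg_right ht (abs_nonneg _)
  linarith

theorem pp {a b c d e f : ℝ} (ha : 2 ≤ |a|) (hb : 2 ≤ |b|) (hc : 2 ≤ |c|) (hd : 2 ≤ |d|)
    (he : 2 ≤ |e|) (h : Sm a * Tm b * Sm c * Tm d * Sm e * Tm f = 1) : False := by
  have h1 := congrArg (fun Q => ap Q (0, 1)) h
  simp only [ap_mul, ap_one] at h1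
  have h2 : ap (Tm f) (0, 1) = (0, 1) := by
    rw [ap_T]
    simp
  rw [h2] at h1
  have h3 : |((0 : ℝ), (1 : ℝ)).1| < |((0 : ℝ), (1 : ℝ)).2| := by simp
  have h4 := up ha (lo hb (up hc (lo hd (up he h3))))
  rw [h1] at h4
  linarith

theorem even_abs {k : ℤ} (hk : Even k) (h0 : k ≠ 0) {m : ℝ} (hm : 1 ≤ |m|) : 2 ≤ |(k : ℝ) * m| := by
  have h1 : (2 : ℝ) ≤ |(k : ℝ)| := by
    have h2 : 2 ≤ |k| := by
      obtain ⟨j, rfl⟩ := hk
      have : j ≠ 0 := by
        rintro rfl
        simp at h0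
      rcases lt_or_gt_of_ne this with h | h
      · rw [abs_of_neg (by omega)]
        omega
      · rw [abs_of_pos (by omega)]
        omega
    exact_mod_cast h2
  rw [abs_mul]
  nlinarith [abs_nonneg (k : ℝ)]

section del

variable {B : Type*} [Fintype B] [DecidableEq B] {M : CoxeterMatrix B}

/-- the syllable of the restricted word -/
def sy {G : Type*} [Group G] (b x : B) (S T : G) (p : B × ℤ) : G :=
  if p.1 = b then S ^ p.2 else if p.1 = x then T ^ p.2 else 1

/-- words with even exponents can be restricted to two generators -/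
theorem del {b x : B} (hbx : b ≠ x) (hM : M b x ≠ 2) {w : List (B × ℤ)} (hw : ∀ a ∈ w, Even a.2)
    (h : val M w = 1) : ∃ μ : ℝ, 1 ≤ |μ| ∧ (w.map (sy b x (Sm μ) (Tm μ))).prod = 1 := by
  let cs := M.toCoxeterSystem
  let ι : Bool → B := fun i => if i then x else b
  have hι : Function.Injective ι := by
    intro i j hij
    cases i <;> cases j <;> simp [ι, hbx, hbx.symm] at hij ⊢
  let p1 : {v : M.Group // Mn cs ι v} := ⟨1, Mn_one cs ι⟩
  let S := Sh.gen (pull M ι hι) (z0 B ∘ ι) false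
  let T := Sh.gen (pull M ι hι) (z0 B ∘ ι) true
  have key : ∀ w : List (B × ℤ), (∀ a ∈ w, Even a.2) → ∀ a, ac cs ι hι (val M w) (a, p1) =
      ((w.map (sy b x S T)).prod * a, p1) := by
    intro w
    induction w with
    | nil =>
      intro _ a
      rw [val_nil, map_one, List.map_nil, List.prod_nil, one_mul]
      rfl
    | cons p w ih =>
      intro hw a
      rw [val_cons, map_mul, Equiv.Perm.mul_apply, ih (fun a ha => hw a (by simp [ha])),
        List.map_cons, List.prod_cons, mul_assoc]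
      have hp : Even p.2 := hw p (by simp)
      by_cases h1 : p.1 = b
      · have h2 : g M p.1 ^ p.2 = inc M (z0 B) ι hι (S ^ p.2) := by
          rw [map_zpow, inc_gen, h1]
          rfl
        rw [h2, ac_inc, sy, if_pos h1]
      · by_cases h3 : p.1 = x
        · have h2 : g M p.1 ^ p.2 = inc M (z0 B) ι hι (T ^ p.2) := by
            rw [map_zpow, inc_gen, h3]
            rfl
          rw [h2, ac_inc, sy, if_neg h1, if_pos h3]
        · rw [sy, if_neg h1, if_neg h3, one_mul]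
          have h0 : ¬ ∃ i, cs.simple p.1 * 1 = 1 * cs.simple (ι i) := by
            rintro ⟨i, hi⟩
            rw [mul_one, one_mul] at hi
            have h4 := simple_injective cs hi
            cases i
            · exact h1 h4
            · exact h3 h4
          have a1 := ac_neg (hι := hι) (a := (w.map (sy b x S T)).prod * a) (v := p1) h0
          have a2 : ac cs ι hι (g M p.1) ((w.map (sy b x S T)).prod * a,
              ⟨cs.simple p.1 * p1.1, Mn_move cs ι p1.2 h0⟩) =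
              ((w.map (sy b x S T)).prod * a, p1) := by
            rw [ac_neg (v := ⟨cs.simple p.1 * p1.1, Mn_move cs ι p1.2 h0⟩) (back cs ι h0)]
            refine Prod.ext rfl (Subtype.ext ?_)
            show cs.simple p.1 * (cs.simple p.1 * 1) = 1
            rw [mul_one, cs.simple_mul_simple_self]
          rw [map_zpow]
          exact (zpow_swap _ a1 a2 p.2).1 hp
  have h1 := key w hw 1
  rw [h, map_one, mul_one] at h1
  have h2 : (w.map (sy b x S T)).prod = 1 := (congrArg Prod.fst h1).symm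
  obtain ⟨c, hc, hr⟩ : ∃ c : ℝ, 1 ≤ |-(2 * c)| ∧ alt (Sm (-(2 * c))) (Tm (-(2 * c))) (M b x) =
      alt (Tm (-(2 * c))) (Sm (-(2 * c))) (M b x) := by
    by_cases h0 : M b x = 0
    · exact ⟨1, by norm_num, by rw [h0]; simp⟩
    · have h2 := two_le_of_ne M hbx h0
      have h3 : 3 ≤ M b x := by omega
      have h3' : (3 : ℝ) ≤ (M b x : ℝ) := by exact_mod_cast h3
      refine ⟨cos (π - (1 : ℕ) * (π / (M b x : ℕ))), ?_, braid2 (qs_zero_of one_pos (by omega))⟩
      rw [cos_pi_sub]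
      have h4 : π / (M b x : ℝ) ≤ π / 3 := by
        apply div_le_div_of_nonneg_left pi_pos.le (by norm_num) h3'
      have h5 : 0 < π / (M b x : ℝ) := by positivity
      have h6 : cos (π / 3) ≤ cos (π / (M b x : ℝ)) :=
        cos_le_cos_of_nonneg_of_le_pi h5.le (by linarith [pi_pos]) h4
      rw [cos_pi_div_three] at h6
      rw [abs_of_nonneg]
      · push_cast
        rw [one_mul]
        linarith
      · push_cast
        rw [one_mul]
        linarith
  let f : Bool → Matrix.SpecialLinearGroup (Fin 2) ℝ := fun i =>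
    if i then Tm (-(2 * c)) else Sm (-(2 * c))
  have hf : ∀ i j, alt (f i) (f j) (pull M ι hι i j) = alt (f j) (f i) (pull M ι hι i j) := by
    intro i j
    cases i <;> cases j
    · rfl
    · simpa [f, ι] using hr
    · have : M x b = M b x := M.symmetric _ _
      simpa [f, ι, this] using hr.symm
    · rfl
  have hp : ∀ i, f i ^ (z0 B ∘ ι) i = 1 := fun i => pow_zero _
  refine ⟨-(2 * c), hc, ?_⟩
  have h3 := congrArg (Sh.lift (M := pull M ι hι) (p := z0 B ∘ ι) f hf hp) h2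
  rw [map_one, map_list_prod, List.map_map] at h3
  rw [← h3]
  congr 1
  apply List.map_congr_left
  intro p _
  show sy b x (Sm (-(2 * c))) (Tm (-(2 * c))) p =
    Sh.lift (M := pull M ι hι) (p := z0 B ∘ ι) f hf hp (sy b x S T p)
  unfold sy
  split_ifs
  · rw [map_zpow, Sh.lift_gen f hf hp false]
    rfl
  · rw [map_zpow, Sh.lift_gen f hf hp true]
    rfl
  · rw [map_one]

theorem sy_none {G : Type*} [Group G] {b x : B} {S T : G} {w : List (B × ℤ)}
    (hb : ∀ a ∈ w, a.1 ≠ b) (hx : ∀ a ∈ w, a.1 ≠ x) : (w.map (sy b x S T)).prod = 1 := by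
  apply List.prod_eq_one
  intro y hy
  obtain ⟨a, ha, rfl⟩ := List.mem_map.1 hy
  rw [sy, if_neg (hb a ha), if_neg (hx a ha)]

theorem sy_one {G : Type*} [Group G] {b x : B} (hbx : b ≠ x) {S T : G} {w : List (B × ℤ)}
    (hb : ∀ a ∈ w, a.1 ≠ b) (hx : ct x w = 1) :
    ∃ e, (x, e) ∈ w ∧ (w.map (sy b x S T)).prod = T ^ e := by
  obtain ⟨α, e, β, rfl, hα, hβ⟩ := split_one hx
  refine ⟨e, by simp, ?_⟩
  rw [List.map_append, List.prod_append, List.map_cons, List.prod_cons,
    sy_none (fun a ha => hb a (by simp [ha])) hα, sy_none (fun a ha => hb a (by simp [ha])) hβ,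
    one_mul, mul_one, sy, if_neg hbx.symm, if_pos rfl]

/-- six alternating syllables with even exponents -/
theorem no_six {b x : B} (hbx : b ≠ x) (hM : M b x ≠ 2) {a c d : ℤ} {g1 g2 g3 : List (B × ℤ)}
    (hR : ∀ p ∈ (b, a) :: (g1 ++ (b, c) :: (g2 ++ (b, d) :: g3)), p.2 ≠ 0)
    (hE : ∀ p ∈ (b, a) :: (g1 ++ (b, c) :: (g2 ++ (b, d) :: g3)), Even p.2)
    (hb1 : ∀ a ∈ g1, a.1 ≠ b) (hb2 : ∀ a ∈ g2, a.1 ≠ b) (hb3 : ∀ a ∈ g3, a.1 ≠ b)
    (hx1 : ct x g1 = 1) (hx2 : ct x g2 = 1) (hx3 : ct x g3 = 1)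
    (h : val M ((b, a) :: (g1 ++ (b, c) :: (g2 ++ (b, d) :: g3))) = 1) : False := by
  obtain ⟨μ, hμ, h1⟩ := del hbx hM hE h
  obtain ⟨e1, he1, h2⟩ := sy_one (S := Sm μ) (T := Tm μ) hbx hb1 hx1
  obtain ⟨e2, he2, h3⟩ := sy_one (S := Sm μ) (T := Tm μ) hbx hb2 hx2
  obtain ⟨e3, he3, h4⟩ := sy_one (S := Sm μ) (T := Tm μ) hbx hb3 hx3
  rw [List.map_cons, List.prod_cons, List.map_append, List.prod_append, h2, List.map_cons,
    List.prod_cons, List.map_append, List.prod_append, h3, List.map_cons, List.prod_cons, h4] at h1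
  simp only [sy, if_true, Sm_zpow, Tm_zpow] at h1
  refine pp (even_abs (hE (b, a) (by simp)) (hR (b, a) (by simp)) hμ)
    (even_abs (hE (x, e1) (by simp [he1])) (hR (x, e1) (by simp [he1])) hμ)
    (even_abs (hE (b, c) (by simp)) (hR (b, c) (by simp)) hμ)
    (even_abs (hE (x, e2) (by simp [he2])) (hR (x, e2) (by simp [he2])) hμ)
    (even_abs (hE (b, d) (by simp)) (hR (b, d) (by simp)) hμ) (f := e3 * μ) ?_
  rw [← h1]
  simp only [mul_assoc]

end del

end Pool.Agent.K7.H20.AW
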