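import Pool.Agent.K7.H20.AW.Dih

/-!
# Words with at most two syllables of each generator
-/

set_option autoImplicit false
set_option linter.unusedSectionVars false

namespace Pool.Agent.K7.H20.AW

open Pool.Agent.Helper741 Pool.Agent.K7.H87.FJ6 CoxeterSystem

/-- the labels `2` are kept, the other labels become infinite -/
def ra {B : Type*} [DecidableEq B] (M : CoxeterMatrix B) : CoxeterMatrix B where
  M := Matrix.of fun i j => if i = j then 1 else if M i j = 2 then 2 else 0
  isSymm := by
    ext i j
    simp only [Matrix.transpose_apply, Matrix.of_apply, M.symmetric i j, eq_comm (a := i)]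
  diagonal i := by simp
  off_diagonal i j h := by
    simp only [Matrix.of_apply, if_neg h]
    split_ifs <;> norm_num

theorem ra_apply {B : Type*} [DecidableEq B] (M : CoxeterMatrix B) (i j : B) :
    ra M i j = if i = j then 1 else if M i j = 2 then 2 else 0 := rfl

section val

variable {B : Type*} (M : CoxeterMatrix B)

/-- the value of a word in syllables -/
def val (w : List (B × ℤ)) : Art M := (w.map fun p => g M p.1 ^ p.2).prod

@[simp] theorem val_nil : val M [] = 1 := rfl

@[simp] theorem val_cons (p : B × ℤ) (w : List (B × ℤ)) :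
    val M (p :: w) = g M p.1 ^ p.2 * val M w := by simp [val]

@[simp] theorem val_append (v w : List (B × ℤ)) : val M (v ++ w) = val M v * val M w := by
  simp [val]

variable {M}

theorem val_mem {V : Set B} {w : List (B × ℤ)} (h : ∀ a ∈ w, a.1 ∈ V) : val M w ∈ P M V := by
  induction w with
  | nil => exact one_mem _
  | cons p w ih =>
    rw [val_cons]
    exact mul_mem (zpow_mem (g_mem (h p (by simp))) _) (ih fun a ha => h a (by simp [ha]))

theorem comm_gen {b c : B} (h : M b c = 2) : g M b * g M c = g M c * g M b := by
  have h1 := Sh.rel (M := M) (p := z0 B) b c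
  rw [h, alt_two, alt_two] at h1
  exact h1

theorem comm_P {b : B} {x : Art M} (hx : x ∈ P M {x | x ≠ b ∧ M x b = 2}) (k : ℤ) :
    g M b ^ k * x = x * g M b ^ k := by
  have h : Commute x (g M b) := by
    induction hx using Subgroup.closure_induction with
    | mem x hx =>
      obtain ⟨c, hc, rfl⟩ := hx
      exact comm_gen hc.2
    | one => exact Commute.one_left _
    | mul x y _ _ hx hy => exact hx.mul_left hy
    | inv x _ hx => exact hx.inv_left
  exact ((h.zpow_right k).eq).symm

/-- the length -/
def len : Art M →* Multiplicative ℤ :=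
  Sh.lift (fun _ => Multiplicative.ofAdd 1) (fun _ _ => rfl) (fun _ => pow_zero _)

theorem len_g (b : B) (k : ℤ) : len (M := M) (g M b ^ k) = Multiplicative.ofAdd k := by
  have h : len (M := M) (g M b) = Multiplicative.ofAdd 1 :=
    Sh.lift_gen (M := M) (p := z0 B) (fun _ => Multiplicative.ofAdd (1 : ℤ)) (fun _ _ => rfl)
      (fun _ => pow_zero _) b
  rw [map_zpow, h, ← ofAdd_zsmul]
  simp

end val

section raag

variable {B : Type*} [DecidableEq B] {M : CoxeterMatrix B}

theorem ra_two {i j : B} (hij : i ≠ j) (h : M i j = 2) : ra M i j = 2 := by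
  rw [ra_apply, if_neg hij, if_pos h]

theorem lift_ok {G : Type*} [Group G] (f : B → G)
    (hf : ∀ i j, i ≠ j → M i j = 2 → f i * f j = f j * f i) (i j : B) :
    alt (f i) (f j) (ra M i j) = alt (f j) (f i) (ra M i j) := by
  by_cases hij : i = j
  · rw [hij]
  by_cases h : M i j = 2
  · rw [ra_two hij h, alt_two, alt_two]
    exact hf i j hij h
  · rw [ra_apply, if_neg hij, if_neg h, alt_zero, alt_zero]

/-- the projection -/
def qo : Art (ra M) →* Art M :=
  Sh.lift (fun b => g M b) (lift_ok _ fun _ _ _ h => comm_gen h) (fun _ => pow_zero _)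

theorem qo_g (b : B) : qo (M := M) (g (ra M) b) = g M b :=
  Sh.lift_gen _ _ _ _

theorem qo_val (w : List (B × ℤ)) : qo (val (ra M) w) = val M w := by
  induction w with
  | nil => exact map_one _
  | cons p w ih => rw [val_cons, val_cons, map_mul, ih, map_zpow, qo_g]

/-- kill a generator -/
def ki (x : B) : Art (ra M) →* Art (ra M) :=
  Sh.lift (fun b => if b = x then 1 else g (ra M) b) (lift_ok _ fun i j hij h => by
    split_ifs
    · rfl
    · rw [one_mul, mul_one]
    · rw [one_mul, mul_one]
    · exact comm_gen (ra_two hij h)) (fun _ => pow_zero _)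

theorem ki_g (x b : B) : ki (M := M) x (g (ra M) b) = if b = x then 1 else g (ra M) b :=
  Sh.lift_gen _ _ _ _

theorem ki_val (x : B) (w : List (B × ℤ)) :
    ki x (val (ra M) w) = val (ra M) (w.filter fun a => a.1 ≠ x) := by
  induction w with
  | nil => exact map_one _
  | cons p w ih =>
    rw [val_cons, map_mul, ih, map_zpow, ki_g]
    by_cases h : p.1 = x
    · rw [if_pos h, one_zpow, one_mul, List.filter_cons_of_neg (by simpa using h)]
    · rw [if_neg h, List.filter_cons_of_pos (by simpa using h), val_cons]

end raag

section lists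

variable {α : Type*}

theorem split_first (Q : α → Prop) : ∀ l : List α, (∃ c ∈ l, Q c) →
    ∃ y c z, l = y ++ c :: z ∧ Q c ∧ ∀ a ∈ y, ¬ Q a := by
  intro l
  induction l with
  | nil => rintro ⟨c, hc, _⟩; simp at hc
  | cons a l ih =>
    rintro ⟨c, hc, hQ⟩
    by_cases ha : Q a
    · exact ⟨[], a, l, rfl, ha, by simp⟩
    · have hc' : c ∈ l := by
        rcases List.mem_cons.1 hc with rfl | h
        · exact absurd hQ ha
        · exact h
      obtain ⟨y, c', z, rfl, h1, h2⟩ := ih ⟨c, hc', hQ⟩
      refine ⟨a :: y, c', z, rfl, h1, ?_⟩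
      intro b hb
      rcases List.mem_cons.1 hb with rfl | h
      · exact ha
      · exact h2 b h

theorem split_last (Q : α → Prop) : ∀ l : List α, (∃ c ∈ l, Q c) →
    ∃ y c z, l = y ++ c :: z ∧ Q c ∧ ∀ a ∈ z, ¬ Q a := by
  intro l
  induction l with
  | nil => rintro ⟨c, hc, _⟩; simp at hc
  | cons a l ih =>
    rintro ⟨c, hc, hQ⟩
    by_cases hl : ∃ c ∈ l, Q c
    · obtain ⟨y, c', z, rfl, h1, h2⟩ := ih hl
      exact ⟨a :: y, c', z, rfl, h1, h2⟩
    · push Not at hl
      have ha : Q a := by
        rcases List.mem_cons.1 hc with rfl | h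
        · exact hQ
        · exact absurd hQ (hl c h)
      exact ⟨[], a, l, rfl, ha, hl⟩

end lists

section count

variable {B : Type*} [DecidableEq B]

/-- the number of syllables -/
abbrev ct (b : B) (w : List (B × ℤ)) : ℕ := (w.map Prod.fst).count b

theorem ct_eq_zero {b : B} {w : List (B × ℤ)} (h : ct b w = 0) : ∀ a ∈ w, a.1 ≠ b := by
  intro a ha hab
  have h1 : b ∈ w.map Prod.fst := List.mem_map.2 ⟨a, ha, hab⟩
  exact List.count_eq_zero.1 h h1

theorem ct_pos {b : B} {w : List (B × ℤ)} (h : ∃ a ∈ w, a.1 = b) : 0 < ct b w := by
  obtain ⟨a, ha, hab⟩ := h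
  exact List.count_pos_iff.2 (List.mem_map.2 ⟨a, ha, hab⟩)

theorem ct_cons (b : B) (p : B × ℤ) (w : List (B × ℤ)) :
    ct b (p :: w) = ct b w + if p.1 = b then 1 else 0 := by
  unfold ct
  rw [List.map_cons, List.count_cons]
  simp

theorem ct_append (b : B) (v w : List (B × ℤ)) : ct b (v ++ w) = ct b v + ct b w := by
  unfold ct
  rw [List.map_append, List.count_append]

theorem ct_filter (b x : B) (w : List (B × ℤ)) :
    ct b (w.filter fun a => a.1 ≠ x) ≤ ct b w :=
  List.Sublist.count_le _ (List.Sublist.map _ List.filter_sublist)

end count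

section main

variable {B : Type*} [Fintype B] [DecidableEq B] {M : CoxeterMatrix B}

/-- the contradiction in the case of even exponents -/
theorem even_case {b x : B} (hbx : x ≠ b) (hM : M x b ≠ 2) {k e : ℤ} (hk : k ≠ 0) (he : e ≠ 0)
    {p : Art M} (hp : p ∈ P M {x}ᶜ)
    (h : g M b ^ k * (p * g M x ^ e) = p * g M x ^ e * g M b ^ k) : False := by
  have h1 : g M x ^ e * g M b ^ k * g M x ^ (-e) = p⁻¹ * g M b ^ k * p := by
    rw [zpow_neg, mul_inv_eq_iff_eq_mul]
    calc g M x ^ e * g M b ^ k = p⁻¹ * (p * g M x ^ e * g M b ^ k) := by group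
      _ = p⁻¹ * (g M b ^ k * (p * g M x ^ e)) := by rw [h]
      _ = _ := by group
  have hb : g M b ^ k ∈ P M {x}ᶜ := zpow_mem (g_mem (by simpa using hbx.symm)) _
  rcases two hb (mul_mem (mul_mem (inv_mem hp) hb) hp) h1 with ⟨_, _, h2⟩ | ⟨_, _, h2⟩
  · apply hk
    apply pow_mem (M := M) (b := b)
    refine P_mono ?_ h2
    rintro u ⟨_, hu⟩ rfl
    exact hM (by rw [M.symmetric]; exact hu)
  · rw [← h2, zpow_neg, mul_inv_eq_iff_eq_mul] at h1
    rcases dih hbx hM h1 with h3 | h3
    · exact he h3
    · exact hk h3

/-- two syllables: the exponents cancel -/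
theorem two' {b : B} {k l : ℤ} {y h : Art M} (hy : y ∈ P M {b}ᶜ) (hh : h ∈ P M {b}ᶜ)
    (e : g M b ^ k * y * g M b ^ l = h) :
    y = h ∧ k + l = 0 ∧ (y ∈ P M {x | x ≠ b ∧ M x b = 2} ∨ g M b ^ k * y = y * g M b ^ k) := by
  rcases two hy hh e with ⟨_, _, h2⟩ | ⟨_, _, h2⟩
  · have h3 : g M b ^ (k + l) = h * y⁻¹ := by
      rw [eq_mul_inv_iff_mul_eq, ← e, zpow_add, mul_assoc, comm_P h2 l, ← mul_assoc]
    have h4 : k + l = 0 := pow_mem (M := M) (b := b) (by
      rw [h3]
      exact mul_mem hh (inv_mem hy))
    refine ⟨?_, h4, Or.inl h2⟩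
    rw [h4, zpow_zero] at h3
    exact (mul_inv_eq_one.1 h3.symm).symm
  · have h3 := congrArg (len (M := M)) e
    rw [map_mul, map_mul, len_g, len_g, ← h2, mul_right_comm] at h3
    have h4 : k + l = 0 := by
      have h5 : Multiplicative.ofAdd k * Multiplicative.ofAdd l = 1 := mul_eq_right.1 h3
      rw [← ofAdd_add, ofAdd_eq_one] at h5
      exact h5
    refine ⟨h2, h4, Or.inr ?_⟩
    have h5 : l = -k := by omega
    rw [h5, ← h2, zpow_neg, mul_inv_eq_iff_eq_mul] at e
    exact e

theorem val_comm_ra {b : B} {y : List (B × ℤ)} (h : ∀ a ∈ y, a.1 ≠ b ∧ M a.1 b = 2) (k : ℤ) :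
    g (ra M) b ^ k * val (ra M) y = val (ra M) y * g (ra M) b ^ k :=
  comm_P (val_mem fun a ha => ⟨(h a ha).1, ra_two (h a ha).1 (h a ha).2⟩) k

theorem few : ∀ (n : ℕ) (w : List (B × ℤ)), w.length = n → (∀ b, ct b w ≤ 2) →
    val M w = 1 → val (ra M) w = 1 := by
  intro n
  induction n using Nat.strong_induction_on with
  | _ n ih =>
    intro w hn hct hw
    match w, hn, hct, hw with
    | [], _, _, _ => rfl
    | (b, k) :: w', hn, hct, hw =>
      by_cases hk : k = 0
      · subst hk
        have h1 := ih w'.length (by rw [← hn]; simp) w' rfl (fun c => by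
          have := hct c
          rw [ct_cons] at this
          omega) (by simpa using hw)
        simpa using h1
      by_cases hb : ∃ c ∈ w', c.1 = b
      · obtain ⟨y, ⟨b', l⟩, z, rfl, hb', hy⟩ := split_first (fun c : B × ℤ => c.1 = b) w' hb
        have hb'' : b' = b := hb'
        subst hb''
        have hz : ∀ a ∈ z, a.1 ≠ b' := by
          apply ct_eq_zero
          have := hct b'
          rw [ct_cons, ct_append, ct_cons] at this
          simp only [if_true] at this
          omega
        by_cases hl : l = 0
        · subst hl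
          have h1 := ih ((b', k) :: (y ++ z)).length (by rw [← hn]; simp) _ rfl (fun c => by
            have := hct c
            rw [ct_cons, ct_append, ct_cons] at this
            rw [ct_cons, ct_append]
            omega) (by simpa using hw)
          simpa using h1
        have hyP : val M y ∈ P M {b'}ᶜ := val_mem hy
        have hzP : (val M z)⁻¹ ∈ P M {b'}ᶜ := inv_mem (val_mem hz)
        have e : g M b' ^ k * val M y * g M b' ^ l = (val M z)⁻¹ := by
          rw [eq_inv_iff_mul_eq_one]
          simpa [mul_assoc] using hw
        obtain ⟨hyz, hkl, hcase⟩ := two' hyP hzP e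
        have hl' : l = -k := by omega
        -- the relation without `b'`
        have hyz1 : val M (y ++ z) = 1 := by
          rw [val_append, hyz, inv_mul_cancel]
        have hyz2 : val (ra M) (y ++ z) = 1 := by
          refine ih (y ++ z).length (by
            rw [← hn]
            simp only [List.length_cons, List.length_append]
            omega) _ rfl (fun c => ?_) hyz1
          have := hct c
          rw [ct_cons, ct_append, ct_cons] at this
          rw [ct_append]
          omega
        rw [val_append] at hyz2
        by_cases hc : ∀ a ∈ y, M a.1 b' = 2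
        · have h1 := val_comm_ra (M := M) (b := b') (fun a ha => ⟨hy a ha, hc a ha⟩) k
          rw [val_cons, val_append, val_cons]
          show g (ra M) b' ^ k * (val (ra M) y * (g (ra M) b' ^ l * val (ra M) z)) = 1
          rw [hl', ← mul_assoc, h1, mul_assoc, zpow_neg, mul_inv_cancel_left, hyz2]
        push Not at hc
        obtain ⟨p, ⟨x, f⟩, r, rfl, hx, hr⟩ := split_last (fun a : B × ℤ => M a.1 b' ≠ 2) y hc
        have hx' : M x b' ≠ 2 := hx
        have hxb : x ≠ b' := hy (x, f) (by simp)
        have hr' : ∀ a ∈ r, M a.1 b' = 2 := fun a ha => not_not.1 (hr a ha)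
        by_cases hf : f = 0
        · subst hf
          have h1 := ih ((b', k) :: (p ++ r ++ (b', l) :: z)).length (by rw [← hn]; simp) _ rfl
            (fun c => by
              have := hct c
              rw [ct_cons, ct_append, ct_append, ct_cons, ct_cons] at this
              rw [ct_cons, ct_append, ct_append, ct_cons]
              omega) (by simpa using hw)
          simpa using h1
        by_cases hxp : ∃ a ∈ p, a.1 = x
        · -- the generator `x` does not occur in `z`
          have hxz : ∀ a ∈ z, a.1 ≠ x := by
            apply ct_eq_zero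
            have h1 := hct x
            have h2 := ct_pos hxp
            rw [ct_cons, ct_append, ct_append, ct_cons, ct_cons] at h1
            simp only [if_true] at h1
            omega
          set y := p ++ (x, f) :: r with hydef
          have hz1 : z.filter (fun a => a.1 ≠ x) = z := by
            rw [List.filter_eq_self]
            intro a ha
            simpa using hxz a ha
          have h3 : val (ra M) y = val (ra M) (y.filter fun a => a.1 ≠ x) := by
            have h4 := congrArg (ki (M := M) x) hyz2
            rw [map_mul, ki_val, ki_val, map_one, hz1] at h4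
            rw [mul_eq_one_iff_eq_inv] at h4 hyz2
            rw [hyz2, h4]
          have h5 : val M y = val M (y.filter fun a => a.1 ≠ x) := by
            rw [← qo_val (M := M) y, h3, qo_val]
          have hlen : (y.filter fun a => a.1 ≠ x).length < y.length := by
            apply List.length_filter_lt_length_iff_exists.2
            exact ⟨(x, f), by simp [hydef], by simp⟩
          have h6 := ih ((b', k) :: ((y.filter fun a => a.1 ≠ x) ++ (b', l) :: z)).length (by
            rw [← hn]
            simp only [List.length_cons, List.length_append]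
            omega) _ rfl (fun c => by
              have h7 := hct c
              have h8 := ct_filter c x y
              rw [ct_cons, ct_append, ct_cons] at h7
              rw [ct_cons, ct_append, ct_cons]
              omega) (by
              rw [val_cons, val_append, ← h5]
              rw [val_cons, val_append] at hw
              exact hw)
          rw [val_cons, val_append, ← h3] at h6
          rw [val_cons, val_append]
          exact h6
        · -- contradiction
          exfalso
          have hxp' : ∀ a ∈ p, a.1 ≠ x := fun a ha h => hxp ⟨a, ha, h⟩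
          have hpP : val M p ∈ P M {x}ᶜ := val_mem hxp'
          have hrP : val M r ∈ P M {u | u ≠ b' ∧ M u b' = 2} :=
            val_mem fun a ha => ⟨hy a (by simp [ha]), hr' a ha⟩
          have hsub : {u | u ≠ b' ∧ M u b' = 2} ⊆ ({x}ᶜ : Set B) := by
            rintro u ⟨_, hu⟩ rfl
            exact hx' hu
          have hyv : val M (p ++ (x, f) :: r) = val M p * g M x ^ f * val M r := by
            rw [val_append, val_cons, mul_assoc]
          rcases hcase with h1 | h1
          · apply hf
            apply pow_mem (M := M) (b := x)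
            have h2 : g M x ^ f = (val M p)⁻¹ * val M (p ++ (x, f) :: r) * (val M r)⁻¹ := by
              rw [hyv]
              group
            rw [h2]
            exact mul_mem (mul_mem (inv_mem hpP) (P_mono hsub h1)) (inv_mem (P_mono hsub hrP))
          · refine even_case hxb hx' hk hf hpP ?_
            rw [hyv] at h1
            have h2 := comm_P hrP k
            apply mul_right_cancel (b := val M r)
            rw [mul_assoc, h1, mul_assoc (val M p * g M x ^ f) (g M b' ^ k), h2, mul_assoc]
      · -- a single syllable
        exfalso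
        apply hk
        apply pow_mem (M := M) (b := b)
        have h1 : g M b ^ k = (val M w')⁻¹ := by
          rw [eq_inv_iff_mul_eq_one]
          simpa using hw
        rw [h1]
        exact inv_mem (val_mem fun a ha h => hb ⟨a, ha, h⟩)

end main

end Pool.Agent.K7.H20.AW
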