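import Pool.Agent.K7.H20.AW.Few

/-!
# Intersections and products of standard parabolic subgroups of Artin groups
-/

set_option autoImplicit false
set_option linter.unusedSectionVars false

namespace Pool.Agent.K7.H20.AW

open Pool.Agent.Helper741 Pool.Agent.K7.H87.FJ6 CoxeterSystem

section cox

variable {A B : Type*} [Fintype B] [DecidableEq B] {M : CoxeterMatrix B}
variable {W : Type*} [Group W] (cs : CoxeterSystem M W)

theorem PW_inter_aux {V V' : Set B} : ∀ (n : ℕ) (w : W), cs.length w = n → w ∈ PW cs V →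
    w ∈ PW cs V' → w ∈ PW cs (V ∩ V') := by
  intro n
  induction n using Nat.strong_induction_on with
  | _ n ih =>
    intro w hn hP hQ
    by_cases hw : w = 1
    · rw [hw]
      exact one_mem _
    · obtain ⟨i, hi⟩ : ∃ i, ¬ 0 ≤ geo cs w (ee i) := by
        by_contra hcon
        push Not at hcon
        exact hw (eq_one_of_geo cs w hcon)
      have h1 : geo cs w (ee i) ≤ 0 := (sgn cs w i).resolve_left hi
      have key : ∀ U : Set B, w ∈ PW cs U → i ∈ U := by
        intro U hU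
        by_contra hiU
        have h2 := PW_coord cs hU (ee i) i hiU
        have h3 := h1 i
        rw [h2] at h3
        simp only [ee, Pi.single_eq_same, Pi.zero_apply] at h3
        norm_num at h3
      have hlt := (geo_nonpos_iff cs w i).1 h1
      have h4 := ih _ (by omega) (w * cs.simple i) rfl (mul_mem hP (PW_mem cs (key V hP)))
        (mul_mem hQ (PW_mem cs (key V' hQ)))
      have h5 : w = w * cs.simple i * cs.simple i := by
        rw [mul_assoc, cs.simple_mul_simple_self, mul_one]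
      rw [h5]
      exact mul_mem h4 (PW_mem cs ⟨key V hP, key V' hQ⟩)

theorem PW_inter {V V' : Set B} {w : W} (h : w ∈ PW cs V) (h' : w ∈ PW cs V') :
    w ∈ PW cs (V ∩ V') := PW_inter_aux cs _ w rfl h h'

theorem Mn_unique {ι : A → B} {hι : Function.Injective ι} {v v' : W} (hv : Mn cs ι v)
    (hv' : Mn cs ι v') {a : Sh (pull M ι hι) (z0 B ∘ ι)}
    (h : v = v' * bar cs (adm0 M) ι hι a) : v = v' := by
  by_contra hne
  have hz : bar cs (adm0 M) ι hι a ≠ 1 := by
    intro h1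
    rw [h1, mul_one] at h
    exact hne h
  set z := bar cs (adm0 M) ι hι a with hzdef
  obtain ⟨i, hi⟩ : ∃ i, ¬ 0 ≤ geo cs z (ee i) := by
    by_contra hcon
    push Not at hcon
    exact hz (eq_one_of_geo cs z hcon)
  have h1 : geo cs z (ee i) ≤ 0 := (sgn cs z i).resolve_left hi
  obtain ⟨x, rfl⟩ : ∃ x, ι x = i := by
    by_contra hcon
    push Not at hcon
    have h2 := coord cs (adm0 M) ι hι a (ee i) i hcon
    have h3 := h1 i
    rw [hzdef, h2] at h3
    simp only [ee, Pi.single_eq_same, Pi.zero_apply] at h3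
    norm_num at h3
  apply geo_ee_ne_zero cs v (ι x)
  ext e
  apply le_antisymm _ (hv x e)
  rw [h, geo_mul_apply, geo_sum]
  refine Finset.sum_nonpos fun d _ => ?_
  by_cases hd : ∃ y, ι y = d
  · obtain ⟨y, rfl⟩ := hd
    exact mul_nonpos_of_nonpos_of_nonneg (h1 _) (hv' y e)
  · push Not at hd
    have h4 := coord cs (adm0 M) ι hι a (ee (ι x)) d hd
    have h5 : ee (ι x) d = (0 : ℝ) := by
      simp [ee, (hd x).symm]
    rw [hzdef, h4, h5, zero_mul]

/-- the map to the Coxeter group -/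
def co : Art M →* W :=
  Sh.lift (fun b => cs.simple b) (fun _ _ =>
    alt_comm_of_pow (cs.simple_mul_simple_self _) (cs.simple_mul_simple_self _)
      (cs.simple_mul_simple_pow _ _)) (fun _ => pow_zero _)

theorem co_gen (b : B) : co cs (g M b) = cs.simple b := Sh.lift_gen _ _ _ _

theorem co_surj {V : Set B} {v : W} (hv : v ∈ PW cs V) : ∃ u ∈ P M V, co cs u = v := by
  induction hv using Subgroup.closure_induction with
  | mem v hv =>
    obtain ⟨b, hb, rfl⟩ := hv
    exact ⟨g M b, g_mem hb, co_gen cs b⟩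
  | one => exact ⟨1, one_mem _, map_one _⟩
  | mul x y _ _ hx hy =>
    obtain ⟨u, hu, rfl⟩ := hx
    obtain ⟨u', hu', rfl⟩ := hy
    exact ⟨u * u', mul_mem hu hu', map_mul _ _ _⟩
  | inv x _ hx =>
    obtain ⟨u, hu, rfl⟩ := hx
    exact ⟨u⁻¹, inv_mem hu, map_inv _ _⟩

end cox

section track

variable {A B : Type*} [Fintype B] [DecidableEq B] {M : CoxeterMatrix B}
variable {W : Type*} [Group W] {cs : CoxeterSystem M W} {ι : A → B} {hι : Function.Injective ι}

theorem ac_right (x : Art M) : ∀ (ω : Om cs ι hι (z0 B)) (b : Sh (pull M ι hι) (z0 B ∘ ι)),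
    ac cs ι hι x (ω.1 * b, ω.2) = ((ac cs ι hι x ω).1 * b, (ac cs ι hι x ω).2) := by
  induction x using Sh.induction with
  | one => intro ω b; rw [map_one]; rfl
  | gen i =>
    rintro ⟨a, v⟩ b
    show ac cs ι hι (g M i) (a * b, v) = _
    by_cases h : ∃ x, cs.simple i * v.1 = v.1 * cs.simple (ι x)
    · obtain ⟨x, hx⟩ := h
      have h1 : ac cs ι hι (Sh.gen M (z0 B) i) (a, v) = (Sh.gen _ _ x * a, v) := ac_pos hx
      rw [ac_pos hx, h1]
      exact Prod.ext (mul_assoc _ _ _).symm rfl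
    · have h1 : ac cs ι hι (Sh.gen M (z0 B) i) (a, v) =
        (a, ⟨cs.simple i * v.1, Mn_move cs ι v.2 h⟩) := ac_neg h
      rw [ac_neg h, h1]
  | mul x y hx hy =>
    intro ω b
    rw [map_mul, Equiv.Perm.mul_apply, hy, hx, Equiv.Perm.mul_apply]
  | inv x hx =>
    intro ω b
    rw [map_inv, Equiv.Perm.inv_eq_iff_eq]
    have h := hx ((ac cs ι hι x)⁻¹ ω) b
    have h0 : ac cs ι hι x ((ac cs ι hι x)⁻¹ ω) = ω := Equiv.apply_symm_apply _ _
    rw [h0] at h
    exact h.symm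

theorem ac_tot (x : Art M) : ∀ ω : Om cs ι hι (z0 B), tot cs (adm0 M) ι hι (ac cs ι hι x ω) =
    co cs x * tot cs (adm0 M) ι hι ω := by
  induction x using Sh.induction with
  | one => intro ω; rw [map_one, map_one, one_mul]; rfl
  | gen i =>
    intro ω
    have h1 := ac_gen cs ι hι i ω
    rw [g] at h1
    rw [h1, tot_stp]
    congr 1
    exact (co_gen cs i).symm
  | mul x y hx hy =>
    intro ω
    rw [map_mul, Equiv.Perm.mul_apply, hx, hy, map_mul, mul_assoc]
  | inv x hx =>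
    intro ω
    have h := hx ((ac cs ι hι x)⁻¹ ω)
    have h0 : ac cs ι hι x ((ac cs ι hι x)⁻¹ ω) = ω := Equiv.apply_symm_apply _ _
    rw [h0] at h
    rw [map_inv, map_inv, h, inv_mul_cancel_left]

/-- the labels of the elements of a parabolic subgroup, from the base point -/
theorem tk_one {V : Set B} {x : Art M} (hx : x ∈ P M V) :
    Tk cs ι hι {a | ι a ∈ V} (PW cs V : Set W) x := by
  refine track ?_ ?_ hx
  · intro d hd v hv
    exact mul_mem (PW_mem cs hd) hv
  · intro d hd v hv a ha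
    apply mem_of_simple_mem cs
    have h1 : cs.simple (ι a) = v⁻¹ * cs.simple d * v := by
      rw [mul_assoc, ha, inv_mul_cancel_left]
    rw [h1]
    exact mul_mem (mul_mem (inv_mem hv) (PW_mem cs hd)) hv

/-- a minimal element is reached -/
theorem reach {V : Set B} {v : {v : W // Mn cs ι v}} (hv : v.1 ∈ PW cs V) :
    ∃ u ∈ P M V, ac cs ι hι u (1, ⟨1, Mn_one cs ι⟩) = (1, v) := by
  obtain ⟨u, hu, huv⟩ := co_surj cs hv
  obtain ⟨c, hc, v', hv', h⟩ := tk_one (cs := cs) (ι := ι) (hι := hι) hu 1 ⟨1, Mn_one cs ι⟩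
    (one_mem _)
  rw [mul_one] at h
  have h1 := ac_tot (cs := cs) (ι := ι) (hι := hι) u (1, ⟨1, Mn_one cs ι⟩)
  rw [h, huv, tot, tot, map_one, mul_one, mul_one] at h1
  have h2 : v = v' := Subtype.ext (Mn_unique cs v.2 v'.2 h1.symm)
  refine ⟨u * inc M (z0 B) ι hι c⁻¹, mul_mem hu ?_, ?_⟩
  · refine P_mono ?_ (inc_mem (inv_mem hc))
    rintro _ ⟨a, ha, rfl⟩
    exact ha
  · rw [map_mul, Equiv.Perm.mul_apply, ac_inc, mul_one]
    have h3 := ac_right (cs := cs) (ι := ι) (hι := hι) u (1, ⟨1, Mn_one cs ι⟩) c⁻¹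
    rw [h, one_mul, mul_inv_cancel, ← h2] at h3
    exact h3

end track

section facts

variable {B : Type*} [Fintype B] [DecidableEq B] {M : CoxeterMatrix B}

/-- the intersection of two standard parabolic subgroups -/
theorem P_inter {V Z : Set B} {x : Art M} (h : x ∈ P M V) (h' : x ∈ P M Z) : x ∈ P M (V ∩ Z) := by
  let cs := M.toCoxeterSystem
  let ι : Z → B := Subtype.val
  have hι : Function.Injective ι := Subtype.val_injective
  have hr : Set.range ι = Z := Subtype.range_coe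
  rw [← hr] at h'
  obtain ⟨a, rfl⟩ := P_range (hι := hι) h'
  obtain ⟨c, hc, v, _, e⟩ := tk_one (cs := cs) (ι := ι) (hι := hι) h 1 ⟨1, Mn_one cs ι⟩
    (one_mem _)
  rw [ac_inc, mul_one, mul_one] at e
  have h1 : a = c := congrArg Prod.fst e
  rw [h1]
  refine P_mono ?_ (inc_mem hc)
  rintro _ ⟨x, hx, rfl⟩
  exact ⟨hx, x.2⟩

/-- the product of two standard parabolic subgroups and a third one -/
theorem flag {V U Z : Set B} {l c : Art M} (hl : l ∈ P M V) (hc : c ∈ P M U)
    (hz : l * c ∈ P M Z) : ∃ a ∈ P M (V ∩ Z), ∃ b ∈ P M (U ∩ Z), l * c = a * b := by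
  let cs := M.toCoxeterSystem
  let ι : Z → B := Subtype.val
  have hι : Function.Injective ι := Subtype.val_injective
  have hr : Set.range ι = Z := Subtype.range_coe
  rw [← hr] at hz
  obtain ⟨z, hz'⟩ := P_range (hι := hι) hz
  let p1 : {v : M.Group // Mn cs ι v} := ⟨1, Mn_one cs ι⟩
  obtain ⟨π, hπ, v, hv, e1⟩ := tk_one (cs := cs) (ι := ι) (hι := hι) hc 1 p1 (one_mem _)
  rw [mul_one] at e1
  have e2 : ac cs ι hι l (π, v) = (z, p1) := by
    rw [← e1, ← Equiv.Perm.mul_apply, ← map_mul, ← hz', ac_inc, mul_one]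
  obtain ⟨r, _, v2, hv2, e3⟩ := tk_one (cs := cs) (ι := ι) (hι := hι) (inv_mem hl) z p1 (one_mem _)
  have e4 : ac cs ι hι l⁻¹ (z, p1) = (π, v) := by
    rw [map_inv, Equiv.Perm.inv_eq_iff_eq, e2]
  rw [e4] at e3
  have h1 : v = v2 := congrArg Prod.snd e3
  have hv' : v.1 ∈ PW cs (V ∩ U) := PW_inter cs (by rw [h1]; exact hv2) hv
  obtain ⟨u, hu, e5⟩ := reach (cs := cs) (ι := ι) (hι := hι) hv'
  have huV : u ∈ P M V := P_mono Set.inter_subset_left hu
  -- the first factor
  have e6 : ac cs ι hι (l * u) (1, p1) = (z * π⁻¹, p1) := by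
    have h2 := ac_right (cs := cs) (ι := ι) (hι := hι) l (π, v) π⁻¹
    rw [e2] at h2
    rw [map_mul, Equiv.Perm.mul_apply]
    have h3 : ac cs ι hι u (1, p1) = (1, v) := e5
    rw [h3]
    have h4 : ((1 : Sh (pull M ι hι) (z0 B ∘ ι)), v) = (π * π⁻¹, v) := by rw [mul_inv_cancel]
    rw [h4]
    exact h2
  obtain ⟨c2, hc2, v3, _, e7⟩ := tk_one (cs := cs) (ι := ι) (hι := hι) (mul_mem hl huV) 1 p1
    (one_mem _)
  rw [e6, mul_one] at e7
  have h5 : z * π⁻¹ = c2 := congrArg Prod.fst e7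
  refine ⟨inc M (z0 B) ι hι c2, ?_, inc M (z0 B) ι hι π, ?_, ?_⟩
  · refine P_mono ?_ (inc_mem hc2)
    rintro _ ⟨x, hx, rfl⟩
    exact ⟨hx, x.2⟩
  · refine P_mono ?_ (inc_mem hπ)
    rintro _ ⟨x, hx, rfl⟩
    exact ⟨hx, x.2⟩
  · rw [← map_mul, ← h5, inv_mul_cancel_right, hz']

/-- a single syllable with an odd exponent in an element of a parabolic subgroup -/
theorem once {V : Set B} {x : B} (hx : x ∈ V) {p q h : Art M} (hp : p ∈ P M {x}ᶜ)
    (hq : q ∈ P M {x}ᶜ) (hh : h ∈ P M V) {e : ℤ} (he : Odd e) (E : p * g M x ^ e * q = h) :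
    ∃ l ∈ P M (V ∩ {x}ᶜ), ∃ c ∈ P M {u | u ≠ x ∧ M u x = 2}, ∃ l' ∈ P M (V ∩ {x}ᶜ),
      p = l * c ∧ q = c⁻¹ * l' := by
  let cs := M.toCoxeterSystem
  let ι : {y : B // y ≠ x} → B := Subtype.val
  have hι : Function.Injective ι := Subtype.val_injective
  have hr : Set.range ι = {x}ᶜ := by
    ext y
    simp [ι]
  have hq' := hq
  rw [← hr] at hq'
  obtain ⟨q', hq''⟩ := P_range (hι := hι) hq'
  have h0 : ¬ ∃ y, cs.simple x * 1 = 1 * cs.simple (ι y) := by
    rintro ⟨y, hy⟩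
    rw [mul_one, one_mul] at hy
    exact y.2 (simple_injective cs hy).symm
  let p1 : {v : M.Group // Mn cs ι v} := ⟨1, Mn_one cs ι⟩
  let pb : {v : M.Group // Mn cs ι v} := ⟨cs.simple x * 1, Mn_move cs ι (Mn_one cs ι) h0⟩
  have a1 : ∀ a, ac cs ι hι (g M x) (a, p1) = (a, pb) := fun a => ac_neg h0
  have a2 : ∀ a, ac cs ι hι (g M x) (a, pb) = (a, p1) := by
    intro a
    rw [ac_neg (v := pb) (back cs ι h0)]
    refine Prod.ext rfl (Subtype.ext ?_)
    show cs.simple x * (cs.simple x * 1) = 1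
    rw [mul_one, cs.simple_mul_simple_self]
  have ht : Tk cs ι hι {y | M (ι y) x = 2} {v | ∃ w ∈ PW cs {x}ᶜ, v = w * cs.simple x} p := by
    refine track ?_ ?_ hp
    · rintro d hd v ⟨w, hw, rfl⟩
      exact ⟨cs.simple d * w, mul_mem (PW_mem cs hd) hw, (mul_assoc _ _ _).symm⟩
    · rintro d hd v ⟨w, hw, rfl⟩ y hy
      refine comm_of_mem cs (V := {x}ᶜ) (b := x) (x := ι y) (fun h => h rfl) y.2 ?_
      have hb := cs.simple_mul_simple_self x
      have h3 : cs.simple x * cs.simple (ι y) * cs.simple x = w⁻¹ * cs.simple d * w := by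
        calc cs.simple x * cs.simple (ι y) * cs.simple x
            = w⁻¹ * ((w * cs.simple x) * cs.simple (ι y)) * cs.simple x := by group
          _ = w⁻¹ * (cs.simple d * (w * cs.simple x)) * cs.simple x := by rw [hy]
          _ = w⁻¹ * cs.simple d * w * (cs.simple x * cs.simple x) := by group
          _ = w⁻¹ * cs.simple d * w := by rw [hb, mul_one]
      rw [h3]
      exact mul_mem (mul_mem (inv_mem hw) (PW_mem cs hd)) hw
  obtain ⟨c, hc, v', _, e1⟩ := ht q' pb ⟨1, one_mem _, by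
    show cs.simple x * 1 = 1 * cs.simple x
    rw [mul_one, one_mul]⟩
  obtain ⟨l, hl, v'', _, e2⟩ := tk_one (cs := cs) (ι := ι) (hι := hι) hh 1 p1 (one_mem _)
  have e3 : ac cs ι hι h (1, p1) = ac cs ι hι p (((ac cs ι hι (g M x)) ^ e)
      (ac cs ι hι q (1, p1))) := by
    rw [← E, map_mul, map_mul, map_zpow]
    rfl
  rw [← hq'', ac_inc, mul_one] at e3
  have e4 : ac cs ι hι h (1, p1) = ac cs ι hι p (((ac cs ι hι (g M x)) ^ e) (q', p1)) := e3
  rw [(zpow_swap _ (a1 q') (a2 q') e).2 he, e1, e2, mul_one] at e4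
  have h1 : l = c * q' := congrArg Prod.fst e4
  have hcP : inc M (z0 B) ι hι c ∈ P M {u | u ≠ x ∧ M u x = 2} := by
    refine P_mono ?_ (inc_mem hc)
    rintro _ ⟨y, hy, rfl⟩
    exact ⟨y.2, hy⟩
  have hlP : inc M (z0 B) ι hι l ∈ P M (V ∩ {x}ᶜ) := by
    refine P_mono ?_ (inc_mem hl)
    rintro _ ⟨y, hy, rfl⟩
    exact ⟨hy, y.2⟩
  set C := inc M (z0 B) ι hι c with hC
  set L := inc M (z0 B) ι hι l with hL
  have h2 : q = C⁻¹ * L := by
    rw [hL, h1, map_mul, ← hC, inv_mul_cancel_left, hq'']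
  have hCx : C ∈ P M {x}ᶜ := P_mono (fun u hu => hu.1) hcP
  have h3 : p * C⁻¹ ∈ P M (V ∩ {x}ᶜ) := by
    apply P_inter
    · have h4 : p * C⁻¹ = h * L⁻¹ * g M x ^ (-e) := by
        have h5 := comm_P hcP e
        rw [← E, h2, zpow_neg]
        rw [eq_mul_inv_iff_mul_eq, eq_mul_inv_iff_mul_eq]
        have h6 : C⁻¹ * g M x ^ e = g M x ^ e * C⁻¹ := by
          rw [inv_mul_eq_iff_eq_mul, ← mul_assoc, ← h5, mul_inv_cancel_right]
        rw [mul_assoc p, h6]
        group
      rw [h4]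
      exact mul_mem (mul_mem hh (inv_mem (P_mono Set.inter_subset_left hlP)))
        (zpow_mem (g_mem hx) _)
    · exact mul_mem hp (inv_mem hCx)
  exact ⟨p * C⁻¹, h3, C, hcP, L, hlP, (inv_mul_cancel_right _ _).symm, h2⟩

end facts

end Pool.Agent.K7.H20.AW
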