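import Pool.Agent.K7.H20.AW.Ev

/-!
# Words with at most two or three syllables of each generator
-/

set_option autoImplicit false
set_option linter.unusedSectionVars false

namespace Pool.Agent.K7.H20.AW

open Pool.Agent.Helper741 Pool.Agent.K7.H87.FJ6 CoxeterSystem
open Real

section main

variable {B : Type*} [Fintype B] [DecidableEq B] {M : CoxeterMatrix B}

variable (M) in
/-- the class of words -/
def Cl (w : List (B × ℤ)) : Prop := ∀ b, ct b w ≤ 2 ∨ (ct b w ≤ 3 ∧ ∀ x, M x b ≠ 3)

theorem Cl.mono {v w : List (B × ℤ)} (hw : Cl M w) (h : ∀ b, ct b v ≤ ct b w) : Cl M v := by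
  intro b
  have := h b
  rcases hw b with h1 | ⟨h1, h2⟩
  · exact Or.inl (by omega)
  · exact Or.inr ⟨by omega, h2⟩

theorem Cl.le {w : List (B × ℤ)} (hw : Cl M w) (b : B) : ct b w ≤ 3 := by
  rcases hw b with h1 | ⟨h1, _⟩
  · omega
  · exact h1

/-- merging -/
theorem merge {N : CoxeterMatrix B} {v : List (B × ℤ)} {b : B}
    (hv : ∀ c ∈ v, c.1 = b ∨ N c.1 b = 2) (l : ℤ) :
    val N v * g N b ^ l = g N b ^ l * val N v := by
  have h : Commute (val N v) (g N b) := by
    induction v with
    | nil => exact Commute.one_left _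
    | cons c v ih =>
      rw [val_cons]
      refine Commute.mul_left ?_ (ih fun c hc => hv c (by simp [hc]))
      apply Commute.zpow_left
      rcases hv c (by simp) with h1 | h1
      · rw [h1]
      · exact comm_gen h1
  exact (h.zpow_right l).eq

/-- a word that is not reduced can be shortened -/
theorem shorten {w : List (B × ℤ)} (hR : ¬ Rd M w) : ∃ w' : List (B × ℤ),
    w'.length < w.length ∧ (∀ b, ct b w' ≤ ct b w) ∧ val (ra M) w' = val (ra M) w := by
  rw [Rd, not_and_or] at hR
  rcases hR with hR | hR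
  · push Not at hR
    obtain ⟨⟨b, k⟩, ha, hk⟩ := hR
    have hk' : k = 0 := hk
    subst hk'
    obtain ⟨u, v, rfl⟩ := List.append_of_mem ha
    refine ⟨u ++ v, by simp, fun c => ?_, by simp⟩
    rw [ct_append, ct_append, ct_cons]
    omega
  · push Not at hR
    obtain ⟨u, v, z, b, k, l, rfl, hv⟩ := hR
    refine ⟨u ++ (b, k + l) :: (v ++ z), by simp, fun c => ?_, ?_⟩
    · rw [ct_append, ct_append, ct_cons, ct_cons, ct_append, ct_append, ct_cons]
      dsimp only
      omega
    · have hv' : ∀ c ∈ v, c.1 = b ∨ ra M c.1 b = 2 := by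
        intro c hc
        by_cases h : c.1 = b
        · exact Or.inl h
        · exact Or.inr (ra_two h (hv c hc h))
      simp only [val_append, val_cons]
      rw [← mul_assoc (val (ra M) v), merge hv', zpow_add]
      simp only [mul_assoc]

variable (M) in
/-- a minimal counterexample -/
structure Q (n : ℕ) (w : List (B × ℤ)) : Prop where
  len : w.length = n
  cl : Cl M w
  one : val M w = 1
  ne : val (ra M) w ≠ 1
  red : ∀ w', w.IsRotated w' → Rd M w'

theorem ct_rot {w w' : List (B × ℤ)} (h : w.IsRotated w') (b : B) : ct b w' = ct b w := by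
  obtain ⟨n, rfl⟩ := h
  obtain ⟨u, v, rfl, h2⟩ : ∃ u v, w = u ++ v ∧ w.rotate n = v ++ u := by
    refine ⟨w.take (n % w.length), w.drop (n % w.length), (List.take_append_drop _ _).symm, ?_⟩
    rw [List.rotate_eq_drop_append_take_mod]
  rw [h2, ct_append, ct_append, add_comm]

theorem val_rot {N : CoxeterMatrix B} {w w' : List (B × ℤ)} (h : w.IsRotated w') :
    val N w' = 1 ↔ val N w = 1 := by
  obtain ⟨n, rfl⟩ := h
  obtain ⟨u, v, rfl, h2⟩ : ∃ u v, w = u ++ v ∧ w.rotate n = v ++ u := by
    refine ⟨w.take (n % w.length), w.drop (n % w.length), (List.take_append_drop _ _).symm, ?_⟩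
    rw [List.rotate_eq_drop_append_take_mod]
  rw [h2, val_append, val_append]
  exact mul_eq_one_comm

theorem Q.rot {n : ℕ} {w w' : List (B × ℤ)} (h : Q M n w) (hr : w.IsRotated w') : Q M n w' where
  len := by
    rw [← h.len]
    exact hr.perm.length_eq.symm
  cl := h.cl.mono fun b => (ct_rot hr b).le
  one := (val_rot hr).2 h.one
  ne := fun h' => h.ne ((val_rot hr).1 h')
  red := fun w'' hw => h.red w'' (hr.trans hw)

theorem Q.rd {n : ℕ} {w : List (B × ℤ)} (h : Q M n w) : Rd M w := h.red w (List.IsRotated.refl w)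

/-- the induction hypothesis -/
def IH (M : CoxeterMatrix B) (n : ℕ) : Prop :=
  ∀ w : List (B × ℤ), w.length < n → Cl M w → val M w = 1 → val (ra M) w = 1

/-- no generator has exactly one syllable -/
theorem no_one {n : ℕ} {b : B} {a : ℤ} {r : List (B × ℤ)} (hQ : Q M n ((b, a) :: r)) :
    ct b r ≠ 0 := by
  intro h
  apply hQ.rd.1 (b, a) (by simp)
  apply pow_mem (M := M) (b := b)
  have h1 : g M b ^ a = (val M r)⁻¹ := by
    rw [eq_inv_iff_mul_eq_one]
    simpa using hQ.one
  show g M b ^ a ∈ _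
  rw [h1]
  exact inv_mem (val_mem (ct_eq_zero h))

/-- no generator has exactly two syllables -/
theorem no_two {n : ℕ} (hI : IH M n) {b : B} {a : ℤ} {r : List (B × ℤ)}
    (hQ : Q M n ((b, a) :: r)) : ct b r ≠ 1 := by
  intro h
  obtain ⟨y, l, z, rfl, hy, hz⟩ := split_one h
  have ha : a ≠ 0 := hQ.rd.1 (b, a) (by simp)
  have e : g M b ^ a * val M y * g M b ^ l = (val M z)⁻¹ := by
    rw [eq_inv_iff_mul_eq_one]
    simpa [mul_assoc] using hQ.one
  obtain ⟨hyz, hkl, hcase⟩ := two' (val_mem hy) (inv_mem (val_mem hz)) e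
  have hlen := hQ.len
  rw [List.length_cons, List.length_append, List.length_cons] at hlen
  have hctc : ∀ c, ct c (y ++ z) ≤ ct c ((b, a) :: (y ++ (b, l) :: z)) := by
    intro c
    rw [ct_cons, ct_append, ct_append, ct_cons]
    omega
  have hyz2 : val (ra M) (y ++ z) = 1 := by
    refine hI (y ++ z) (by rw [List.length_append]; omega) (hQ.cl.mono hctc) ?_
    rw [val_append, hyz, inv_mul_cancel]
  rw [val_append] at hyz2
  have hyR : Rd M y := Rd.mid (u := [(b, a)]) (z := (b, l) :: z) (by simpa using hQ.rd)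
  have hzR : Rd M z := Rd.mid (u := (b, a) :: (y ++ [(b, l)])) (z := []) (by simpa using hQ.rd)
  obtain ⟨c, hc, hcb, hc2⟩ := hQ.rd.2 [] y z b a l rfl
  obtain ⟨p, ⟨x, f⟩, r, rfl, hx, hr⟩ := split_last (fun a : B × ℤ => M a.1 b ≠ 2) y ⟨c, hc, hc2⟩
  have hx' : M x b ≠ 2 := hx
  have hxb : x ≠ b := hy (x, f) (by simp)
  have hr' : ∀ a ∈ r, M a.1 b = 2 := fun a ha => not_not.1 (hr a ha)
  have hf : f ≠ 0 := hyR.1 (x, f) (by simp)
  have hct : ct x (p ++ (x, f) :: r) = ct x z := by
    apply pt hyR hzR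
    · rw [hyz2]
      exact one_mem _
    · have h1 := hctc x
      have h2 := hQ.cl.le x
      rw [ct_append] at h1
      omega
  have hxp : ∀ a ∈ p, a.1 ≠ x := by
    apply ct_eq_zero
    have h1 := hctc x
    have h2 := hQ.cl.le x
    rw [ct_append (v := p ++ (x, f) :: r)] at h1
    rw [ct_append, ct_cons] at hct h1
    simp only [if_true] at hct h1
    omega
  have hpP : val M p ∈ P M {x}ᶜ := val_mem hxp
  have hrP : val M r ∈ P M {u | u ≠ b ∧ M u b = 2} :=
    val_mem fun a ha => ⟨hy a (by simp [ha]), hr' a ha⟩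
  have hsub : {u | u ≠ b ∧ M u b = 2} ⊆ ({x}ᶜ : Set B) := by
    rintro u ⟨_, hu⟩ rfl
    exact hx' hu
  have hyv : val M (p ++ (x, f) :: r) = val M p * g M x ^ f * val M r := by
    rw [val_append, val_cons, mul_assoc]
  rcases hcase with h1 | h1
  · apply hf
    apply pow_mem (M := M) (b := x)
    have h2 : g M x ^ f = (val M p)⁻¹ * val M (p ++ (x, f) :: r) * (val M r)⁻¹ := by
      rw [hyv]
      group
    rw [h2]
    exact mul_mem (mul_mem (inv_mem hpP) (P_mono hsub h1)) (inv_mem (P_mono hsub hrP))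
  · refine even_case hxb hx' ha hf hpP ?_
    rw [hyv] at h1
    have h2 := comm_P hrP a
    apply mul_right_cancel (b := val M r)
    rw [mul_assoc, h1, mul_assoc (val M p * g M x ^ f) (g M b ^ a), h2, mul_assoc]

/-- three syllables, the first interior part commutes with the generator -/
theorem no_comm {n : ℕ} (hI : IH M n) {b : B} {a c d : ℤ} {g1 g2 g3 : List (B × ℤ)}
    (hQ : Q M n ((b, a) :: (g1 ++ (b, c) :: (g2 ++ (b, d) :: g3))))
    (hb1 : ∀ a ∈ g1, a.1 ≠ b) (hb2 : ∀ a ∈ g2, a.1 ≠ b) (hb3 : ∀ a ∈ g3, a.1 ≠ b)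
    (h : val M g1 ∈ P M {x | x ≠ b ∧ M x b = 2}) : False := by
  have hlen := hQ.len
  simp only [List.length_cons, List.length_append] at hlen
  have h1 : val (ra M) ((b, a + c) :: (g1 ++ (g2 ++ (b, d) :: g3))) = 1 := by
    apply hI
    · simp only [List.length_cons, List.length_append]
      omega
    · apply hQ.cl.mono
      intro x
      simp only [ct_cons, ct_append]
      omega
    · rw [← hQ.one]
      simp only [val_cons, val_append]
      rw [zpow_add, mul_assoc, ← mul_assoc (g M b ^ c), comm_P h, mul_assoc]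
  have hd : d ≠ 0 := hQ.rd.1 (b, d) (by simp)
  have hg3 : Rd M g3 := Rd.mid (u := (b, a) :: (g1 ++ (b, c) :: (g2 ++ [(b, d)]))) (z := [])
    (by simpa using hQ.rd)
  have hu : val (ra M) g1 * val (ra M) g2 ∈ P (ra M) {b}ᶜ := mul_mem (val_mem hb1) (val_mem hb2)
  have h2 : g (ra M) b ^ (a + c) * (val (ra M) g1 * val (ra M) g2) * g (ra M) b ^ d *
      val (ra M) g3 = 1 := by
    rw [← h1]
    simp only [val_cons, val_append, mul_assoc]
  by_cases hac : a + c = 0
  · rw [hac, zpow_zero, one_mul] at h2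
    apply hd
    apply pow_mem (M := ra M) (b := b)
    have h3 : g (ra M) b ^ d = (val (ra M) g1 * val (ra M) g2)⁻¹ * (val (ra M) g3)⁻¹ := by
      rw [eq_mul_inv_iff_mul_eq]
      exact eq_inv_of_mul_eq_one_right (by rw [← mul_assoc]; exact h2)
    rw [h3]
    exact mul_mem (inv_mem hu) (inv_mem (val_mem hb3))
  · by_cases hul : val (ra M) g1 * val (ra M) g2 ∈ lk M b
    · have h3 : val (ra M) g3 ∈ lk M b := by
        rw [lk_comm hul, mul_assoc (val (ra M) g1 * val (ra M) g2), ← zpow_add] at h2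
        have h4 : g (ra M) b ^ (a + c + d) = (val (ra M) g1 * val (ra M) g2)⁻¹ *
            (val (ra M) g3)⁻¹ := by
          rw [eq_mul_inv_iff_mul_eq]
          exact eq_inv_of_mul_eq_one_right (by rw [← mul_assoc]; exact h2)
        have h5 : a + c + d = 0 := pow_mem (M := ra M) (b := b) (by
          rw [h4]
          exact mul_mem (inv_mem hu) (inv_mem (val_mem hb3)))
        rw [h5, zpow_zero] at h4
        have h6 : val (ra M) g3 = (val (ra M) g1 * val (ra M) g2)⁻¹ := by
          have h7 := mul_eq_one_iff_eq_inv.1 h4.symm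
          rw [inv_inv] at h7
          exact h7.symm
        rw [h6]
        exact inv_mem hul
      have hrot : Rd M ((b, d) :: (g3 ++ (b, a) :: (g1 ++ (b, c) :: g2))) := by
        apply hQ.red
        have := List.isRotated_append (l := (b, a) :: (g1 ++ (b, c) :: g2)) (l' := (b, d) :: g3)
        simpa using this
      obtain ⟨x, hx, _, hx2⟩ := hrot.2 [] g3 (g1 ++ (b, c) :: g2) b d a rfl
      exact hx2 (mem_of_red hg3 h3 x hx).2
    · exact br2 hu hul (val_mem hb3) hac hd h2

/-- three syllables: even exponents -/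
theorem three_syll {n : ℕ} (hI : IH M n) {b : B} {a : ℤ} {r : List (B × ℤ)}
    (hQ : Q M n ((b, a) :: r)) : ∃ g1 g2 g3 c d, r = g1 ++ (b, c) :: (g2 ++ (b, d) :: g3) ∧
      (∀ a ∈ g1, a.1 ≠ b) ∧ (∀ a ∈ g2, a.1 ≠ b) ∧ (∀ a ∈ g3, a.1 ≠ b) ∧
      Even a ∧ Even c ∧ Even d ∧
      val (ra M) g1 * val (ra M) g2 * val (ra M) g3 = 1 := by
  have h1 := no_one hQ
  have h2 := no_two hI hQ
  have h3 := hQ.cl b
  have h4 : ct b ((b, a) :: r) = ct b r + 1 := by rw [ct_cons]; simp
  have h5 : ct b r = 2 := by omega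
  have h6 : ∀ x, M x b ≠ 3 := by
    rcases h3 with h | h
    · omega
    · exact h.2
  obtain ⟨g1, c, g2, d, g3, rfl, hb1, hb2, hb3⟩ := split_two h5
  refine ⟨g1, g2, g3, c, d, rfl, hb1, hb2, hb3, ?_⟩
  have e : g M b ^ a * val M g1 * g M b ^ c * val M g2 * g M b ^ d * val M g3 = 1 := by
    have := hQ.one
    simpa [mul_assoc] using this
  rcases three h6 (val_mem hb1) (val_mem hb2) (val_mem hb3) e with ⟨ha, hc, hd, h⟩ | h | h | h
  · refine ⟨ha, hc, hd, ?_⟩
    have hlen := hQ.len
    simp only [List.length_cons, List.length_append] at hlen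
    have h7 : val (ra M) (g1 ++ (g2 ++ g3)) = 1 := by
      apply hI
      · simp only [List.length_append]
        omega
      · apply hQ.cl.mono
        intro x
        simp only [ct_cons, ct_append]
        omega
      · rw [← h]
        simp only [val_append, mul_assoc]
    rw [← h7]
    simp only [val_append, mul_assoc]
  · exact (no_comm hI hQ hb1 hb2 hb3 h).elim
  · have hr : ((b, a) :: (g1 ++ (b, c) :: (g2 ++ (b, d) :: g3))).IsRotated
        ((b, c) :: (g2 ++ (b, d) :: (g3 ++ (b, a) :: g1))) := by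
      have := List.isRotated_append (l := (b, a) :: g1) (l' := (b, c) :: (g2 ++ (b, d) :: g3))
      simpa using this
    exact (no_comm hI (hQ.rot hr) hb2 hb3 hb1 h).elim
  · have hr : ((b, a) :: (g1 ++ (b, c) :: (g2 ++ (b, d) :: g3))).IsRotated
        ((b, d) :: (g3 ++ (b, a) :: (g1 ++ (b, c) :: g2))) := by
      have := List.isRotated_append (l := (b, a) :: (g1 ++ (b, c) :: g2)) (l' := (b, d) :: g3)
      simpa using this
    exact (no_comm hI (hQ.rot hr) hb3 hb1 hb2 h).elim

theorem ct_pos_of_mem {b : B} {k : ℤ} {w : List (B × ℤ)} (h : (b, k) ∈ w) : 0 < ct b w :=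
  ct_pos ⟨(b, k), h, rfl⟩

theorem main_thm : ∀ (n : ℕ) (w : List (B × ℤ)), w.length = n → Cl M w → val M w = 1 →
    val (ra M) w = 1 := by
  intro n
  induction n using Nat.strong_induction_on with
  | _ n ih =>
    intro w hn hcl hw
    have hI : IH M n := fun w' hw' hc h => ih w'.length hw' w' rfl hc h
    by_contra hne
    have hsh : ∀ w', w.IsRotated w' → Rd M w' := by
      intro w' hr
      by_contra hR
      obtain ⟨v, h1, h2, h3⟩ := shorten hR
      have h4 : val (ra M) v = 1 := by
        apply hI v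
        · rw [hr.perm.length_eq] at hn
          omega
        · exact hcl.mono fun b => (h2 b).trans (ct_rot hr b).le
        · rw [← qo_val, h3, qo_val]
          exact (val_rot hr).2 hw
      exact hne ((val_rot hr).1 (h3 ▸ h4))
    have hQ : Q M n w := ⟨hn, hcl, hw, hne, hsh⟩
    -- all exponents are even
    have hE : ∀ p ∈ w, Even p.2 := by
      rintro ⟨x, k⟩ hp
      obtain ⟨u, v, rfl⟩ := List.append_of_mem hp
      have hr : (u ++ (x, k) :: v).IsRotated ((x, k) :: (v ++ u)) := by
        have := List.isRotated_append (l := u) (l' := (x, k) :: v)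
        simpa using this
      obtain ⟨_, _, _, _, _, _, _, _, _, h, _⟩ := three_syll hI (hQ.rot hr)
      exact h
    rcases w with _ | ⟨⟨b, a⟩, r⟩
    · exact hne rfl
    obtain ⟨g1, g2, g3, c, d, rfl, hb1, hb2, hb3, ha, hc, hd, hrel⟩ := three_syll hI hQ
    obtain ⟨⟨x, k⟩, hx, hxb, hx2⟩ := hQ.rd.2 [] g1 (g2 ++ (b, d) :: g3) b a c rfl
    have hxb' : x ≠ b := hxb
    have hx2' : M x b ≠ 2 := hx2
    have hg1 : Rd M g1 := Rd.mid (u := [(b, a)]) (z := (b, c) :: (g2 ++ (b, d) :: g3))
      (by simpa using hQ.rd)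
    have hg2 : Rd M g2 := Rd.mid (u := (b, a) :: (g1 ++ [(b, c)])) (z := (b, d) :: g3)
      (by simpa using hQ.rd)
    have hg3 : Rd M g3 := Rd.mid (u := (b, a) :: (g1 ++ (b, c) :: (g2 ++ [(b, d)]))) (z := [])
      (by simpa using hQ.rd)
    -- the generator `x` has three syllables
    have hx3 : ct x g1 + ct x g2 + ct x g3 = 3 := by
      obtain ⟨u, v, rfl⟩ := List.append_of_mem hx
      have hr : ((b, a) :: ((u ++ (x, k) :: v) ++ (b, c) :: (g2 ++ (b, d) :: g3))).IsRotated
          ((x, k) :: (v ++ (b, c) :: (g2 ++ (b, d) :: g3) ++ (b, a) :: u)) := by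
        have := List.isRotated_append (l := (b, a) :: u)
          (l' := (x, k) :: (v ++ (b, c) :: (g2 ++ (b, d) :: g3)))
        simpa using this
      obtain ⟨h1, h2, h3, c', d', h4, h5, h6, h7, _⟩ := three_syll hI (hQ.rot hr)
      have h8 := congrArg (ct x) h4
      have h9 : ∀ w : List (B × ℤ), (∀ a ∈ w, a.1 ≠ x) → ct x w = 0 := by
        intro w hw
        apply List.count_eq_zero.2
        intro hx
        obtain ⟨a, ha, hax⟩ := List.mem_map.1 hx
        exact hw a ha hax
      simp only [ct_append, ct_cons, h9 h1 h5, h9 h2 h6, h9 h3 h7, if_neg hxb'.symm,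
        if_true] at h8 ⊢
      omega
    have hz : ∀ w : List (B × ℤ), ct x w = 0 → val (ra M) w ∈ P (ra M) {x}ᶜ := fun w hw =>
      val_mem (ct_eq_zero hw)
    have k1 : ct x g1 ≠ 0 := by
      intro h0
      have h1 : val (ra M) g2 * val (ra M) g3 ∈ P (ra M) {x}ᶜ := by
        have h2 : val (ra M) g2 * val (ra M) g3 = (val (ra M) g1)⁻¹ := by
          apply eq_inv_of_mul_eq_one_right
          rw [← mul_assoc]
          exact hrel
        rw [h2]
        exact inv_mem (hz g1 h0)
      have := pt hg2 hg3 h1 (by omega)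
      omega
    have k2 : ct x g2 ≠ 0 := by
      intro h0
      have h1 : val (ra M) g3 * val (ra M) g1 ∈ P (ra M) {x}ᶜ := by
        have h2 : val (ra M) g3 * val (ra M) g1 = (val (ra M) g2)⁻¹ := by
          have h3 : val (ra M) g1 * val (ra M) g2 = (val (ra M) g3)⁻¹ :=
            eq_inv_iff_mul_eq_one.2 hrel
          have h4 : val (ra M) g1 = (val (ra M) g3)⁻¹ * (val (ra M) g2)⁻¹ :=
            eq_mul_inv_iff_mul_eq.2 h3
          rw [h4, mul_inv_cancel_left]
        rw [h2]
        exact inv_mem (hz g2 h0)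
      have := pt hg3 hg1 h1 (by omega)
      omega
    have k3 : ct x g3 ≠ 0 := by
      intro h0
      have h1 : val (ra M) g1 * val (ra M) g2 ∈ P (ra M) {x}ᶜ := by
        have h3 : val (ra M) g1 * val (ra M) g2 = (val (ra M) g3)⁻¹ :=
            eq_inv_iff_mul_eq_one.2 hrel
        rw [h3]
        exact inv_mem (hz g3 h0)
      have := pt hg1 hg2 h1 (by omega)
      omega
    refine no_six (b := b) (x := x) hxb'.symm (by rw [M.symmetric]; exact hx2') hQ.rd.1 hE hb1 hb2
      hb3 (by omega) (by omega) (by omega) hw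

end main

end Pool.Agent.K7.H20.AW
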