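import Pool.Agent.K7.H20.AW.C12
import Pool.Agent.K7.H20.AW.Main

/-!
# Words with at most two syllables of each generator outside a set with labels two and infinity
-/

set_option autoImplicit false
set_option linter.unusedSectionVars false

namespace Pool.Agent.K7.H20.AW

open Pool.Agent.Helper741 Pool.Agent.K7.H87.FJ6 CoxeterSystem

section kill

variable {B : Type*} [DecidableEq B] {M : CoxeterMatrix B}

/-- kill the generators outside `L` -/
def kl (L : Finset B) : Art (ra M) →* Art (ra M) :=
  Sh.lift (fun b => if b ∈ L then g (ra M) b else 1) (lift_ok _ fun i j hij h => by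
    split_ifs
    · exact comm_gen (ra_two hij h)
    · rw [one_mul, mul_one]
    · rw [one_mul, mul_one]
    · rfl) (fun _ => pow_zero _)

theorem kl_g (L : Finset B) (b : B) : kl (M := M) L (g (ra M) b) = if b ∈ L then g (ra M) b else 1 :=
  Sh.lift_gen _ _ _ _

theorem kl_val (L : Finset B) (w : List (B × ℤ)) :
    kl L (val (ra M) w) = val (ra M) (w.filter fun a => a.1 ∈ L) := by
  induction w with
  | nil => exact map_one _
  | cons p w ih =>
    rw [val_cons, map_mul, ih, map_zpow, kl_g]
    by_cases h : p.1 ∈ L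
    · rw [if_pos h, List.filter_cons_of_pos (by simpa using h), val_cons]
    · rw [if_neg h, one_zpow, one_mul, List.filter_cons_of_neg (by simpa using h)]

theorem kl_mem (L : Finset B) (x : Art (ra M)) : kl L x ∈ P (ra M) (L : Set B) := by
  induction x using Sh.induction with
  | one => rw [map_one]; exact one_mem _
  | gen b =>
    have h := kl_g (M := M) L b
    change kl L (g (ra M) b) ∈ _
    rw [h]
    split_ifs with hb
    · exact g_mem hb
    · exact one_mem _
  | mul x y hx hy => rw [map_mul]; exact mul_mem hx hy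
  | inv x hx => rw [map_inv]; exact inv_mem hx

theorem kl_mem' (L : Finset B) {V : Set B} {x : Art (ra M)} (hx : x ∈ P (ra M) V) :
    kl L x ∈ P (ra M) V := by
  induction hx using Subgroup.closure_induction with
  | mem x hx =>
    obtain ⟨b, hb, rfl⟩ := hx
    rw [kl_g]
    split_ifs
    · exact g_mem hb
    · exact one_mem _
  | one => rw [map_one]; exact one_mem _
  | mul x y _ _ hx hy => rw [map_mul]; exact mul_mem hx hy
  | inv x _ hx => rw [map_inv]; exact inv_mem hx

theorem kl_fix (L : Finset B) {x : Art (ra M)} (hx : x ∈ P (ra M) (L : Set B)) : kl L x = x := by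
  induction hx using Subgroup.closure_induction with
  | mem x hx =>
    obtain ⟨b, hb, rfl⟩ := hx
    rw [kl_g, if_pos (Finset.mem_coe.1 hb)]
  | one => rw [map_one]
  | mul x y _ _ hx hy => rw [map_mul, hx, hy]
  | inv x _ hx => rw [map_inv, hx]

theorem mem_word {N : CoxeterMatrix B} {V : Set B} {x : Art N} (hx : x ∈ P N V) :
    ∃ w : List (B × ℤ), (∀ a ∈ w, a.1 ∈ V) ∧ val N w = x := by
  have hinv : ∀ w : List (B × ℤ), (∀ a ∈ w, a.1 ∈ V) →
      ∃ w' : List (B × ℤ), (∀ a ∈ w', a.1 ∈ V) ∧ val N w' = (val N w)⁻¹ := by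
    intro w
    induction w with
    | nil => exact fun _ => ⟨[], by simp, by simp⟩
    | cons p w ih =>
      intro h
      obtain ⟨w', h1, h2⟩ := ih fun a ha => h a (by simp [ha])
      refine ⟨w' ++ [(p.1, -p.2)], ?_, ?_⟩
      · intro a ha
        rcases List.mem_append.1 ha with h3 | h3
        · exact h1 a h3
        · rw [List.mem_singleton.1 h3]
          exact h p (by simp)
      · rw [val_append, val_cons, val_nil, h2, val_cons, mul_inv_rev, zpow_neg, mul_one]
  induction hx using Subgroup.closure_induction with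
  | mem x hx =>
    obtain ⟨b, hb, rfl⟩ := hx
    exact ⟨[(b, 1)], by simpa using hb, by simp⟩
  | one => exact ⟨[], by simp, by simp⟩
  | mul x y _ _ hx hy =>
    obtain ⟨w1, h1, rfl⟩ := hx
    obtain ⟨w2, h2, rfl⟩ := hy
    refine ⟨w1 ++ w2, ?_, by simp⟩
    intro a ha
    rcases List.mem_append.1 ha with h3 | h3
    · exact h1 a h3
    · exact h2 a h3
  | inv x _ hx =>
    obtain ⟨w, h1, rfl⟩ := hx
    exact hinv w h1

end kill

section main

variable {B : Type*} [Fintype B] [DecidableEq B] {M : CoxeterMatrix B}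

theorem red_ex : ∀ (n : ℕ) (w : List (B × ℤ)), w.length = n → ∃ w' : List (B × ℤ), Rd M w' ∧
    (∀ c, ct c w' ≤ ct c w) ∧ val (ra M) w' = val (ra M) w := by
  intro n
  induction n using Nat.strong_induction_on with
  | _ n ih =>
    intro w hn
    by_cases hR : Rd M w
    · exact ⟨w, hR, fun _ => le_rfl, rfl⟩
    · obtain ⟨w', h1, h2, h3⟩ := shorten hR
      obtain ⟨w'', h4, h5, h6⟩ := ih w'.length (by omega) w' rfl
      exact ⟨w'', h4, fun c => (h5 c).trans (h2 c), h6.trans h3⟩

/-- one syllable of a generator in an element of a parabolic subgroup of a right-angled group -/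
theorem once_ra {L : Finset B} {x : B} {p q h : Art (ra M)} (hp : p ∈ P (ra M) {x}ᶜ)
    (hq : q ∈ P (ra M) {x}ᶜ) (hh : h ∈ P (ra M) (L : Set B)) {e : ℤ} (he : e ≠ 0)
    (E : p * g (ra M) x ^ e * q = h) :
    x ∈ L ∧ ∃ l ∈ P (ra M) (L : Set B), ∃ c ∈ lk M x, ∃ l' ∈ P (ra M) (L : Set B),
      p = l * c ∧ q = c⁻¹ * l' := by
  have hxL : x ∈ L := by
    by_contra hx
    apply he
    apply pow_mem (M := ra M) (b := x)
    have h1 : g (ra M) x ^ e = p⁻¹ * h * q⁻¹ := by
      rw [← E]
      group
    rw [h1]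
    refine mul_mem (mul_mem (inv_mem hp) (P_mono ?_ hh)) (inv_mem hq)
    rintro u hu rfl
    exact hx hu
  have E' := congrArg (kl L) E
  rw [map_mul, map_mul, map_zpow, kl_g, if_pos hxL, kl_fix L hh, ← E] at E'
  set l := kl L p with hl
  set l' := kl L q with hl'
  have hlx : l ∈ P (ra M) {x}ᶜ := kl_mem' L hp
  have hlx' : l' ∈ P (ra M) {x}ᶜ := kl_mem' L hq
  have e1 : (l⁻¹ * p) * g (ra M) x ^ e * (q * l'⁻¹) = g (ra M) x ^ e := by
    have : (l⁻¹ * p) * g (ra M) x ^ e * (q * l'⁻¹) = l⁻¹ * (p * g (ra M) x ^ e * q) * l'⁻¹ := by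
      group
    rw [this, ← E']
    group
  have hc : l⁻¹ * p ∈ lk M x := by
    by_contra hc
    refine br2 (mul_mem (inv_mem hlx) hp) hc (mul_mem hq (inv_mem hlx')) (neg_ne_zero.2 he) he ?_
    have : g (ra M) x ^ (-e) * (l⁻¹ * p) * g (ra M) x ^ e * (q * l'⁻¹) =
        (g (ra M) x ^ e)⁻¹ * ((l⁻¹ * p) * g (ra M) x ^ e * (q * l'⁻¹)) := by
      rw [zpow_neg]
      group
    rw [this, e1, inv_mul_cancel]
  refine ⟨hxL, l, kl_mem L p, l⁻¹ * p, hc, l', kl_mem L q, by group, ?_⟩
  rw [← lk_comm hc, mul_assoc] at e1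
  have e2 := mul_eq_left.1 e1
  have e3 : q * l'⁻¹ = (l⁻¹ * p)⁻¹ := (inv_eq_of_mul_eq_one_right e2).symm
  rw [← e3, inv_mul_cancel_right]

/-- a generator can be removed from an element that commutes with a power of another one -/
theorem remove {b x : B} (hbx : b ≠ x) {k e : ℤ} {p q : Art M} (hp : p ∈ P M {x}ᶜ)
    (hq : q ∈ P M {x}ᶜ)
    (h : g M b ^ k * (p * g M x ^ e * q) = (p * g M x ^ e * q) * g M b ^ k) :
    g M b ^ k * (p * q) = (p * q) * g M b ^ k := by
  have hb : g M b ^ k ∈ P M {x}ᶜ := zpow_mem (g_mem hbx) _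
  have e1 : g M x ^ e * (q * g M b ^ k * q⁻¹) * g M x ^ (-e) = p⁻¹ * g M b ^ k * p := by
    have h1 : g M x ^ e * (q * g M b ^ k * q⁻¹) * g M x ^ (-e) =
        p⁻¹ * ((p * g M x ^ e * q) * g M b ^ k) * q⁻¹ * g M x ^ (-e) := by group
    rw [h1, ← h]
    group
  obtain ⟨h1, _, _⟩ := two' (mul_mem (mul_mem hq hb) (inv_mem hq))
    (mul_mem (mul_mem (inv_mem hp) hb) hp) e1
  have h2 : (p * q) * g M b ^ k = p * (q * g M b ^ k * q⁻¹) * q := by group
  rw [h2, h1]
  group

variable {Y : Finset B}

/-- the number of the syllables outside `Y` -/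
abbrev no (Y : Finset B) (w : List (B × ℤ)) : ℕ := (w.filter fun a => a.1 ∉ Y).length

theorem no_append (u v : List (B × ℤ)) : no Y (u ++ v) = no Y u + no Y v := by
  rw [no, List.filter_append, List.length_append]

theorem no_cons {x : B} (hx : x ∉ Y) (e : ℤ) (v : List (B × ℤ)) :
    no Y ((x, e) :: v) = no Y v + 1 := by
  rw [no, List.filter_cons_of_pos (by simpa using hx), List.length_cons]

theorem c1' (hY : ∀ s ∈ Y, ∀ t ∈ Y, s ≠ t → M s t = 2 ∨ M s t = 0) {x : B} (hx : x ∉ Y)
    {y : List (B × ℤ)} (hy : ∀ p ∈ y, p.1 ∈ Y) {k : ℤ} (hk : k ≠ 0)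
    (h : g M x ^ k * val M y = val M y * g M x ^ k) : val (ra M) y ∈ lk M x := by
  obtain ⟨y', h1, h2, h3⟩ := red_ex y.length y rfl
  have hM : val M y' = val M y := by rw [← qo_val y', h3, qo_val]
  rw [← h3]
  refine c1 hY hx (fun p hp => ?_) h1 hk (by rw [hM]; exact h)
  by_contra hpY
  have h4 := h2 p.1
  have h5 : 0 < ct p.1 y' := ct_pos ⟨p, hp, rfl⟩
  have h6 : 0 < ct p.1 y := by omega
  obtain ⟨q, hq, hqp⟩ := List.mem_map.1 (List.count_pos_iff.1 h6)
  exact hpY (hqp ▸ hy q hq)

theorem c2' (hY : ∀ s ∈ Y, ∀ t ∈ Y, s ≠ t → M s t = 2 ∨ M s t = 0) {b x : B} (hb : b ∉ Y)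
    (hx : x ∉ Y) (hbx : b ≠ x) {z : Art (ra M)} (hz : z ∈ P (ra M) (Y : Set B)) {k e : ℤ}
    (hk : k ≠ 0) (he : e ≠ 0)
    (h : g M b ^ k * (qo z * g M x ^ e * (qo z)⁻¹) = (qo z * g M x ^ e * (qo z)⁻¹) * g M b ^ k) :
    M x b = 2 ∧ ∃ p ∈ lk M b, ∃ q ∈ lk M x, z = p * q := by
  obtain ⟨y, hy, rfl⟩ := mem_word hz
  obtain ⟨y', h1, h2, h3⟩ := red_ex (M := M) y.length y rfl
  rw [← h3] at h ⊢
  rw [qo_val] at h
  refine c2 hY hb hx hbx (fun p hp => ?_) h1 hk he h
  by_contra hpY
  have h4 := h2 p.1
  have h5 : 0 < ct p.1 y' := ct_pos ⟨p, hp, rfl⟩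
  have h6 : 0 < ct p.1 y := by omega
  obtain ⟨q, hq, hqp⟩ := List.mem_map.1 (List.count_pos_iff.1 h6)
  exact hpY (hqp ▸ hy q hq)

/-- the main lemma: elements that commute with a power of a generator -/
theorem cent_word (hY : ∀ s ∈ Y, ∀ t ∈ Y, s ≠ t → M s t = 2 ∨ M s t = 0) {b : B} (hb : b ∉ Y)
    {k : ℤ} (hk : k ≠ 0) : ∀ (n : ℕ) (y : List (B × ℤ)), no Y y = n → (∀ a ∈ y, a.1 ≠ b) →
    (∀ x, x ∉ Y → ct x y ≤ 1) → g M b ^ k * val M y = val M y * g M b ^ k →
    val (ra M) y ∈ lk M b := by
  intro n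
  induction n using Nat.strong_induction_on with
  | _ n ih =>
    intro y hn hyb hct h
    by_cases h0 : ∃ a ∈ y, a.1 ∉ Y
    swap
    · push Not at h0
      exact c1' hY hb h0 hk h
    obtain ⟨p, ⟨x, e⟩, q, rfl, hx', hp⟩ := split_first (fun a : B × ℤ => a.1 ∉ Y) y h0
    have hx : x ∉ Y := hx'
    have hxb : x ≠ b := hyb (x, e) (by simp)
    have hpx : ∀ a ∈ p, a.1 ≠ x := fun a ha (h' : a.1 = x) => hp a ha (h' ▸ hx)
    have hqx : ∀ a ∈ q, a.1 ≠ x := by
      apply ct_eq_zero
      have := hct x hx
      rw [ct_append, ct_cons] at this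
      simp only [if_true] at this
      omega
    rw [no_append, no_cons hx] at hn
    have hval : val M (p ++ (x, e) :: q) = val M p * g M x ^ e * val M q := by
      rw [val_append, val_cons, mul_assoc]
    have hval' : val (ra M) (p ++ (x, e) :: q) = val (ra M) p * g (ra M) x ^ e * val (ra M) q := by
      rw [val_append, val_cons, mul_assoc]
    have hmem : ∀ c, ct c (p ++ q) ≤ ct c (p ++ (x, e) :: q) := by
      intro c
      rw [ct_append, ct_append, ct_cons]
      omega
    have hrem : g M b ^ k * val M (p ++ q) = val M (p ++ q) * g M b ^ k := by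
      rw [val_append]
      rw [hval] at h
      exact remove hxb.symm (val_mem hpx) (val_mem hqx) h
    have hpq : val (ra M) (p ++ q) ∈ lk M b := ih _ (by rw [← hn, no_append]; omega) (p ++ q) rfl
      (fun a ha => hyb a (by
        rcases List.mem_append.1 ha with h' | h'
        · simp [h']
        · simp [h'])) (fun c hc => (hmem c).trans (hct c hc)) hrem
    by_cases he : e = 0
    · rw [hval', he, zpow_zero, mul_one, ← val_append]
      exact hpq
    by_cases h1 : ∃ a ∈ q, a.1 ∉ Y
    · obtain ⟨v, ⟨x', f⟩, t, rfl, hx2, hv⟩ := split_first (fun a : B × ℤ => a.1 ∉ Y) q h1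
      have hx'Y : x' ∉ Y := hx2
      have hx'x : x' ≠ x := hqx (x', f) (by simp)
      have hx'b : x' ≠ b := hyb (x', f) (by simp)
      have hc' := hct x' hx'Y
      rw [ct_append, ct_cons, ct_append, ct_cons] at hc'
      simp only [if_true] at hc'
      have hpx' : ∀ a ∈ p, a.1 ≠ x' := ct_eq_zero (by omega)
      have hvx' : ∀ a ∈ v, a.1 ≠ x' := ct_eq_zero (by omega)
      have htx' : ∀ a ∈ t, a.1 ≠ x' := ct_eq_zero (by omega)
      have hvx : ∀ a ∈ v, a.1 ≠ x := fun a ha => hqx a (by simp [ha])
      have htx : ∀ a ∈ t, a.1 ≠ x := fun a ha => hqx a (by simp [ha])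
      have hrem' : g M b ^ k * val M (p ++ (x, e) :: (v ++ t)) =
          val M (p ++ (x, e) :: (v ++ t)) * g M b ^ k := by
        have h3 : val M (p ++ (x, e) :: (v ++ (x', f) :: t)) =
            val M (p ++ (x, e) :: v) * g M x' ^ f * val M t := by
          simp only [val_append, val_cons, mul_assoc]
        rw [h3] at h
        have h4 := remove hx'b.symm (val_mem (w := p ++ (x, e) :: v) (V := {x'}ᶜ) (by
          intro a ha
          simp only [List.mem_append, List.mem_cons] at ha
          rcases ha with h5 | rfl | h5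
          · exact hpx' a h5
          · exact hx'x.symm
          · exact hvx' a h5)) (val_mem htx') h
        have h5 : val M (p ++ (x, e) :: (v ++ t)) = val M (p ++ (x, e) :: v) * val M t := by
          simp only [val_append, val_cons, mul_assoc]
        rw [h5]
        exact h4
      have hpq' : val (ra M) (p ++ (x, e) :: (v ++ t)) ∈ lk M b := by
        refine ih _ ?_ (p ++ (x, e) :: (v ++ t)) rfl (fun a ha => hyb a ?_) (fun c hc => ?_) hrem'
        · rw [no_append, no_cons hx, no_append]
          rw [no_append, no_cons hx'Y] at hn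
          omega
        · simp only [List.mem_append, List.mem_cons] at ha ⊢
          tauto
        · refine le_trans ?_ (hct c hc)
          simp only [ct_append, ct_cons]
          omega
      by_cases hf : f = 0
      · rw [hf, val_append, val_cons, val_append, val_cons, zpow_zero, one_mul, ← val_append,
          ← val_cons, ← val_append]
        exact hpq'
      set L : Finset B := Finset.univ.filter fun u => u ≠ b ∧ M u b = 2 with hL
      have hLs : (L : Set B) = {u | u ≠ b ∧ M u b = 2} := by
        ext u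
        simp [hL]
      rw [lk, ← hLs] at hpq hpq' ⊢
      obtain ⟨hxL', l1, hl1, c1, hc1, l1', hl1', e1, e2⟩ := once_ra (x := x')
        (p := val (ra M) p * val (ra M) v) (q := val (ra M) t)
        (mul_mem (val_mem hpx') (val_mem hvx')) (val_mem htx') hpq hf (by
          simp only [val_append, val_cons, mul_assoc])
      obtain ⟨hxL, l2, hl2, c2, hc2, l2', hl2', e3, e4⟩ := once_ra (x := x)
        (p := val (ra M) p) (q := val (ra M) v * val (ra M) t)
        (val_mem hpx) (mul_mem (val_mem hvx) (val_mem htx)) hpq' he (by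
          simp only [val_append, val_cons, mul_assoc])
      have e5 : c2 * val (ra M) v = l2⁻¹ * l1 * c1 := by
        rw [e3, mul_assoc] at e1
        rw [mul_assoc, ← e1, inv_mul_cancel_left]
      have e6 : val (ra M) (p ++ (x, e) :: (v ++ (x', f) :: t)) =
          l2 * g (ra M) x ^ e * l2⁻¹ * l1 * g (ra M) x' ^ f * l1' := by
        have e7 := lk_comm hc2 e
        have e8 := lk_comm hc1 f
        calc val (ra M) (p ++ (x, e) :: (v ++ (x', f) :: t))
            = l2 * (c2 * g (ra M) x ^ e) * val (ra M) v * g (ra M) x' ^ f * (c1⁻¹ * l1') := by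
              simp only [val_append, val_cons, e3, e2, mul_assoc]
          _ = l2 * g (ra M) x ^ e * (c2 * val (ra M) v) * g (ra M) x' ^ f * (c1⁻¹ * l1') := by
              rw [← e7]
              simp only [mul_assoc]
          _ = l2 * g (ra M) x ^ e * l2⁻¹ * l1 * (c1 * g (ra M) x' ^ f) * (c1⁻¹ * l1') := by
              rw [e5]
              simp only [mul_assoc]
          _ = l2 * g (ra M) x ^ e * l2⁻¹ * l1 * g (ra M) x' ^ f * l1' := by
              rw [← e8]
              group
      rw [e6]
      exact mul_mem (mul_mem (mul_mem (mul_mem (mul_mem hl2 (zpow_mem (g_mem hxL) _)) (inv_mem hl2))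
        hl1) (zpow_mem (g_mem hxL') _)) hl1'
    · push Not at h1
      set z := (val (ra M) q)⁻¹ with hz
      have hqo : qo z = (val M q)⁻¹ := by rw [hz, map_inv, qo_val]
      have hzY : z ∈ P (ra M) (Y : Set B) := inv_mem (val_mem h1)
      rw [hval] at h
      rw [val_append] at hrem
      obtain ⟨h2, p', hp', q', hq', e1⟩ := c2' hY hb hx hxb.symm hzY hk he (by
        rw [hqo, inv_inv]
        have h3 : (val M q)⁻¹ * g M x ^ e * val M q =
            (val M p * val M q)⁻¹ * (val M p * g M x ^ e * val M q) := by group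
        rw [h3]
        have h4 : Commute (g M b ^ k) (val M p * val M q) := hrem
        have h5 : Commute (g M b ^ k) (val M p * g M x ^ e * val M q) := h
        exact (h4.inv_right.mul_right h5).eq)
      have e2 : val (ra M) (p ++ (x, e) :: q) = val (ra M) (p ++ q) * (p' * g (ra M) x ^ e * p'⁻¹) := by
        have e3 := lk_comm hq' e
        have e4 : z * g (ra M) x ^ e * z⁻¹ = p' * g (ra M) x ^ e * p'⁻¹ := by
          rw [e1, mul_inv_rev, mul_assoc p' q', ← e3]
          group
        rw [← e4, hz, hval', val_append]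
        group
      rw [e2]
      exact mul_mem hpq (mul_mem (mul_mem hp' (zpow_mem (g_mem (show x ∈ {u | u ≠ b ∧ M u b = 2} from ⟨hxb, h2⟩)) _)) (inv_mem hp'))

theorem dec_ra (hY : ∀ s ∈ Y, ∀ t ∈ Y, s ≠ t → M s t = 2 ∨ M s t = 0) : decouple M Y = ra M := by
  ext i j
  show decouple M Y i j = ra M i j
  rw [dec_apply, ra_apply]
  by_cases hij : i = j
  · rw [if_pos hij, if_pos hij]
  rw [if_neg hij, if_neg hij]
  by_cases h2 : M i j = 2
  · rw [if_pos (Or.inl h2), if_pos h2, h2]
  · rw [if_neg h2]
    split_ifs with h3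
    · rcases h3 with h3 | ⟨h3, h4⟩
      · exact absurd h3 h2
      · exact (hY i h3 j h4 hij).resolve_left h2
    · rfl

theorem inj_Y (hY : ∀ s ∈ Y, ∀ t ∈ Y, s ≠ t → M s t = 2 ∨ M s t = 0) {w : List (B × ℤ)}
    (hw : ∀ a ∈ w, a.1 ∈ Y) (h : val M w = 1) : val (ra M) w = 1 := by
  have h1 : val (decouple M Y) w = 1 := by
    refine dY_inj (M := M) (Y := Y) (val_mem hw) (one_mem _) ?_
    rw [dq_val, h, map_one]
  rw [dec_ra hY] at h1
  exact h1

/-- words with at most two syllables of each generator outside `Y` -/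
theorem fm (hY : ∀ s ∈ Y, ∀ t ∈ Y, s ≠ t → M s t = 2 ∨ M s t = 0) :
    ∀ (n : ℕ) (w : List (B × ℤ)), no Y w = n → (∀ x, x ∉ Y → ct x w ≤ 2) → val M w = 1 →
    val (ra M) w = 1 := by
  intro n
  induction n using Nat.strong_induction_on with
  | _ n ih =>
    intro w hn hct h
    by_cases h0 : ∃ a ∈ w, a.1 ∉ Y
    swap
    · push Not at h0
      exact inj_Y hY h0 h
    obtain ⟨u, ⟨b, k⟩, v, rfl, hb', hu⟩ := split_first (fun a : B × ℤ => a.1 ∉ Y) w h0
    have hb : b ∉ Y := hb'
    have hub : ct b u = 0 := by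
      apply List.count_eq_zero.2
      intro hx
      obtain ⟨a, ha, hax⟩ := List.mem_map.1 hx
      exact hu a ha (hax ▸ hb)
    rw [no_append, no_cons hb] at hn
    have hcts : ∀ c, ct c (v ++ u) + (if b = c then 1 else 0) = ct c (u ++ (b, k) :: v) := by
      intro c
      simp only [ct_append, ct_cons]
      omega
    have hrot : g M b ^ k * val M (v ++ u) = 1 := by
      have h1 : g M b ^ k * val M (v ++ u) = (val M u)⁻¹ * val M (u ++ (b, k) :: v) * val M u := by
        simp only [val_append, val_cons]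
        group
      rw [h1, h]
      group
    suffices hgoal : g (ra M) b ^ k * val (ra M) (v ++ u) = 1 by
      have h1 : val (ra M) (u ++ (b, k) :: v) =
          val (ra M) u * (g (ra M) b ^ k * val (ra M) (v ++ u)) * (val (ra M) u)⁻¹ := by
        simp only [val_append, val_cons]
        group
      rw [h1, hgoal]
      group
    by_cases hk : k = 0
    · rw [hk, zpow_zero, one_mul] at hrot ⊢
      refine ih _ ?_ (v ++ u) rfl (fun x hx => ?_) hrot
      · rw [no_append]
        omega
      · have := hct x hx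
        have := hcts x
        omega
    have hcb : ct b (v ++ u) ≤ 1 := by
      have h1 := hct b hb
      have h2 := hcts b
      rw [if_pos rfl] at h2
      omega
    rcases Nat.eq_zero_or_pos (ct b (v ++ u)) with h1 | h1
    · exfalso
      apply hk
      apply pow_mem (M := M) (b := b)
      rw [eq_inv_of_mul_eq_one_left hrot]
      exact inv_mem (val_mem (ct_eq_zero h1))
    have hno : no Y (v ++ u) + 1 = n := by
      rw [no_append]
      omega
    obtain ⟨y, l, z, hr, hy, hz⟩ := split_one (x := b) (u := v ++ u) (by omega)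
    have hcts' : ∀ x, x ∉ Y → ct x y + ct x z ≤ 2 := by
      intro x hx
      have h2 := hct x hx
      rw [← hcts x, hr, ct_append, ct_cons] at h2
      omega
    rw [hr] at hrot hno ⊢
    rw [no_append, no_cons hb] at hno
    have e : g M b ^ k * val M y * g M b ^ l = (val M z)⁻¹ := by
      rw [eq_inv_iff_mul_eq_one]
      simpa [mul_assoc] using hrot
    obtain ⟨hyz, hkl, hcase⟩ := two' (val_mem hy) (inv_mem (val_mem hz)) e
    have hcomm : g M b ^ k * val M y = val M y * g M b ^ k := by
      rcases hcase with h2 | h2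
      · exact comm_P h2 k
      · exact h2
    have hyz1 : val M (y ++ z) = 1 := by
      rw [val_append, hyz, inv_mul_cancel]
    have hyz2 : val (ra M) (y ++ z) = 1 := by
      refine ih _ ?_ (y ++ z) rfl (fun x hx => ?_) hyz1
      · rw [no_append]
        omega
      · rw [ct_append]
        exact hcts' x hx
    rw [val_append] at hyz2
    set L : Finset B := Finset.univ.filter fun x => x ∈ Y ∨ 0 < ct x z with hL
    have hzL : z.filter (fun a => a.1 ∈ L) = z := by
      rw [List.filter_eq_self]
      intro a ha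
      have : 0 < ct a.1 z := ct_pos ⟨a, ha, rfl⟩
      simp [hL, this]
    have hyL : val (ra M) y = val (ra M) (y.filter fun a => a.1 ∈ L) := by
      have h4 := congrArg (kl (M := M) L) hyz2
      rw [map_mul, kl_val, kl_val, map_one, hzL] at h4
      rw [mul_eq_one_iff_eq_inv] at h4 hyz2
      rw [hyz2, h4]
    have hyM : val M y = val M (y.filter fun a => a.1 ∈ L) := by
      rw [← qo_val (M := M) y, hyL, qo_val]
    have hylk : val (ra M) y ∈ lk M b := by
      rw [hyL]
      refine cent_word hY hb hk _ _ rfl (fun a ha => hy a (List.mem_of_mem_filter ha))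
        (fun x hx => ?_) (by rw [← hyM]; exact hcomm)
      by_cases hxz : 0 < ct x z
      · have h5 := hcts' x hx
        have h6 : ct x (y.filter fun a => a.1 ∈ L) ≤ ct x y := by
          apply List.Sublist.count_le
          exact (List.filter_sublist).map _
        omega
      · have h6 : ct x (y.filter fun a => a.1 ∈ L) = 0 := by
          apply List.count_eq_zero.2
          intro hmem
          obtain ⟨a, ha, hax⟩ := List.mem_map.1 hmem
          have h7 := (List.mem_filter.1 ha).2
          simp only [hL, Finset.mem_filter, Finset.mem_univ, true_and, decide_eq_true_eq] at h7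
          rw [hax] at h7
          rcases h7 with h7 | h7
          · exact hx h7
          · exact hxz h7
        omega
    rw [val_append, val_cons, ← mul_assoc, lk_comm hylk, mul_assoc, ← mul_assoc (g (ra M) b ^ k),
      ← zpow_add, hkl, zpow_zero, one_mul, hyz2]

end main

end Pool.Agent.K7.H20.AW
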