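import Pool.Agent.K7.H20.AW.Br

/-!
# Counting the chains of a word with given letters

`NN M β w a m` is the sum over the chains of the word `w` whose letters are `a` and then those of `m`, of the
product of the exponents, times `β` of the last letter. For a reduced word, the chains of maximal length
do not cancel.
-/

set_option autoImplicit false
set_option linter.unusedSectionVars false

namespace Pool.Agent.K7.H20.AW

open Pool.Agent.Helper741 Pool.Agent.K7.H87.FJ6 CoxeterSystem

variable {B : Type*} [DecidableEq B]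

/-- the weighted number of the chains -/
def NN (M : CoxeterMatrix B) (β : B → ℝ) : List (B × ℤ) → B → List B → ℝ
  | [], _, _ => 0
  | (s, k) :: w, a, m => NN M β w a m + if a = s then (k : ℝ) * (match m with
    | [] => β s
    | t :: m' => if t ≠ s ∧ M t s ≠ 2 then NN M β w t m' else 0) else 0

variable {M : CoxeterMatrix B} {β : B → ℝ}

theorem NN_nil (a : B) (m : List B) : NN M β [] a m = 0 := rfl

theorem NN_ne {s : B} {k : ℤ} {w : List (B × ℤ)} {a : B} (h : a ≠ s) (m : List B) :
    NN M β ((s, k) :: w) a m = NN M β w a m := by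
  cases m <;> rw [NN, if_neg h, add_zero]

theorem NN_self_nil (s : B) (k : ℤ) (w : List (B × ℤ)) :
    NN M β ((s, k) :: w) s [] = NN M β w s [] + k * β s := by
  rw [NN, if_pos rfl]

theorem NN_self_cons (s : B) (k : ℤ) (w : List (B × ℤ)) (t : B) (m : List B) :
    NN M β ((s, k) :: w) s (t :: m) = NN M β w s (t :: m) +
      k * (if t ≠ s ∧ M t s ≠ 2 then NN M β w t m else 0) := by
  rw [NN, if_pos rfl]

theorem NN_not {w : List (B × ℤ)} {a : B} (h : ∀ p ∈ w, p.1 ≠ a) (m : List B) :
    NN M β w a m = 0 := by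
  induction w with
  | nil => rfl
  | cons p w ih =>
    rw [NN_ne (h p (by simp)).symm]
    exact ih fun q hq => h q (by simp [hq])

theorem NN_app {u w : List (B × ℤ)} {a : B} (h : ∀ p ∈ u, p.1 ≠ a) (m : List B) :
    NN M β (u ++ w) a m = NN M β w a m := by
  induction u with
  | nil => rfl
  | cons p u ih =>
    rw [List.cons_append, NN_ne (h p (by simp)).symm]
    exact ih fun q hq => h q (by simp [hq])

theorem NN_len : ∀ {w : List (B × ℤ)} {a : B} {m : List B}, w.length ≤ m.length →
    NN M β w a m = 0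
  | [], _, _, _ => rfl
  | (s, k) :: w, a, [], h => by simp at h
  | (s, k) :: w, a, t :: m, h => by
    have h1 : w.length ≤ m.length := by simpa using h
    by_cases ha : a = s
    · subst ha
      rw [NN_self_cons, NN_len (w := w) (a := a) (m := t :: m) (by simp; omega),
        NN_len (w := w) (a := t) (m := m) h1]
      simp
    · rw [NN_ne ha]
      exact NN_len (by simp; omega)

/-- the first letter that does not commute -/
theorem chain_dn {n : ℕ} (hup : ∀ (s : B) (k : ℤ) (w : List (B × ℤ)), w.length ≤ n →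
      Rd M ((s, k) :: w) → ∀ t m, t ≠ s → M t s ≠ 2 → NN M β w t m ≠ 0 →
      ∃ m' : List B, m.length + 1 ≤ m'.length ∧ NN M β ((s, k) :: w) s m' ≠ 0)
    {s : B} {k : ℤ} {w : List (B × ℤ)} (hw : w.length ≤ n + 1) (hR : Rd M ((s, k) :: w))
    {m : List B} (h : NN M β w s m ≠ 0) :
    ∃ t m', t ≠ s ∧ M t s ≠ 2 ∧ m.length + 1 ≤ m'.length ∧ NN M β w t m' ≠ 0 := by
  have hs : ∃ c ∈ w, c.1 = s := by
    by_contra hcon
    push Not at hcon
    exact h (NN_not hcon m)
  obtain ⟨u, ⟨s', l⟩, z, rfl, hs', hu⟩ := split_first (fun c : B × ℤ => c.1 = s) w hs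
  have hs'' : s' = s := hs'
  subst hs''
  obtain ⟨c, hc, hcs, hc2⟩ := hR.2 [] u z s' k l rfl
  obtain ⟨u1, ⟨t, e⟩, u2, rfl, ht, hu1⟩ := split_first (fun a : B × ℤ => M a.1 s' ≠ 2) u ⟨c, hc, hc2⟩
  have ht2 : M t s' ≠ 2 := ht
  have hts : t ≠ s' := hu (t, e) (by simp)
  have hu1s : ∀ p ∈ u1, p.1 ≠ s' := fun p hp => hu p (by simp [hp])
  have hu1t : ∀ p ∈ u1, p.1 ≠ t := by
    intro p hp hpt
    apply hu1 p hp
    rw [hpt]
    exact ht2
  have e1 : (u1 ++ (t, e) :: u2) ++ (s', l) :: z = u1 ++ (t, e) :: (u2 ++ (s', l) :: z) := by simp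
  rw [e1] at h hR hw ⊢
  rw [NN_app hu1s, NN_ne hts.symm] at h
  have hR' : Rd M ((t, e) :: (u2 ++ (s', l) :: z)) :=
    Rd.mid (u := (s', k) :: u1) (z := []) (by simpa using hR)
  obtain ⟨m', hm', h'⟩ := hup t e (u2 ++ (s', l) :: z) (by
    simp only [List.length_append, List.length_cons] at hw ⊢
    omega) hR' s' m hts.symm (by rw [M.symmetric]; exact ht2) h
  exact ⟨t, m', hts, ht2, hm', by rwa [NN_app hu1t]⟩

/-- a chain can be extended -/
theorem chain_up : ∀ (n : ℕ) (s : B) (k : ℤ) (w : List (B × ℤ)), w.length ≤ n →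
    Rd M ((s, k) :: w) → ∀ t m, t ≠ s → M t s ≠ 2 → NN M β w t m ≠ 0 →
    ∃ m' : List B, m.length + 1 ≤ m'.length ∧ NN M β ((s, k) :: w) s m' ≠ 0 := by
  intro n
  induction n with
  | zero =>
    intro s k w hw hR t m hts ht2 h
    have : w = [] := List.eq_nil_of_length_eq_zero (by omega)
    subst this
    exact (h rfl).elim
  | succ n ih =>
    intro s k w hw hR
    have key : ∀ j : ℕ, ∀ t m, w.length ≤ m.length + j → t ≠ s → M t s ≠ 2 → NN M β w t m ≠ 0 →
        ∃ m' : List B, m.length + 1 ≤ m'.length ∧ NN M β ((s, k) :: w) s m' ≠ 0 := by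
      intro j
      induction j with
      | zero =>
        intro t m hj _ _ h
        exact (h (NN_len hj)).elim
      | succ j ihj =>
        intro t m hj hts ht2 h
        by_cases h1 : NN M β ((s, k) :: w) s (t :: m) = 0
        · rw [NN_self_cons, if_pos ⟨hts, ht2⟩] at h1
          have h2 : NN M β w s (t :: m) ≠ 0 := by
            intro h3
            rw [h3, zero_add] at h1
            have hk : (k : ℝ) ≠ 0 := by
              exact_mod_cast hR.1 (s, k) (by simp)
            exact h ((mul_eq_zero.1 h1).resolve_left hk)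
          obtain ⟨t', m2, ht's, ht'2, hm2, h4⟩ := chain_dn ih hw hR h2
          rw [List.length_cons] at hm2
          obtain ⟨m', hm', h5⟩ := ihj t' m2 (by omega) ht's ht'2 h4
          exact ⟨m', by omega, h5⟩
        · exact ⟨t :: m, by simp, h1⟩
    intro t m
    exact key w.length t m (by omega)

/-- the support of the chains decides membership in a product of parabolic subgroups -/
theorem mp {Q : Set B} (hβ : ∀ c, β c = 0 → c ∈ Q) : ∀ w : List (B × ℤ), Rd M w →
    ∀ P' : Set B, (∀ a, a ∉ P' → ∀ m, NN M β w a m = 0) →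
    ∃ p ∈ P (ra M) P', ∃ q ∈ P (ra M) Q, val (ra M) w = p * q := by
  intro w
  induction w with
  | nil => exact fun _ _ _ => ⟨1, one_mem _, 1, one_mem _, by simp⟩
  | cons c w ih =>
    obtain ⟨s, k⟩ := c
    intro hR P' h
    by_cases hs : s ∈ P'
    · obtain ⟨p, hp, q, hq, e⟩ := ih hR.tail P' (fun a ha m => by
        rw [← NN_ne (M := M) (β := β) (s := s) (k := k) (w := w) (a := a)
          (fun h' => ha (h' ▸ hs)) m]
        exact h a ha m)
      refine ⟨g (ra M) s ^ k * p, mul_mem (zpow_mem (g_mem hs) _) hp, q, hq, ?_⟩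
      rw [val_cons, e, mul_assoc]
    · have hk : (k : ℝ) ≠ 0 := by
        exact_mod_cast hR.1 (s, k) (by simp)
      have h1 : ∀ t, t ≠ s → M t s ≠ 2 → ∀ m, NN M β w t m = 0 := by
        intro t hts ht2 m
        by_contra hne
        obtain ⟨m', _, h'⟩ := chain_up w.length s k w le_rfl hR t m hts ht2 hne
        exact h' (h s hs m')
      have h2 : ∀ m, NN M β w s m = 0 := by
        intro m
        by_contra hne
        obtain ⟨t, m', hts, ht2, _, h'⟩ := chain_dn (n := w.length)
          (fun s k w hw => chain_up w.length s k w le_rfl) (by omega) hR hne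
        exact h' (h1 t hts ht2 m')
      have h3 : β s = 0 := by
        have h4 := h s hs []
        rw [NN_self_nil, h2, zero_add] at h4
        exact (mul_eq_zero.1 h4).resolve_left hk
      obtain ⟨p, hp, q, hq, e⟩ := ih hR.tail (P' ∩ {a | a ≠ s ∧ M a s = 2}) (fun a ha m => by
        by_cases has : a = s
        · rw [has]
          exact h2 m
        by_cases ha2 : M a s = 2
        · rw [← NN_ne (M := M) (β := β) (s := s) (k := k) (w := w) (a := a) has m]
          exact h a (fun h' => ha ⟨h', has, ha2⟩) m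
        · exact h1 a has ha2 m)
      refine ⟨p, P_mono Set.inter_subset_left hp, g (ra M) s ^ k * q,
        mul_mem (zpow_mem (g_mem (hβ s h3)) _) hq, ?_⟩
      have hc := lk_comm (M := M) (x := s) (β := p) (P_mono Set.inter_subset_right hp) k
      rw [val_cons, e, ← mul_assoc, hc, mul_assoc]

end Pool.Agent.K7.H20.AW
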