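import Pool.Agent.K7.H20.AW.Few

/-!
# Transvections with coefficients in a noncommutative algebra
-/

set_option autoImplicit false
set_option linter.unusedSectionVars false

namespace Pool.Agent.K7.H20.AW

open Pool.Agent.Helper741 Pool.Agent.K7.H87.FJ6 CoxeterSystem Real

section ring

variable {A : Type*} [Ring A] [Algebra ℝ A]

/-- the image of a two by two matrix -/
def ph (a c : A) (Q : Matrix (Fin 2) (Fin 2) ℝ) : A :=
  Q 0 0 • (a * c) + Q 0 1 • a + Q 1 0 • c + Q 1 1 • (c * a)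

theorem ph_mul {a c : A} (ha : a * a = 0) (hc : c * c = 0) (hac : a * c * a = a)
    (hca : c * a * c = c) (Q R : Matrix (Fin 2) (Fin 2) ℝ) :
    ph a c Q * ph a c R = ph a c (Q * R) := by
  have e1 : (a * c) * (a * c) = a * c := by rw [← mul_assoc, hac]
  have e2 : (a * c) * c = 0 := by rw [mul_assoc, hc, mul_zero]
  have e3 : (a * c) * (c * a) = 0 := by rw [mul_assoc, ← mul_assoc c c a, hc, zero_mul, mul_zero]
  have e4 : a * (a * c) = 0 := by rw [← mul_assoc, ha, zero_mul]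
  have e5 : a * (c * a) = a := by rw [← mul_assoc, hac]
  have e6 : c * (a * c) = c := by rw [← mul_assoc, hca]
  have e7 : c * (c * a) = 0 := by rw [← mul_assoc, hc, zero_mul]
  have e8 : (c * a) * (a * c) = 0 := by rw [mul_assoc, ← mul_assoc a a c, ha, zero_mul, mul_zero]
  have e9 : (c * a) * a = 0 := by rw [mul_assoc, ha, mul_zero]
  have e10 : (c * a) * (c * a) = c * a := by rw [← mul_assoc, hca]
  simp only [ph, mul_add, add_mul, smul_mul_smul_comm, e1, e2, e3, e4, e5, e6, e7, e8, e9, e10,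
    ha, hc, hac, hca, smul_zero, Matrix.mul_apply, Fin.sum_univ_two]
  module

theorem ph_add (a c : A) (Q R : Matrix (Fin 2) (Fin 2) ℝ) :
    ph a c (Q + R) = ph a c Q + ph a c R := by
  simp only [ph, Matrix.add_apply]
  module

theorem one_add_two (x y : A) : (1 + x) * (1 + y) = 1 + (x + (y + x * y)) := by
  noncomm_ring

/-- the homomorphism -/
def psi (a c : A) (ha : a * a = 0) (hc : c * c = 0) (hac : a * c * a = a)
    (hca : c * a * c = c) : Matrix.SpecialLinearGroup (Fin 2) ℝ →* A where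
  toFun Q := 1 + ph a c ((Q : Matrix (Fin 2) (Fin 2) ℝ) - 1)
  map_one' := by
    rw [Matrix.SpecialLinearGroup.coe_one, sub_self]
    simp [ph]
  map_mul' Q R := by
    rw [one_add_two, ph_mul ha hc hac hca, ← ph_add, ← ph_add]
    have h : (Q : Matrix (Fin 2) (Fin 2) ℝ) * (R : Matrix (Fin 2) (Fin 2) ℝ) - 1 =
        ((Q : Matrix (Fin 2) (Fin 2) ℝ) - 1) + (((R : Matrix (Fin 2) (Fin 2) ℝ) - 1) +
        ((Q : Matrix (Fin 2) (Fin 2) ℝ) - 1) * ((R : Matrix (Fin 2) (Fin 2) ℝ) - 1)) := by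
      noncomm_ring
    rw [← h]
    rfl

/-- the product of the two scalars for a label -/
noncomputable def kap (m : ℕ) : ℝ := -(2 * cos (π / m)) ^ 2

theorem cos_pos_label {m : ℕ} (hm : m = 0 ∨ 3 ≤ m) : 0 < cos (π / m) := by
  rcases hm with rfl | hm
  · simp
  · have h3' : (3 : ℝ) ≤ (m : ℝ) := by exact_mod_cast hm
    apply cos_pos_of_mem_Ioo
    have h4 : π / (m : ℝ) ≤ π / 3 := by
      apply div_le_div_of_nonneg_left pi_pos.le (by norm_num) h3'
    have h5 : 0 < π / (m : ℝ) := by positivity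
    constructor
    · linarith [pi_pos]
    · linarith [pi_pos]

theorem kap_ne {m : ℕ} (hm : m = 0 ∨ 3 ≤ m) : kap m ≠ 0 := by
  have := cos_pos_label hm
  rw [kap]
  apply neg_ne_zero.2
  positivity

/-- the braid relation for two transvections -/
theorem braid_ring {a c : A} {m : ℕ} (hm : 3 ≤ m) (ha : a * a = 0) (hc : c * c = 0)
    (hac : a * c * a = kap m • a) (hca : c * a * c = kap m • c) :
    alt (1 + a) (1 + c) m = alt (1 + c) (1 + a) m := by
  have hpos := cos_pos_label (Or.inr hm)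
  set t : ℝ := 2 * cos (π / m) with ht
  have ht0 : t ≠ 0 := by positivity
  have hk : kap m = -(t * t) := by rw [kap, ← ht, pow_two]
  have h1 : (t⁻¹ • a) * (t⁻¹ • a) = 0 := by rw [smul_mul_smul_comm, ha, smul_zero]
  have h2 : ((-t⁻¹) • c) * ((-t⁻¹) • c) = 0 := by rw [smul_mul_smul_comm, hc, smul_zero]
  have h3 : (t⁻¹ • a) * ((-t⁻¹) • c) * (t⁻¹ • a) = t⁻¹ • a := by
    rw [smul_mul_smul_comm, smul_mul_smul_comm, hac, hk, smul_smul]
    congr 1
    field_simp
  have h4 : ((-t⁻¹) • c) * (t⁻¹ • a) * ((-t⁻¹) • c) = (-t⁻¹) • c := by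
    rw [smul_mul_smul_comm, smul_mul_smul_comm, hca, hk, smul_smul]
    congr 1
    field_simp
  have hb : alt (Sm (-(2 * cos (π - (1 : ℕ) * (π / (m : ℕ)))))) (Tm (-(2 * cos (π - (1 : ℕ) * (π / (m : ℕ)))))) m =
      alt (Tm (-(2 * cos (π - (1 : ℕ) * (π / (m : ℕ)))))) (Sm (-(2 * cos (π - (1 : ℕ) * (π / (m : ℕ)))))) m :=
    braid2 (qs_zero_of one_pos (by omega))
  have ht' : -(2 * cos (π - (1 : ℕ) * (π / (m : ℕ)))) = t := by
    rw [Nat.cast_one, one_mul, cos_pi_sub, ht]
    ring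
  rw [ht'] at hb
  have hS : psi (t⁻¹ • a) ((-t⁻¹) • c) h1 h2 h3 h4 (Sm t) = 1 + a := by
    change (1 : A) + ph _ _ _ = _
    simp [ph, Sm, smul_smul, ht0]
  have hT : psi (t⁻¹ • a) ((-t⁻¹) • c) h1 h2 h3 h4 (Tm t) = 1 + c := by
    change (1 : A) + ph _ _ _ = _
    simp [ph, Tm, smul_smul, ht0]
  have h5 := congrArg (psi (t⁻¹ • a) ((-t⁻¹) • c) h1 h2 h3 h4) hb
  rw [map_alt, map_alt, hS, hT] at h5
  exact h5

/-- the one-parameter group of a transvection -/
def tvh (R : A) (h : R * R = 0) : Multiplicative ℝ →* A where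
  toFun t := 1 + t.toAdd • R
  map_one' := by simp
  map_mul' s t := by
    rw [one_add_two, toAdd_mul, smul_mul_smul_comm, h, smul_zero, add_zero, add_smul]

/-- the one-parameter group of a transvection, with values in the units -/
def tv (R : A) (h : R * R = 0) : Multiplicative ℝ →* Aˣ := (tvh R h).toHomUnits

theorem tv_coe (R : A) (h : R * R = 0) (t : ℝ) :
    ((tv R h (Multiplicative.ofAdd t) : Aˣ) : A) = 1 + t • R := rfl

variable {B : Type*} {M : CoxeterMatrix B}

/-- the representation -/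
theorem rep_exists (R : B → A) (h0 : ∀ b, R b * R b = 0) (h2 : ∀ i j, M i j = 2 → R i * R j = 0)
    (h3 : ∀ i j, 3 ≤ M i j → R i * R j * R i = kap (M i j) • R i) :
    ∃ ρ : Art M →* Aˣ, ∀ (b : B) (k : ℤ), ((ρ (g M b ^ k) : Aˣ) : A) = 1 + (k : ℝ) • R b := by
  have hf : ∀ i j, alt (tv (R i) (h0 i) (Multiplicative.ofAdd 1))
      (tv (R j) (h0 j) (Multiplicative.ofAdd 1)) (M i j) =
      alt (tv (R j) (h0 j) (Multiplicative.ofAdd 1))
      (tv (R i) (h0 i) (Multiplicative.ofAdd 1)) (M i j) := by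
    intro i j
    apply Units.ext
    have e1 := map_alt (Units.coeHom A) (tv (R i) (h0 i) (Multiplicative.ofAdd 1))
      (tv (R j) (h0 j) (Multiplicative.ofAdd 1)) (M i j)
    have e2 := map_alt (Units.coeHom A) (tv (R j) (h0 j) (Multiplicative.ofAdd 1))
      (tv (R i) (h0 i) (Multiplicative.ofAdd 1)) (M i j)
    simp only [Units.coeHom_apply, tv_coe, one_smul] at e1 e2
    rw [e1, e2]
    by_cases hij : i = j
    · rw [hij]
    by_cases hz : M i j = 0
    · rw [hz, alt_zero, alt_zero]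
    by_cases ht : M i j = 2
    · rw [ht, alt_two, alt_two]
      have ht' : M j i = 2 := by rw [M.symmetric]; exact ht
      rw [one_add_two, one_add_two, h2 i j ht, h2 j i ht', add_zero, add_zero, add_comm (R i)]
    · have h1 : M i j ≠ 1 := M.off_diagonal i j hij
      have h4 : 3 ≤ M i j := by omega
      have h5 := h3 j i (by rw [M.symmetric]; exact h4)
      rw [M.symmetric j i] at h5
      exact braid_ring h4 (h0 i) (h0 j) (h3 i j h4) h5
  refine ⟨Sh.lift (fun b => tv (R b) (h0 b) (Multiplicative.ofAdd 1)) hf (fun _ => pow_zero _),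
    fun b k => ?_⟩
  rw [map_zpow, Sh.lift_gen, ← map_zpow, ← ofAdd_zsmul, tv_coe]
  simp

end ring

end Pool.Agent.K7.H20.AW
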