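import Pool.Agent.K7.H20.AW.Few

/-!
# Reduced words in right-angled Artin groups (from Britton's lemma)
-/

set_option autoImplicit false
set_option linter.unusedSectionVars false

namespace Pool.Agent.K7.H20.AW

open Pool.Agent.Helper741 Pool.Agent.K7.H87.FJ6 CoxeterSystem HNNExtension HNNExtension.NormalWord

section red

variable {G : Type*} [Group G] {A : Subgroup G}

theorem st (R : ReducedWord G A A) (ε : ℤˣ)
    (hR : ∀ a ∈ R.toList.head?, R.head ∈ A → ε = a.1) : ∀ n : ℕ,
    ∃ R' : ReducedWord G A A, R'.head = 1 ∧ (∃ g L, R'.toList = (ε, g) :: L) ∧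
      R'.prod (MulEquiv.refl A) = t ^ ((ε : ℤ) * (n + 1)) * R.prod (MulEquiv.refl A) := by
  have hA : ∀ u : ℤˣ, toSubgroup A A u = A := by
    intro u
    rcases Int.units_eq_one_or u with rfl | rfl
    · rfl
    · rfl
  intro n
  induction n with
  | zero =>
    refine ⟨⟨1, (ε, R.head) :: R.toList, ?_⟩, rfl, ⟨_, _, rfl⟩, ?_⟩
    · rcases hL : R.toList with _ | ⟨a, L⟩
      · exact List.isChain_singleton _
      · rw [List.isChain_cons_cons]
        refine ⟨fun h => ?_, by rw [← hL]; exact R.chain⟩
        rw [hA] at h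
        exact hR a (by simp [hL]) h
    · simp [ReducedWord.prod, mul_assoc]
  | succ n ih =>
    obtain ⟨R', h1, ⟨g, L, h2⟩, h3⟩ := ih
    refine ⟨⟨1, (ε, 1) :: R'.toList, ?_⟩, rfl, ⟨_, _, rfl⟩, ?_⟩
    · rw [h2, List.isChain_cons_cons]
      exact ⟨fun _ => rfl, by rw [← h2]; exact R'.chain⟩
    · have h4 : (R'.toList.map (fun x => (t : HNNExtension G A A (MulEquiv.refl A)) ^ (x.1 : ℤ) *
          of x.2)).prod = R'.prod (MulEquiv.refl A) := by
        rw [ReducedWord.prod, h1, map_one, one_mul]
      rw [ReducedWord.prod, map_one, one_mul, List.map_cons, List.prod_cons, h4, h3, map_one,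
        mul_one, ← mul_assoc, ← zpow_add]
      congr 2
      push_cast
      ring

end red

section raag

variable {B : Type*} [DecidableEq B] (M : CoxeterMatrix B)

/-- the subgroup of the generators that commute with `x` -/
abbrev lk (x : B) : Subgroup (Art (ra M)) := P (ra M) {u | u ≠ x ∧ M u x = 2}

/-- the HNN extension -/
abbrev HN (x : B) : Type _ := HNNExtension (Art (ra M)) (lk M x) (lk M x) (MulEquiv.refl _)

/-- the map to the HNN extension -/
def et (x : B) : Art (ra M) →* HN M x :=
  Sh.lift (fun b => if b = x then HNNExtension.t else HNNExtension.of (g (ra M) b))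
    (lift_ok _ fun i j hij h => by
      have key : ∀ i j : B, i = x → j ≠ x → M i j = 2 →
          (HNNExtension.t : HN M x) * HNNExtension.of (g (ra M) j) =
            HNNExtension.of (g (ra M) j) * HNNExtension.t := by
        intro i j hi hj h
        have hm : g (ra M) j ∈ lk M x := g_mem ⟨hj, by rw [M.symmetric, ← hi]; exact h⟩
        exact HNNExtension.t_mul_of (⟨g (ra M) j, hm⟩ : lk M x)
      split_ifs with h1 h2 h3
      · rfl
      · exact key i j h1 h2 h
      · exact (key j i h3 h1 (by rw [M.symmetric]; exact h)).symm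
      · rw [← map_mul, ← map_mul, comm_gen (ra_two hij h)]) (fun _ => pow_zero _)

variable {M}

theorem et_g (x b : B) : et M x (g (ra M) b) =
    if b = x then HNNExtension.t else HNNExtension.of (g (ra M) b) :=
  Sh.lift_gen _ _ _ _

theorem et_mem {x : B} {y : Art (ra M)} (hy : y ∈ P (ra M) {x}ᶜ) :
    et M x y = HNNExtension.of y := by
  induction hy using Subgroup.closure_induction with
  | mem y hy =>
    obtain ⟨b, hb, rfl⟩ := hy
    rw [et_g, if_neg (show b ≠ x from hb)]
  | one => rw [map_one, map_one]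
  | mul y z _ _ hy hz => rw [map_mul, map_mul, hy, hz]
  | inv y _ hy => rw [map_inv, map_inv, hy]

variable (M) in
/-- reduced words -/
def Rd (w : List (B × ℤ)) : Prop :=
  (∀ a ∈ w, a.2 ≠ 0) ∧ ∀ u v z b k l, w = u ++ (b, k) :: (v ++ (b, l) :: z) →
    ∃ c ∈ v, c.1 ≠ b ∧ M c.1 b ≠ 2

theorem Rd.mid {u v z : List (B × ℤ)} (h : Rd M (u ++ v ++ z)) : Rd M v := by
  refine ⟨fun a ha => h.1 a (by simp [ha]), ?_⟩
  intro u' v' z' b k l hv
  apply h.2 (u ++ u') v' (z' ++ z) b k l
  rw [hv]
  simp

theorem Rd.tail {a : B × ℤ} {w : List (B × ℤ)} (h : Rd M (a :: w)) : Rd M w :=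
  Rd.mid (u := [a]) (z := []) (by simpa using h)

/-- membership in parabolic subgroups is read off from reduced words -/
def Mem (M : CoxeterMatrix B) (w : List (B × ℤ)) : Prop :=
  Rd M w → ∀ T : Set B, val (ra M) w ∈ P (ra M) T → ∀ a ∈ w, a.1 ∈ T

theorem rw_exists (x : B) : ∀ (w : List (B × ℤ)), Rd M w →
    (∀ p : List (B × ℤ), p.length < w.length → Mem M p) →
    ∃ R : ReducedWord (Art (ra M)) (lk M x) (lk M x),
      R.prod (MulEquiv.refl _) = et M x (val (ra M) w) ∧
      (∀ p z l, w = p ++ (x, l) :: z → (∀ a ∈ p, a.1 ≠ x) → R.head = val (ra M) p) ∧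
      ((∃ a ∈ w, a.1 = x) ↔ R.toList ≠ []) := by
  intro w
  induction w with
  | nil =>
    intro _ _
    refine ⟨ReducedWord.empty _ _ _, by simp [ReducedWord.prod], ?_, by simp⟩
    intro p z l h
    simp at h
  | cons a w ih =>
    obtain ⟨b, k⟩ := a
    intro hR hI
    obtain ⟨R, h1, h2, h3⟩ := ih hR.tail (fun p hp => hI p (by simp; omega))
    by_cases hb : b = x
    · subst hb
      have hk : k ≠ 0 := hR.1 (b, k) (by simp)
      obtain ⟨ε, n, hε⟩ : ∃ (ε : ℤˣ) (n : ℕ), k = (ε : ℤ) * (n + 1) := by
        rcases lt_or_gt_of_ne hk with h | h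
        · exact ⟨-1, (-k).toNat - 1, by push_cast; omega⟩
        · exact ⟨1, k.toNat - 1, by push_cast; omega⟩
      have hcond : ∀ a ∈ R.toList.head?, R.head ∈ lk M b → ε = a.1 := by
        intro a ha hmem
        exfalso
        have hne : R.toList ≠ [] := by
          intro h
          rw [h] at ha
          simp at ha
        obtain ⟨p, ⟨b', l⟩, z, rfl, hb', hp⟩ :=
          split_first (fun c : B × ℤ => c.1 = b) w (h3.2 hne)
        have hb'' : b' = b := hb'
        subst hb''
        rw [h2 p z l rfl hp] at hmem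
        obtain ⟨c, hc, hcb, hc2⟩ := hR.2 [] p z b' k l rfl
        have hpR : Rd M p := Rd.mid (u := [(b', k)]) (z := (b', l) :: z) (by simpa using hR)
        have := hI p (by
          simp only [List.length_cons, List.length_append]
          omega) hpR _ hmem c hc
        exact hc2 this.2
      obtain ⟨R', h4, ⟨g', L, h5⟩, h6⟩ := st R ε hcond n
      refine ⟨R', ?_, ?_, ?_⟩
      · rw [h6, h1, val_cons, map_mul, map_zpow, et_g, if_pos rfl, hε]
      · intro p z l hp hpx
        rcases p with _ | ⟨c, p⟩
        · rw [h4, val_nil]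
        · exfalso
          have : c = (b, k) := by
            simp only [List.cons_append, List.cons.injEq] at hp
            exact hp.1.symm
          exact hpx c (by simp) (by rw [this])
      · simp [h5]
    · refine ⟨⟨g (ra M) b ^ k * R.head, R.toList, R.chain⟩, ?_, ?_, ?_⟩
      · rw [val_cons, map_mul, map_zpow, et_g, if_neg hb, ← h1, ReducedWord.prod,
          ReducedWord.prod, map_mul, map_zpow, mul_assoc]
      · intro p z l hp hpx
        rcases p with _ | ⟨c, p⟩
        · exfalso
          simp only [List.nil_append, List.cons.injEq, Prod.mk.injEq] at hp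
          exact hb hp.1.1
        · simp only [List.cons_append, List.cons.injEq] at hp
          rw [← hp.1, val_cons, h2 p z l hp.2 (fun a ha => hpx a (by simp [ha]))]
      · rw [← h3]
        constructor
        · rintro ⟨a, ha, hax⟩
          rcases List.mem_cons.1 ha with rfl | h
          · exact absurd hax hb
          · exact ⟨a, h, hax⟩
        · rintro ⟨a, ha, hax⟩
          exact ⟨a, by simp [ha], hax⟩

theorem mem_all : ∀ (n : ℕ) (w : List (B × ℤ)), w.length = n → Mem M w := by
  intro n
  induction n using Nat.strong_induction_on with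
  | _ n ih =>
    intro w hn hR T hT a ha
    by_contra haT
    obtain ⟨R, h1, _, h3⟩ := rw_exists a.1 w hR (fun p hp => ih p.length (by omega) p rfl)
    have h4 : val (ra M) w ∈ P (ra M) {a.1}ᶜ := by
      refine P_mono ?_ hT
      rintro u hu rfl
      exact haT hu
    refine h3.1 ⟨a, ha, rfl⟩ (ReducedWord.toList_eq_nil_of_mem_of_range (MulEquiv.refl _) R ?_)
    rw [h1, et_mem h4]
    exact ⟨_, rfl⟩

/-- membership in parabolic subgroups is read off from reduced words -/
theorem mem_of_red {w : List (B × ℤ)} (hR : Rd M w) {T : Set B}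
    (h : val (ra M) w ∈ P (ra M) T) : ∀ a ∈ w, a.1 ∈ T :=
  mem_all w.length w rfl hR T h

/-- a nonempty reduced word is not trivial -/
theorem red_ne_one {w : List (B × ℤ)} (hR : Rd M w) (h : val (ra M) w = 1) : w = [] := by
  rcases w with _ | ⟨a, w⟩
  · rfl
  · exfalso
    have h1 := mem_of_red hR (T := ∅) (by rw [h]; exact one_mem _) a (by simp)
    exact h1

end raag

end Pool.Agent.K7.H20.AW
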