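import Pool.Agent.K7.H20.AW.RelT

/-!
# Three odd syllables of a generator: the relations
-/

set_option autoImplicit false
set_option linter.unusedSectionVars false

namespace Pool.Agent.K7.H20.AW

open Pool.Agent.Helper741 Pool.Agent.K7.H87.FJ6 CoxeterSystem Real

section gp

variable {G : Type*} [Group G]

/-- the braid relation for powers -/
theorem braid_pow {x y : G} (h : x * y * x = y * x * y) {ε : ℤ} (hε : ε = 1 ∨ ε = -1) (k : ℤ) :
    x ^ ε * y ^ ε * x ^ k = y ^ k * (x ^ ε * y ^ ε) := by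
  have h1 : x ^ ε * y ^ ε * x * (x ^ ε * y ^ ε)⁻¹ = y := by
    rcases hε with rfl | rfl
    · rw [zpow_one, zpow_one, h]
      group
    · rw [zpow_neg_one, zpow_neg_one]
      have h2 : x⁻¹ * y⁻¹ * (x * y * x) = y := by
        rw [h]
        group
      calc x⁻¹ * y⁻¹ * x * (x⁻¹ * y⁻¹)⁻¹ = x⁻¹ * y⁻¹ * (x * y * x) := by group
        _ = y := h2
  have h2 : y ^ k = (x ^ ε * y ^ ε) * x ^ k * (x ^ ε * y ^ ε)⁻¹ := by
    conv_lhs => rw [← h1]
    rw [conj_zpow]
  rw [h2, inv_mul_cancel_right]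

end gp

section arith

theorem arith3 {a c d : ℤ} (ha : Odd a) (hc : Odd c) (hd : Odd d) (h : a + c + d + a * c * d = 0) :
    ((a = 1 ∨ a = -1) ∧ d = -a) ∨ ((c = 1 ∨ c = -1) ∧ a = -c) ∨ ((d = 1 ∨ d = -1) ∧ c = -d) := by
  have key : ∀ a c d : ℤ, a + c + d + a * c * d = 0 → a = 1 ∨ a = -1 → c = -a ∨ d = -a := by
    rintro a c d h (rfl | rfl)
    · have h1 : (c + 1) * (d + 1) = 0 := by linarith
      rcases mul_eq_zero.1 h1 with h2 | h2
      · left; linarith
      · right; linarith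
    · have h1 : (c - 1) * (d - 1) = 0 := by linarith
      rcases mul_eq_zero.1 h1 with h2 | h2
      · left; linarith
      · right; linarith
  have hone : (a = 1 ∨ a = -1) ∨ (c = 1 ∨ c = -1) ∨ (d = 1 ∨ d = -1) := by
    by_contra hcon
    push Not at hcon
    obtain ⟨⟨h1, h2⟩, ⟨h3, h4⟩, h5, h6⟩ := hcon
    obtain ⟨i, hi⟩ := ha
    obtain ⟨j, hj⟩ := hc
    obtain ⟨l, hl⟩ := hd
    have A : 3 ≤ |a| := by
      rcases le_or_gt 0 a with h7 | h7
      · rw [abs_of_nonneg h7]; omega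
      · rw [abs_of_neg h7]; omega
    have C : 3 ≤ |c| := by
      rcases le_or_gt 0 c with h7 | h7
      · rw [abs_of_nonneg h7]; omega
      · rw [abs_of_neg h7]; omega
    have D : 3 ≤ |d| := by
      rcases le_or_gt 0 d with h7 | h7
      · rw [abs_of_nonneg h7]; omega
      · rw [abs_of_neg h7]; omega
    have h7 : |a| * |c| * |d| ≤ |a| + |c| + |d| := by
      rw [← abs_mul, ← abs_mul]
      have h8 : a * c * d = -(a + c + d) := by linarith
      rw [h8, abs_neg]
      exact (abs_add_le _ _).trans (add_le_add_left (abs_add_le _ _) _)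
    have h9 : 3 * |c| ≤ |a| * |c| := by nlinarith
    have h10 : 9 ≤ |a| * |c| := by nlinarith
    have h11 : 3 * (|a| * |c|) ≤ |a| * |c| * |d| := by nlinarith
    have h12 : 9 * |d| ≤ |a| * |c| * |d| := by nlinarith
    have h13 : 3 * |a| ≤ |a| * |c| := by nlinarith
    nlinarith
  rcases hone with h1 | h1 | h1
  · rcases key a c d h h1 with h2 | h2
    · rcases h1 with h3 | h3
      · right; left
        exact ⟨Or.inr (by omega), by omega⟩
      · right; left
        exact ⟨Or.inl (by omega), by omega⟩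
    · left
      exact ⟨h1, h2⟩
  · rcases key c d a (by linarith) h1 with h2 | h2
    · rcases h1 with h3 | h3
      · right; right
        exact ⟨Or.inr (by omega), by omega⟩
      · right; right
        exact ⟨Or.inl (by omega), by omega⟩
    · right; left
      exact ⟨h1, h2⟩
  · rcases key d a c (by linarith) h1 with h2 | h2
    · rcases h1 with h3 | h3
      · left
        exact ⟨Or.inr (by omega), by omega⟩
      · left
        exact ⟨Or.inl (by omega), by omega⟩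
    · right; right
      exact ⟨h1, h2⟩

end arith

section facts

variable {B : Type*} [Fintype B] [DecidableEq B] {M : CoxeterMatrix B}

theorem gen_braid {b t : B} (h : M t b = 3) :
    g M b * g M t * g M b = g M t * g M b * g M t := by
  have h1 := Sh.rel (M := M) (p := z0 B) b t
  rw [M.symmetric b t, h, alt_succ, alt_two, alt_succ, alt_two] at h1
  rw [mul_assoc, mul_assoc]
  exact h1

/-- the equation in the braid group on three strands -/
theorem exps {b t : B} (ht : M t b = 3) {a c d : ℤ}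
    (h : g M b ^ a * g M t ^ (-d) * g M b ^ c * g M t ^ (-a) * g M b ^ d * g M t ^ (-c) = 1) :
    a + c + d + a * c * d = 0 := by
  have htb : t ≠ b := by
    rintro rfl
    rw [M.diagonal] at ht
    norm_num at ht
  let ι : Bool → B := fun i => if i then t else b
  have hι : Function.Injective ι := by
    intro i j hij
    cases i <;> cases j <;> simp [ι, htb, htb.symm] at hij ⊢
  have h1 : Sh.gen (pull M ι hι) (z0 B ∘ ι) false ^ a * Sh.gen _ _ true ^ (-d) *
      Sh.gen _ _ false ^ c * Sh.gen _ _ true ^ (-a) * Sh.gen _ _ false ^ d *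
      Sh.gen _ _ true ^ (-c) = 1 := by
    apply inc_injective (adm0 M) ι hι
    simp only [map_mul, map_zpow, inc_gen, map_one]
    exact h
  have hr : alt (Sm 1) (Tm 1) (M b t) = alt (Tm 1) (Sm 1) (M b t) := by
    have h2 := braid2 (m := 3) (c := -(1 / 2)) (by
      rw [qs_add_two, qs_add_two]
      simp only [qs]
      norm_num)
    rw [M.symmetric b t, ht]
    have h3 : (-(2 * (-(1 / 2 : ℝ)))) = 1 := by norm_num
    rw [h3] at h2
    exact h2
  let f : Bool → Matrix.SpecialLinearGroup (Fin 2) ℝ := fun i => if i then Tm 1 else Sm 1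
  have hf : ∀ i j, alt (f i) (f j) (pull M ι hι i j) = alt (f j) (f i) (pull M ι hι i j) := by
    intro i j
    cases i <;> cases j
    · rfl
    · simpa [f, ι] using hr
    · have : M t b = M b t := M.symmetric _ _
      simpa [f, ι, this] using hr.symm
    · rfl
  have hp : ∀ i, f i ^ (z0 B ∘ ι) i = 1 := fun i => pow_zero _
  have h2 := congrArg (Sh.lift (M := pull M ι hι) (p := z0 B ∘ ι) f hf hp) h1
  simp only [map_mul, map_zpow, map_one] at h2
  rw [Sh.lift_gen f hf hp false, Sh.lift_gen f hf hp true] at h2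
  have h3 : Sm 1 ^ a * Tm 1 ^ (-d) * Sm 1 ^ c * Tm 1 ^ (-a) * Sm 1 ^ d * Tm 1 ^ (-c) = 1 := h2
  have h4 : Sm 1 ^ a * Tm 1 ^ (-d) * Sm 1 ^ c = Tm 1 ^ c * Sm 1 ^ (-d) * Tm 1 ^ a := by
    have h5 : Sm 1 ^ a * Tm 1 ^ (-d) * Sm 1 ^ c =
        (Sm 1 ^ a * Tm 1 ^ (-d) * Sm 1 ^ c * Tm 1 ^ (-a) * Sm 1 ^ d * Tm 1 ^ (-c)) *
          (Tm 1 ^ c * Sm 1 ^ (-d) * Tm 1 ^ a) := by group
    rw [h5, h3, one_mul]
  rw [Sm_zpow, Tm_zpow, Sm_zpow, Tm_zpow, Sm_zpow, Tm_zpow] at h4
  have h5 := congrArg (fun Q : Matrix.SpecialLinearGroup (Fin 2) ℝ =>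
    (Q : Matrix (Fin 2) (Fin 2) ℝ) 0 1) h4
  simp only [Matrix.SpecialLinearGroup.coe_mul, Matrix.mul_apply, Fin.sum_univ_two] at h5
  simp [Sm, Tm] at h5
  have h6 : ((a + c + d + a * c * d : ℤ) : ℝ) = 0 := by
    push_cast
    linarith
  exact_mod_cast h6

/-- the first case -/
theorem caseA {b t : B} (ht : M t b = 3) {a c d : ℤ} (ha : a = 1 ∨ a = -1) (hda : d = -a)
    (hc : Odd c) {n1 n2 n3 : Art M} (h1 : n1 ∈ P M (lkb M b)) (h2 : n2 ∈ P M (lkb M b))
    (h3 : n3 ∈ P M (lkb M b))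
    (h : g M b ^ a * g M t ^ (-d) * g M b ^ c * n1 * g M t ^ (-a) * g M b ^ d * n2 *
      g M t ^ (-c) * n3 = 1) :
    n1 ∈ P M (lkb M t) ∧ n2 ∈ P M (lkb M t) ∧ n3 ∈ P M (lkb M t) ∧ n1 * n2 * n3 = 1 := by
  have htb : t ≠ b := by
    rintro rfl
    rw [M.diagonal] at ht
    norm_num at ht
  have hao : Odd a := by
    rcases ha with rfl | rfl
    · exact odd_one
    · exact ⟨-1, rfl⟩
  have htL : t ∉ lkb M b := fun h => by
    have := h.2
    omega
  have hLt : lkb M b ⊆ ({t}ᶜ : Set B) := by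
    rintro u hu rfl
    exact htL hu
  have hLb : lkb M b ⊆ ({b}ᶜ : Set B) := fun u hu => hu.1
  have htP : g M t ∈ P M {b}ᶜ := g_mem htb
  subst hda
  rw [neg_neg] at h
  have hbr := braid_pow (gen_braid ht) ha c
  rw [hbr] at h
  have e1 : g M b ^ a * (g M t ^ a * n1 * g M t ^ (-a)) * g M b ^ (-a) =
      g M t ^ (-c) * n3⁻¹ * g M t ^ c * n2⁻¹ := by
    have h4 : g M b ^ a * (g M t ^ a * n1 * g M t ^ (-a)) * g M b ^ (-a) * n2 * g M t ^ (-c) * n3 *
        g M t ^ c = 1 := by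
      have h5 := congrArg (fun x => g M t ^ (-c) * x * g M t ^ c) h
      rw [mul_one, zpow_neg, inv_mul_cancel] at h5
      rw [← h5]
      group
    have h6 : g M b ^ a * (g M t ^ a * n1 * g M t ^ (-a)) * g M b ^ (-a) =
      (g M b ^ a * (g M t ^ a * n1 * g M t ^ (-a)) * g M b ^ (-a) * n2 * g M t ^ (-c) * n3 *
        g M t ^ c) * (g M t ^ (-c) * n3⁻¹ * g M t ^ c * n2⁻¹) := by group
    rw [h6, h4, one_mul]
  have m1 : g M t ^ a * n1 * g M t ^ (-a) ∈ P M {b}ᶜ :=
    mul_mem (mul_mem (zpow_mem htP _) (P_mono hLb h1)) (zpow_mem htP _)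
  have m2 : g M t ^ (-c) * n3⁻¹ * g M t ^ c * n2⁻¹ ∈ P M {b}ᶜ :=
    mul_mem (mul_mem (mul_mem (zpow_mem htP _) (inv_mem (P_mono hLb h3))) (zpow_mem htP _))
      (inv_mem (P_mono hLb h2))
  have k1 : g M t ^ a * n1 * g M t ^ (-a) ∈ P M (lkb M b) := by
    rcases two m1 m2 e1 with ⟨_, _, h5⟩ | ⟨h5, _, _⟩
    · exact h5
    · exact absurd hao (Int.not_odd_iff_even.2 h5)
  have k2 : n1 ∈ P M (lkb M t) := by
    rcases two (P_mono hLt h1) (P_mono hLt k1) rfl with ⟨_, _, h5⟩ | ⟨h5, _, _⟩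
    · exact h5
    · exact absurd hao (Int.not_odd_iff_even.2 h5)
  have k3 : g M t ^ a * n1 * g M t ^ (-a) = n1 := by
    rw [comm_P k2 a, zpow_neg, mul_inv_cancel_right]
  rw [k3, comm_P h1 a, zpow_neg, mul_inv_cancel_right] at e1
  have e2 : g M t ^ (-c) * n3⁻¹ * g M t ^ c = n1 * n2 := by
    rw [e1, inv_mul_cancel_right]
  have k4 : n3⁻¹ ∈ P M (lkb M t) := by
    rcases two (P_mono hLt (inv_mem h3)) (P_mono hLt (mul_mem h1 h2)) e2 with ⟨_, _, h5⟩ | ⟨_, h5, _⟩
    · exact h5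
    · exact absurd hc (Int.not_odd_iff_even.2 h5)
  have k5 : n3⁻¹ = n1 * n2 := by
    rw [← e2, comm_P k4 (-c), zpow_neg, inv_mul_cancel_right]
  refine ⟨k2, ?_, by simpa using inv_mem k4, ?_⟩
  · have h5 : n2 = n1⁻¹ * n3⁻¹ := by rw [k5, inv_mul_cancel_left]
    rw [h5]
    exact mul_mem (inv_mem k2) k4
  · rw [← k5, inv_mul_cancel]

/-- rotation -/
theorem rot {b t : B} {a c d : ℤ} {n1 n2 n3 : Art M} (h1 : n1 ∈ P M (lkb M b))
    (h3 : n3 ∈ P M (lkb M b))
    (h : g M b ^ a * g M t ^ (-d) * g M b ^ c * n1 * g M t ^ (-a) * g M b ^ d * n2 *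
      g M t ^ (-c) * n3 = 1) :
    g M b ^ c * g M t ^ (-a) * g M b ^ d * n2 * g M t ^ (-c) * g M b ^ a * n3 *
      g M t ^ (-d) * n1 = 1 := by
  have k1 := comm_P h1 c
  have k3 := comm_P h3 a
  have e : g M b ^ c * g M t ^ (-a) * g M b ^ d * n2 * g M t ^ (-c) * g M b ^ a * n3 *
      g M t ^ (-d) * n1 =
      n1⁻¹ * (g M b ^ a * g M t ^ (-d))⁻¹ * n3⁻¹⁻¹⁻¹ *
      (n3 * (g M b ^ a * g M t ^ (-d) * g M b ^ c * n1 * g M t ^ (-a) * g M b ^ d * n2 *
      g M t ^ (-c) * n3) * n3⁻¹) * (n3 * (g M b ^ a * g M t ^ (-d)) * n1) := by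
    have e1 : g M b ^ c = n1⁻¹ * (g M b ^ c * n1) := by rw [k1, inv_mul_cancel_left]
    have e3 : g M b ^ a * n3 = n3 * g M b ^ a := k3
    rw [mul_assoc (g M b ^ c * g M t ^ (-a) * g M b ^ d * n2 * g M t ^ (-c)) (g M b ^ a) n3, e3]
    nth_rewrite 1 [e1]
    group
  rw [e, h]
  group

end facts

section act

variable {B : Type*} [Fintype B] [DecidableEq B] {M : CoxeterMatrix B}
variable {W : Type*} [Group W] (cs : CoxeterSystem M W)

/-- the coset of an element that commutes with `b` -/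
theorem mv {b t : B} (ht2 : M t b ≠ 2) {ι : Bool → B} {hι : Function.Injective ι}
    (hι0 : ι false = b) (hι1 : ι true = t) {n : Art M} (hn : n ∈ P M (lkb M b))
    (x : Sh (pull M ι hι) (z0 B ∘ ι)) (v : {v : W // Mn cs ι v})
    (hv : v.1 ∈ PW cs (lkb M b)) :
    ∃ v' : {v : W // Mn cs ι v}, v'.1 = co cs n * v.1 ∧ ac cs ι hι n (x, v) = (x, v') := by
  obtain ⟨c, hc, v', _, e⟩ := tk_one (cs := cs) (ι := ι) (hι := hι) hn x v hv
  have hempty : {a : Bool | ι a ∈ lkb M b} = ∅ := by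
    rw [Set.eq_empty_iff_forall_notMem]
    intro a ha
    have ha' : ι a ∈ lkb M b := ha
    cases a
    · rw [hι0] at ha'
      exact ha'.1 rfl
    · rw [hι1] at ha'
      exact ht2 ha'.2
  have hc1 : c = 1 := by
    rw [hempty, Set.image_empty, Subgroup.closure_empty] at hc
    exact Subgroup.mem_bot.1 hc
  rw [hc1, one_mul] at e
  refine ⟨v', ?_, e⟩
  have h1 := ac_tot (cs := cs) (ι := ι) (hι := hι) n (x, v)
  rw [e, tot, tot] at h1
  have h2 : v'.1 * bar cs (adm0 M) ι hι x = co cs n * (v.1 * bar cs (adm0 M) ι hι x) := h1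
  rw [← mul_assoc] at h2
  exact mul_right_cancel h2

/-- the elements of the Coxeter group -/
theorem stripW {b t : B} (ht : M t b = 3) {n1 n2 n3 : W} (N1 : n1 ∈ PW cs (lkb M b))
    (N2 : n2 ∈ PW cs (lkb M b)) (N3 : n3 ∈ PW cs (lkb M b))
    (hW : cs.simple b * cs.simple t * cs.simple b * n1 * cs.simple t * cs.simple b *
      n2 * cs.simple t * n3 = 1) :
    n1 ∈ PW cs (lkb M t) ∧ n2 ∈ PW cs (lkb M t) ∧ n3 ∈ PW cs (lkb M t) := by
  have htb : t ≠ b := by
    rintro rfl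
    rw [M.diagonal] at ht
    norm_num at ht
  have htL : t ∉ lkb M b := fun h => by
    have := h.2
    omega
  have hbt : M b t = 3 := by rw [M.symmetric]; exact ht
  have hLt : lkb M b ⊆ ({t}ᶜ : Set B) := by
    rintro u hu rfl
    exact htL hu
  have hLb : lkb M b ⊆ ({b}ᶜ : Set B) := fun u hu => hu.1
  have hbb := cs.simple_mul_simple_self b
  have htt := cs.simple_mul_simple_self t
  have hbr := simple_braid cs hbt
  rw [hbr] at hW
  have w1 : cs.simple b * (cs.simple t * n1 * cs.simple t) * cs.simple b =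
      cs.simple t * n3⁻¹ * cs.simple t * n2⁻¹ := by
    have h4 : cs.simple b * (cs.simple t * n1 * cs.simple t) * cs.simple b *
        (n2 * cs.simple t * n3 * cs.simple t) = 1 := by
      calc cs.simple b * (cs.simple t * n1 * cs.simple t) * cs.simple b *
          (n2 * cs.simple t * n3 * cs.simple t)
          = (cs.simple t * cs.simple t) * cs.simple b * cs.simple t * n1 * cs.simple t *
            cs.simple b * n2 * cs.simple t * n3 * cs.simple t := by
            rw [htt]; simp only [mul_assoc, one_mul]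
        _ = cs.simple t * (cs.simple t * cs.simple b * cs.simple t * n1 * cs.simple t *
            cs.simple b * n2 * cs.simple t * n3) * cs.simple t := by
            simp only [mul_assoc]
        _ = 1 := by rw [hW, mul_one, htt]
    have h5 : (n2 * cs.simple t * n3 * cs.simple t)⁻¹ =
        cs.simple t * n3⁻¹ * cs.simple t * n2⁻¹ := by
      simp only [_root_.mul_inv_rev, cs.inv_simple, mul_assoc]
    rw [← h5]
    exact eq_inv_of_mul_eq_one_left h4
  have m1 : cs.simple t * n1 * cs.simple t ∈ PW cs {b}ᶜ :=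
    mul_mem (mul_mem (PW_mem cs htb) (PW_mono cs hLb N1)) (PW_mem cs htb)
  have m2 : cs.simple b * (cs.simple t * n1 * cs.simple t) * cs.simple b ∈ PW cs {b}ᶜ := by
    rw [w1]
    exact mul_mem (mul_mem (mul_mem (PW_mem cs htb) (PW_mono cs hLb (inv_mem N3)))
      (PW_mem cs htb)) (inv_mem (PW_mono cs hLb N2))
  have m3 := dc_W cs m1 m2
  have m4 : n1 ∈ PW cs (lkb M t) := dc_W cs (PW_mono cs hLt N1) (PW_mono cs hLt m3)
  have m5 : cs.simple t * n1 * cs.simple t = n1 := by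
    rw [PW_comm cs m4, mul_assoc, htt, mul_one]
  rw [m5, PW_comm cs N1, mul_assoc, hbb, mul_one] at w1
  have w2 : cs.simple t * n3⁻¹ * cs.simple t = n1 * n2 := by
    rw [w1, inv_mul_cancel_right]
  have m6 : n3⁻¹ ∈ PW cs (lkb M t) := by
    apply dc_W cs (PW_mono cs hLt (inv_mem N3))
    rw [w2]
    exact PW_mono cs hLt (mul_mem N1 N2)
  have w3 : n3⁻¹ = n1 * n2 := by
    rw [← w2, PW_comm cs m6, mul_assoc, htt, mul_one]
  refine ⟨m4, ?_, by simpa using inv_mem m6⟩
  have h5 : n2 = n1⁻¹ * n3⁻¹ := by rw [w3, inv_mul_cancel_left]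
  rw [h5]
  exact mul_mem (inv_mem m4) m6

include cs in
/-- the equation without the commuting elements -/
theorem strip {b t : B} (ht : M t b = 3) {a c d : ℤ} (ha : Odd a) (hc : Odd c) (hd : Odd d)
    {n1 n2 n3 : Art M} (h1 : n1 ∈ P M (lkb M b)) (h2 : n2 ∈ P M (lkb M b))
    (h3 : n3 ∈ P M (lkb M b))
    (h : g M b ^ a * g M t ^ (-d) * g M b ^ c * n1 * g M t ^ (-a) * g M b ^ d * n2 *
      g M t ^ (-c) * n3 = 1) :
    g M b ^ a * g M t ^ (-d) * g M b ^ c * g M t ^ (-a) * g M b ^ d * g M t ^ (-c) = 1 := by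
  have htb : t ≠ b := by
    rintro rfl
    rw [M.diagonal] at ht
    norm_num at ht
  have N1 := co_mem cs h1
  have N2 := co_mem cs h2
  have N3 := co_mem cs h3
  have hW : cs.simple b * cs.simple t * cs.simple b * co cs n1 * cs.simple t * cs.simple b *
      co cs n2 * cs.simple t * co cs n3 = 1 := by
    have h4 := congrArg (co cs) h
    rw [map_one] at h4
    simp only [map_mul] at h4
    rw [co_odd cs ha, co_odd cs hc, co_odd cs hd, co_odd cs hd.neg, co_odd cs ha.neg,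
      co_odd cs hc.neg] at h4
    exact h4
  obtain ⟨m4, m8, m7⟩ := stripW cs ht N1 N2 N3 hW
  -- the action
  let ι : Bool → B := fun i => if i then t else b
  have hι : Function.Injective ι := by
    intro i j hij
    cases i <;> cases j <;> simp [ι, htb, htb.symm] at hij ⊢
  have hι0 : ι false = b := rfl
  have hι1 : ι true = t := rfl
  clear_value ι
  let T : Sh (pull M ι hι) (z0 B ∘ ι) := Sh.gen _ _ true
  let Bb : Sh (pull M ι hι) (z0 B ∘ ι) := Sh.gen _ _ false
  have ht2 : M t b ≠ 2 := by omega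
  have mvb : ∀ (v : {v : W // Mn cs ι v}) (_ : v.1 ∈ PW cs (lkb M b)) (k : ℤ) (x),
      (ac cs ι hι (g M b) ^ k) (x, v) = (Bb ^ k * x, v) := by
    intro v hv k x
    exact ac_pow_pos (x := false) (by rw [hι0]; exact PW_comm cs hv) k x
  have mvt : ∀ (v : {v : W // Mn cs ι v}) (_ : v.1 ∈ PW cs (lkb M t)) (k : ℤ) (x),
      (ac cs ι hι (g M t) ^ k) (x, v) = (T ^ k * x, v) := by
    intro v hv k x
    exact ac_pow_pos (x := true) (by rw [hι1]; exact PW_comm cs hv) k x
  have i1 : inc M (z0 B) ι hι Bb = g M b := by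
    rw [← hι0]
    exact inc_gen _ _ _ _ _
  have i2 : inc M (z0 B) ι hι T = g M t := by
    rw [← hι1]
    exact inc_gen _ _ _ _ _
  clear_value T Bb
  obtain ⟨v3, hv3, e3⟩ := mv cs ht2 (hι := hι) hι0 hι1 h3 1 ⟨1, Mn_one cs ι⟩ (one_mem _)
  have hv3' : v3.1 = co cs n3 := by rw [hv3, mul_one]
  have hv3b : v3.1 ∈ PW cs (lkb M b) := by rw [hv3']; exact N3
  have hv3t : v3.1 ∈ PW cs (lkb M t) := by rw [hv3']; exact m7
  obtain ⟨v2, hv2, e2⟩ := mv cs ht2 (hι := hι) hι0 hι1 h2 (T ^ (-c) * 1) v3 hv3b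
  have hv2b : v2.1 ∈ PW cs (lkb M b) := by rw [hv2]; exact mul_mem N2 hv3b
  have hv2t : v2.1 ∈ PW cs (lkb M t) := by rw [hv2]; exact mul_mem m8 hv3t
  obtain ⟨v1, hv1, e1⟩ := mv cs ht2 (hι := hι) hι0 hι1 h1
    (T ^ (-a) * (Bb ^ d * (T ^ (-c) * 1))) v2 hv2b
  have hv1b : v1.1 ∈ PW cs (lkb M b) := by rw [hv1]; exact mul_mem N1 hv2b
  have hv1t : v1.1 ∈ PW cs (lkb M t) := by rw [hv1]; exact mul_mem m4 hv2t
  have key := congrArg (fun x => ac cs ι hι x (1, ⟨1, Mn_one cs ι⟩)) h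
  simp only [map_mul, map_zpow, Equiv.Perm.mul_apply, map_one, Equiv.Perm.one_apply] at key
  rw [e3] at key
  rw [mvt v3 hv3t (-c) 1] at key
  rw [e2] at key
  rw [mvb v2 hv2b d (T ^ (-c) * 1)] at key
  rw [mvt v2 hv2t (-a) (Bb ^ d * (T ^ (-c) * 1))] at key
  rw [e1] at key
  rw [mvb v1 hv1b c _] at key
  rw [mvt v1 hv1t (-d) _] at key
  rw [mvb v1 hv1b a _] at key
  have key1 : Bb ^ a * (T ^ (-d) * (Bb ^ c * (T ^ (-a) * (Bb ^ d * (T ^ (-c) * 1))))) = 1 :=
    congrArg Prod.fst key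
  have key2 := congrArg (inc M (z0 B) ι hι) key1
  simp only [map_mul, map_zpow, map_one] at key2
  rw [i1, i2, mul_one] at key2
  rw [← key2]
  simp only [mul_assoc]

end act

end Pool.Agent.K7.H20.AW
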