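import Pool.Agent.K7.H20.AW.RelM
import Pool.Agent.K7.H20.AW.Fin
import Pool.Agent.K7.H20.AW.DefsPar

/-!
# Transfer to the presentation of the statement
-/

set_option autoImplicit false
set_option linter.unusedSectionVars false

namespace Pool.Agent.K7.H20.AW

open Pool.Agent.Helper741 Pool.Agent.K7.H87.FJ6 CoxeterSystem

section artin

variable {B : Type*} {M : CoxeterMatrix B}

theorem toArt_gen (b : B) : toArt M (gen M b) = g M b := PresentedGroup.toGroup.of _

theorem ofArt_gen (b : B) : ofArt M (g M b) = gen M b := Sh.lift_gen _ _ _ _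

theorem ofArt_toArt (x : ArtinGroup M) : ofArt M (toArt M x) = x := by
  have h : (ofArt M).comp (toArt M) = MonoidHom.id _ := by
    apply PresentedGroup.ext
    intro b
    show ofArt M (toArt M (gen M b)) = gen M b
    rw [toArt_gen, ofArt_gen]
  exact DFunLike.congr_fun h x

theorem toArt_mem {V : Set B} {x : ArtinGroup M} (hx : x ∈ parabolic M V) :
    toArt M x ∈ P M V := by
  induction hx using Subgroup.closure_induction with
  | mem x hx =>
    obtain ⟨b, hb, rfl⟩ := hx
    rw [toArt_gen]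
    exact g_mem hb
  | one => rw [map_one]; exact one_mem _
  | mul x y _ _ hx hy => rw [map_mul]; exact mul_mem hx hy
  | inv x _ hx => rw [map_inv]; exact inv_mem hx

theorem ofArt_mem {V : Set B} {x : Art M} (hx : x ∈ P M V) : ofArt M x ∈ parabolic M V := by
  induction hx using Subgroup.closure_induction with
  | mem x hx =>
    obtain ⟨b, hb, rfl⟩ := hx
    rw [ofArt_gen]
    exact Subgroup.subset_closure ⟨b, hb, rfl⟩
  | one => rw [map_one]; exact one_mem _
  | mul x y _ _ hx hy => rw [map_mul]; exact mul_mem hx hy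
  | inv x _ hx => rw [map_inv]; exact inv_mem hx

end artin

section fin

variable {B : Type*} [Fintype B] [DecidableEq B] {M : CoxeterMatrix B}

theorem lkb_eq (b : B) : {s | M s b = 2} = lkb M b := by
  apply Set.Subset.antisymm
  · intro s (hs : M s b = 2)
    refine ⟨?_, hs⟩
    rintro rfl
    rw [M.diagonal] at hs
    norm_num at hs
  · rintro s ⟨_, hs⟩
    exact hs

theorem rel3_iff (b : B) {a c d : ℤ} (ha : Odd a) (hc : Odd c) (hd : Odd d)
    {g1 g2 g3 : ArtinGroup M} (h1 : g1 ∈ parabolic M {s | s ≠ b})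
    (h2 : g2 ∈ parabolic M {s | s ≠ b}) (h3 : g3 ∈ parabolic M {s | s ≠ b}) :
    gen M b ^ a * g1 * gen M b ^ c * g2 * gen M b ^ d * g3 = 1 ↔
      ∃ t, M t b = 3 ∧ a + c + d + a * c * d = 0 ∧
        ∃ l ∈ parabolic M {s | M s b = 2}, ∃ m ∈ parabolic M {s | M s b = 2},
        ∃ n ∈ parabolic M {s | M s b = 2},
          g1 = l * gen M t ^ (-d) * m ∧ g2 = m⁻¹ * gen M t ^ (-a) * n ∧
            g3 = n⁻¹ * gen M t ^ (-c) * l⁻¹ := by
  have hcompl : {s | s ≠ b} = ({b}ᶜ : Set B) := rfl
  rw [lkb_eq]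
  rw [hcompl] at h1 h2 h3
  constructor
  · intro h
    have h' := congrArg (toArt M) h
    simp only [map_mul, map_zpow, map_one, toArt_gen] at h'
    obtain ⟨t, ht, har, l, hl, m, hm, n, hn, e1, e2, e3⟩ :=
      rel3_fwd ha hc hd (toArt_mem h1) (toArt_mem h2) (toArt_mem h3) h'
    refine ⟨t, ht, har, ofArt M l, ofArt_mem hl, ofArt M m, ofArt_mem hm, ofArt M n,
      ofArt_mem hn, ?_, ?_, ?_⟩
    · rw [← ofArt_toArt g1, e1]
      simp only [map_mul, map_zpow, ofArt_gen]
    · rw [← ofArt_toArt g2, e2]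
      simp only [map_mul, map_zpow, map_inv, ofArt_gen]
    · rw [← ofArt_toArt g3, e3]
      simp only [map_mul, map_zpow, map_inv, ofArt_gen]
  · rintro ⟨t, ht, har, l, hl, m, hm, n, hn, rfl, rfl, rfl⟩
    have h := congrArg (ofArt M) (rel3_bwd ht ha hc hd har (toArt_mem hl) (toArt_mem hm)
      (toArt_mem hn))
    simp only [map_mul, map_zpow, map_inv, map_one, ofArt_gen, ofArt_toArt] at h
    exact h

end fin

end Pool.Agent.K7.H20.AW
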