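import Pool.Agent.K7.H20.AW.Rel3

/-!
# All relations with three odd syllables of a generator
-/

set_option autoImplicit false
set_option linter.unusedSectionVars false

namespace Pool.Agent.K7.H20.AW

open Pool.Agent.Helper741 Pool.Agent.K7.H87.FJ6 CoxeterSystem Real

section facts

variable {B : Type*} [Fintype B] [DecidableEq B] {M : CoxeterMatrix B}

/-- the relation of the braid group on three strands, first case -/
theorem b3A {b t : B} (ht : M t b = 3) {a c d : ℤ} (ha : a = 1 ∨ a = -1) (hda : d = -a) :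
    g M b ^ a * g M t ^ (-d) * g M b ^ c * g M t ^ (-a) * g M b ^ d * g M t ^ (-c) = 1 := by
  subst hda
  rw [neg_neg, braid_pow (gen_braid ht) ha c]
  group

theorem b3rot {b t : B} {a c d : ℤ}
    (h : g M b ^ c * g M t ^ (-a) * g M b ^ d * g M t ^ (-c) * g M b ^ a * g M t ^ (-d) = 1) :
    g M b ^ a * g M t ^ (-d) * g M b ^ c * g M t ^ (-a) * g M b ^ d * g M t ^ (-c) = 1 := by
  have e : g M b ^ a * g M t ^ (-d) * g M b ^ c * g M t ^ (-a) * g M b ^ d * g M t ^ (-c) =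
      (g M b ^ a * g M t ^ (-d)) *
      (g M b ^ c * g M t ^ (-a) * g M b ^ d * g M t ^ (-c) * g M b ^ a * g M t ^ (-d)) *
      (g M b ^ a * g M t ^ (-d))⁻¹ := by group
  rw [e, h]
  group

theorem b3 {b t : B} (ht : M t b = 3) {a c d : ℤ} (ha : Odd a) (hc : Odd c) (hd : Odd d)
    (h : a + c + d + a * c * d = 0) :
    g M b ^ a * g M t ^ (-d) * g M b ^ c * g M t ^ (-a) * g M b ^ d * g M t ^ (-c) = 1 := by
  rcases arith3 ha hc hd h with ⟨h1, h2⟩ | ⟨h1, h2⟩ | ⟨h1, h2⟩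
  · exact b3A ht h1 h2
  · exact b3rot (b3A ht h1 h2)
  · exact b3rot (b3rot (b3A ht h1 h2))

theorem rel3_fwd {b : B} {a c d : ℤ} (ha : Odd a) (hc : Odd c) (hd : Odd d) {g1 g2 g3 : Art M}
    (h1 : g1 ∈ P M {b}ᶜ) (h2 : g2 ∈ P M {b}ᶜ) (h3 : g3 ∈ P M {b}ᶜ)
    (h : g M b ^ a * g1 * g M b ^ c * g2 * g M b ^ d * g3 = 1) :
    ∃ t, M t b = 3 ∧ a + c + d + a * c * d = 0 ∧ ∃ l ∈ P M (lkb M b), ∃ m ∈ P M (lkb M b),
      ∃ n ∈ P M (lkb M b), g1 = l * g M t ^ (-d) * m ∧ g2 = m⁻¹ * g M t ^ (-a) * n ∧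
        g3 = n⁻¹ * g M t ^ (-c) * l⁻¹ := by
  let cs := M.toCoxeterSystem
  have e1 : g M b ^ a * g1 * g M b ^ c * g2 * g M b ^ d = g3⁻¹ := eq_inv_of_mul_eq_one_left h
  have e2 : g M b ^ c * g2 * g M b ^ d * g3 * g M b ^ a = g1⁻¹ := by
    have h4 : g M b ^ c * g2 * g M b ^ d * g3 * g M b ^ a = (g M b ^ a * g1)⁻¹ *
      (g M b ^ a * g1 * g M b ^ c * g2 * g M b ^ d * g3) * g M b ^ a := by group
    rw [h4, h]
    group
  have e3 : g M b ^ d * g3 * g M b ^ a * g1 * g M b ^ c = g2⁻¹ := by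
    have h4 : g M b ^ d * g3 * g M b ^ a * g1 * g M b ^ c = (g M b ^ a * g1 * g M b ^ c * g2)⁻¹ *
      (g M b ^ a * g1 * g M b ^ c * g2 * g M b ^ d * g3) * (g M b ^ a * g1 * g M b ^ c) := by
      group
    rw [h4, h]
    group
  obtain ⟨x, hx3, ⟨l, hl, m, hm, hg3⟩, _, _, _, _, _⟩ := tri h1 h2 (inv_mem h3) ha hc hd e1
  obtain ⟨y, hy3, ⟨l', hl', m', hm', hg1⟩, p', hp', q', hq', hco3⟩ :=
    tri h2 h3 (inv_mem h1) hc hd ha e2
  obtain ⟨z, hz3, ⟨l'', hl'', m'', hm'', hg2⟩, p'', hp'', q'', hq'', hco1⟩ :=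
    tri h3 h1 (inv_mem h2) hd ha hc e3
  have hnot : ∀ u, M u b = 3 → u ∉ lkb M b := by
    intro u hu hu2
    have := hu2.2
    omega
  have hxy : y = x := by
    have h4 : co cs g3 = (co cs m)⁻¹ * cs.simple x * (co cs l)⁻¹ := by
      have h5 : g3 = m⁻¹ * g M x ^ (-c) * l⁻¹ := by
        rw [← inv_inv g3, hg3]
        group
      rw [h5, map_mul, map_mul, map_inv, map_inv, co_odd cs hc.neg]
    refine dbl_eq cs (inv_mem (co_mem cs hm)) (inv_mem (co_mem cs hl)) hp' hq' (hnot y hy3) ?_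
    rw [← h4]
    exact hco3
  have hyz : z = y := by
    have h4 : co cs g1 = (co cs m')⁻¹ * cs.simple y * (co cs l')⁻¹ := by
      have h5 : g1 = m'⁻¹ * g M y ^ (-d) * l'⁻¹ := by
        rw [← inv_inv g1, hg1]
        group
      rw [h5, map_mul, map_mul, map_inv, map_inv, co_odd cs hd.neg]
    refine dbl_eq cs (inv_mem (co_mem cs hm')) (inv_mem (co_mem cs hl')) hp'' hq'' (hnot z hz3) ?_
    rw [← h4]
    exact hco1
  rw [hyz, hxy] at hg2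
  rw [hxy] at hg1
  have f1 : g1 = m'⁻¹ * g M x ^ (-d) * l'⁻¹ := by
    rw [← inv_inv g1, hg1]
    group
  have f2 : g2 = m''⁻¹ * g M x ^ (-a) * l''⁻¹ := by
    rw [← inv_inv g2, hg2]
    group
  have f3 : g3 = m⁻¹ * g M x ^ (-c) * l⁻¹ := by
    rw [← inv_inv g3, hg3]
    group
  clear hg1 hg2 hg3 e1 e2 e3 hco3 hco1 hp' hq' hp'' hq'' hyz hxy
  obtain ⟨l1, hl1, rfl⟩ : ∃ l1 ∈ P M (lkb M b), m'⁻¹ = l1 := ⟨_, inv_mem hm', rfl⟩
  obtain ⟨m1, hm1, hm1'⟩ : ∃ m1 ∈ P M (lkb M b), l'⁻¹ = m1 := ⟨_, inv_mem hl', rfl⟩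
  obtain ⟨l2, hl2, hl2'⟩ : ∃ l2 ∈ P M (lkb M b), m''⁻¹ = l2 := ⟨_, inv_mem hm'', rfl⟩
  obtain ⟨m2, hm2, hm2'⟩ : ∃ m2 ∈ P M (lkb M b), l''⁻¹ = m2 := ⟨_, inv_mem hl'', rfl⟩
  obtain ⟨l3, hl3, hl3'⟩ : ∃ l3 ∈ P M (lkb M b), m⁻¹ = l3 := ⟨_, inv_mem hm, rfl⟩
  obtain ⟨m3, hm3, hm3'⟩ : ∃ m3 ∈ P M (lkb M b), l⁻¹ = m3 := ⟨_, inv_mem hl, rfl⟩
  rw [hm1'] at f1
  rw [hl2', hm2'] at f2
  rw [hl3', hm3'] at f3
  generalize hl1' : m'⁻¹ = l1 at f1 hl1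
  have n1m := mul_mem hm1 hl2
  have n2m := mul_mem hm2 hl3
  have n3m := mul_mem hm3 hl1
  have EQ : g M b ^ a * g M x ^ (-d) * g M b ^ c * (m1 * l2) * g M x ^ (-a) * g M b ^ d *
      (m2 * l3) * g M x ^ (-c) * (m3 * l1) = 1 := by
    have k1 := comm_P hl1 a
    have k2 := comm_P hm1 c
    have k3 := comm_P hm2 d
    rw [f1, f2, f3] at h
    have h4 : g M b ^ a * g M x ^ (-d) * g M b ^ c * (m1 * l2) * g M x ^ (-a) * g M b ^ d *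
        (m2 * l3) * g M x ^ (-c) * (m3 * l1) = l1⁻¹ * (l1 * g M b ^ a) * g M x ^ (-d) *
        (g M b ^ c * m1) * l2 * g M x ^ (-a) * (g M b ^ d * m2) * l3 * g M x ^ (-c) *
        (m3 * l1) := by group
    rw [h4, ← k1, k2, k3]
    have h5 : l1⁻¹ * (g M b ^ a * l1) * g M x ^ (-d) * (m1 * g M b ^ c) * l2 * g M x ^ (-a) *
        (m2 * g M b ^ d) * l3 * g M x ^ (-c) * (m3 * l1) =
        l1⁻¹ * (g M b ^ a * (l1 * g M x ^ (-d) * m1) * g M b ^ c * (l2 * g M x ^ (-a) * m2) *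
        g M b ^ d * (l3 * g M x ^ (-c) * m3)) * l1 := by group
    rw [h5, h]
    group
  have hB3 := strip M.toCoxeterSystem hx3 ha hc hd n1m n2m n3m EQ
  have har := exps hx3 hB3
  have hfin : m1 * l2 ∈ P M (lkb M x) ∧ m2 * l3 ∈ P M (lkb M x) ∧ m3 * l1 ∈ P M (lkb M x) ∧
      (m1 * l2) * (m2 * l3) * (m3 * l1) = 1 := by
    rcases arith3 ha hc hd har with ⟨h4, h5⟩ | ⟨h4, h5⟩ | ⟨h4, h5⟩
    · exact caseA hx3 h4 h5 hc n1m n2m n3m EQ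
    · obtain ⟨k2, k3, k1, k4⟩ := caseA hx3 h4 h5 hd n2m n3m n1m (rot n1m n3m EQ)
      refine ⟨k1, k2, k3, ?_⟩
      have h6 : (m1 * l2) * (m2 * l3) * (m3 * l1) =
        (m1 * l2) * ((m2 * l3) * (m3 * l1) * (m1 * l2)) * (m1 * l2)⁻¹ := by group
      rw [h6, k4]
      group
    · obtain ⟨k3, k1, k2, k4⟩ := caseA hx3 h4 h5 ha n3m n1m n2m (rot n2m n1m (rot n1m n3m EQ))
      refine ⟨k1, k2, k3, ?_⟩
      have h6 : (m1 * l2) * (m2 * l3) * (m3 * l1) =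
        (m3 * l1)⁻¹ * ((m3 * l1) * (m1 * l2) * (m2 * l3)) * (m3 * l1) := by group
      rw [h6, k4]
      group
  obtain ⟨t1, t2, t3, hprod⟩ := hfin
  refine ⟨x, hx3, har, l1, hl1, m1, hm1, m1 * l2 * m2, mul_mem n1m hm2, f1, ?_, ?_⟩
  · rw [f2]
    have k1 := comm_P t1 (-a)
    calc l2 * g M x ^ (-a) * m2 = m1⁻¹ * ((m1 * l2) * g M x ^ (-a)) * m2 := by group
      _ = m1⁻¹ * (g M x ^ (-a) * (m1 * l2)) * m2 := by rw [k1]
      _ = _ := by group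
  · rw [f3]
    have k1 := comm_P t1 (-c)
    have k3 := comm_P t3 (-c)
    have h6 : m2 * l3 = (m1 * l2)⁻¹ * (m3 * l1)⁻¹ := by
      have h7 : (m1 * l2)⁻¹ * (m3 * l1)⁻¹ = (m1 * l2)⁻¹ * ((m1 * l2) * (m2 * l3) * (m3 * l1)) *
        (m3 * l1)⁻¹ := by rw [hprod, mul_one]
      rw [h7]
      group
    have k4 : (m3 * l1)⁻¹ * g M x ^ (-c) = g M x ^ (-c) * (m3 * l1)⁻¹ :=
      (comm_P (inv_mem t3) (-c)).symm
    have k5 : (m1 * l2)⁻¹ * g M x ^ (-c) = g M x ^ (-c) * (m1 * l2)⁻¹ :=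
      (comm_P (inv_mem t1) (-c)).symm
    calc l3 * g M x ^ (-c) * m3 = m2⁻¹ * (m2 * l3) * g M x ^ (-c) * m3 := by group
      _ = m2⁻¹ * (m1 * l2)⁻¹ * ((m3 * l1)⁻¹ * g M x ^ (-c)) * m3 := by
        rw [h6]
        simp only [mul_assoc]
      _ = m2⁻¹ * (m1 * l2)⁻¹ * (g M x ^ (-c) * (m3 * l1)⁻¹) * m3 := by rw [k4]
      _ = _ := by group

theorem rel3_bwd {b t : B} (ht : M t b = 3) {a c d : ℤ} (ha : Odd a) (hc : Odd c) (hd : Odd d)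
    (har : a + c + d + a * c * d = 0) {l m n : Art M} (hl : l ∈ P M (lkb M b))
    (hm : m ∈ P M (lkb M b)) (hn : n ∈ P M (lkb M b)) :
    g M b ^ a * (l * g M t ^ (-d) * m) * g M b ^ c * (m⁻¹ * g M t ^ (-a) * n) * g M b ^ d *
      (n⁻¹ * g M t ^ (-c) * l⁻¹) = 1 := by
  have k1 := comm_P hl a
  have k2 := comm_P hm c
  have k3 := comm_P hn d
  have e : g M b ^ a * (l * g M t ^ (-d) * m) * g M b ^ c * (m⁻¹ * g M t ^ (-a) * n) *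
      g M b ^ d * (n⁻¹ * g M t ^ (-c) * l⁻¹) =
      (g M b ^ a * l) * g M t ^ (-d) * (m * g M b ^ c) * m⁻¹ * g M t ^ (-a) *
      (n * g M b ^ d) * n⁻¹ * g M t ^ (-c) * l⁻¹ := by group
  rw [e, k1, ← k2, ← k3]
  have e2 : l * g M b ^ a * g M t ^ (-d) * (g M b ^ c * m) * m⁻¹ * g M t ^ (-a) *
      (g M b ^ d * n) * n⁻¹ * g M t ^ (-c) * l⁻¹ =
      l * (g M b ^ a * g M t ^ (-d) * g M b ^ c * g M t ^ (-a) * g M b ^ d * g M t ^ (-c)) *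
      l⁻¹ := by group
  rw [e2, b3 ht ha hc hd har]
  group

end facts

end Pool.Agent.K7.H20.AW
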