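import Pool.Agent.K7.H20.AW.CoxB

/-!
# Three odd syllables of a generator: the double cosets
-/

set_option autoImplicit false
set_option linter.unusedSectionVars false

namespace Pool.Agent.K7.H20.AW

open Pool.Agent.Helper741 Pool.Agent.K7.H87.FJ6 CoxeterSystem Real

section track

variable {A B : Type*} [Fintype B] [DecidableEq B] {M : CoxeterMatrix B}
variable {W : Type*} [Group W] {cs : CoxeterSystem M W} {ι : A → B} {hι : Function.Injective ι}

/-- a generator that fixes a coset acts by a label -/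
theorem ac_pow_pos {b : B} {x : A} {v : {v : W // Mn cs ι v}}
    (h : cs.simple b * v.1 = v.1 * cs.simple (ι x)) (k : ℤ) :
    ∀ a, (ac cs ι hι (g M b) ^ k) (a, v) = (Sh.gen _ _ x ^ k * a, v) := by
  have key : ∀ n : ℕ, ∀ a, (ac cs ι hι (g M b) ^ n) (a, v) = (Sh.gen _ _ x ^ n * a, v) := by
    intro n
    induction n with
    | zero => intro a; rw [pow_zero, pow_zero, one_mul]; rfl
    | succ n ih =>
      intro a
      rw [pow_succ', Equiv.Perm.mul_apply, ih, ac_pos h, pow_succ', mul_assoc]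
  intro a
  rcases Int.eq_nat_or_neg k with ⟨n, rfl | rfl⟩
  · rw [zpow_natCast, zpow_natCast]
    exact key n a
  · rw [zpow_neg, zpow_neg, zpow_natCast, zpow_natCast, Equiv.Perm.inv_eq_iff_eq, key,
      mul_inv_cancel_left]

theorem bar_mem {L : Set A} {c : Sh (pull M ι hι) (z0 B ∘ ι)}
    (hc : c ∈ Subgroup.closure (Sh.gen (pull M ι hι) (z0 B ∘ ι) '' L)) :
    bar cs (adm0 M) ι hι c ∈ PW cs (ι '' L) := by
  induction hc using Subgroup.closure_induction with
  | mem x hx =>
    obtain ⟨l, hl, rfl⟩ := hx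
    rw [bar_gen]
    exact PW_mem cs ⟨l, hl, rfl⟩
  | one => rw [map_one]; exact one_mem _
  | mul x y _ _ hx hy => rw [map_mul]; exact mul_mem hx hy
  | inv x _ hx => rw [map_inv]; exact inv_mem hx

end track

section facts

variable {B : Type*} [Fintype B] [DecidableEq B] {M : CoxeterMatrix B}

/-- the generators that commute with `b` -/
abbrev lkb (M : CoxeterMatrix B) (b : B) : Set B := {x | x ≠ b ∧ M x b = 2}

theorem tri {b : B} {a c d : ℤ} {g1 g2 h : Art M}
    (hg1 : g1 ∈ P M {b}ᶜ) (hg2 : g2 ∈ P M {b}ᶜ) (hh : h ∈ P M {b}ᶜ) (ha : Odd a) (hc : Odd c)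
    (hd : Odd d) (e : g M b ^ a * g1 * g M b ^ c * g2 * g M b ^ d = h) :
    ∃ x, M x b = 3 ∧ (∃ l ∈ P M (lkb M b), ∃ m ∈ P M (lkb M b), h = l * g M x ^ c * m) ∧
      ∃ p ∈ PW M.toCoxeterSystem (lkb M b), ∃ q ∈ PW M.toCoxeterSystem (lkb M b),
        co M.toCoxeterSystem g2 = p * M.toCoxeterSystem.simple x * q := by
  let cs := M.toCoxeterSystem
  let ι : {x : B // x ≠ b} → B := Subtype.val
  have hι : Function.Injective ι := Subtype.val_injective
  have hr : Set.range ι = {b}ᶜ := by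
    ext x
    simp [ι]
  have hh' := hh
  rw [← hr] at hh'
  obtain ⟨h', hh''⟩ := P_range (hι := hι) hh'
  have h0 : ¬ ∃ x, cs.simple b * 1 = 1 * cs.simple (ι x) := by
    rintro ⟨x, hx⟩
    rw [mul_one, one_mul] at hx
    exact x.2 (simple_injective cs hx).symm
  let p1 : {v : M.Group // Mn cs ι v} := ⟨1, Mn_one cs ι⟩
  let pb : {v : M.Group // Mn cs ι v} := ⟨cs.simple b * 1, Mn_move cs ι (Mn_one cs ι) h0⟩
  have a1 : ∀ a, ac cs ι hι (g M b) (a, p1) = (a, pb) := fun a => ac_neg h0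
  have a2 : ∀ a, ac cs ι hι (g M b) (a, pb) = (a, p1) := by
    intro a
    rw [ac_neg (v := pb) (back cs ι h0)]
    refine Prod.ext rfl (Subtype.ext ?_)
    show cs.simple b * (cs.simple b * 1) = 1
    rw [mul_one, cs.simple_mul_simple_self]
  have hbb := cs.simple_mul_simple_self b
  have hbW : cs.simple b ∉ PW cs {b}ᶜ := fun h => mem_of_simple_mem cs h rfl
  let V' : Set M.Group := {v | ∃ w ∈ PW cs {b}ᶜ, v = w * cs.simple b}
  have hT : ∀ y ∈ P M ({b}ᶜ : Set B), Tk cs ι hι {x | M (ι x) b = 2} V' y := by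
    intro y hy
    refine track ?_ ?_ hy
    · rintro d hd v ⟨w, hw, rfl⟩
      exact ⟨cs.simple d * w, mul_mem (PW_mem cs hd) hw, (mul_assoc _ _ _).symm⟩
    · rintro d hd v ⟨w, hw, rfl⟩ x hx
      refine comm_of_mem cs (V := {b}ᶜ) (b := b) (x := ι x) (fun h => h rfl) x.2 ?_
      have h3 : cs.simple b * cs.simple (ι x) * cs.simple b = w⁻¹ * cs.simple d * w := by
        calc cs.simple b * cs.simple (ι x) * cs.simple b
            = w⁻¹ * ((w * cs.simple b) * cs.simple (ι x)) * cs.simple b := by group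
          _ = w⁻¹ * (cs.simple d * (w * cs.simple b)) * cs.simple b := by rw [hx]
          _ = w⁻¹ * cs.simple d * w * (cs.simple b * cs.simple b) := by group
          _ = w⁻¹ * cs.simple d * w := by rw [hbb, mul_one]
      rw [h3]
      exact mul_mem (mul_mem (inv_mem hw) (PW_mem cs hd)) hw
  have hpb : pb.1 ∈ V' := ⟨1, one_mem _, by
    show cs.simple b * 1 = 1 * cs.simple b
    rw [mul_one, one_mul]⟩
  have e' : g1 * g M b ^ c * g2 * g M b ^ d = g M b ^ (-a) * h := by
    rw [← e]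
    group
  have k1 : ac cs ι hι g1 (((ac cs ι hι (g M b)) ^ c)
      (ac cs ι hι g2 (((ac cs ι hι (g M b)) ^ d) (1, p1)))) =
      ((ac cs ι hι (g M b)) ^ (-a)) (ac cs ι hι h (1, p1)) := by
    have h1 := congrArg (fun x => ac cs ι hι x (1, p1)) e'
    simp only [map_mul, map_zpow, Equiv.Perm.mul_apply] at h1
    exact h1
  rw [(zpow_swap _ (a1 1) (a2 1) d).2 hd, ← hh'', ac_inc] at k1
  have k2 : ac cs ι hι g1 (((ac cs ι hι (g M b)) ^ c) (ac cs ι hι g2 (1, pb))) =
      ((ac cs ι hι (g M b)) ^ (-a)) (h' * 1, p1) := k1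
  rw [(zpow_swap _ (a1 (h' * 1)) (a2 (h' * 1)) (-a)).2 (by simpa using ha)] at k2
  obtain ⟨c1, hc1, v1, ⟨w, hw, hv1⟩, e1⟩ := hT g2 hg2 1 pb hpb
  rw [e1, mul_one] at k2
  have hsub : ι '' {x | M (ι x) b = 2} ⊆ lkb M b := by
    rintro _ ⟨x, hx, rfl⟩
    exact ⟨x.2, hx⟩
  by_cases hfix : ∃ x, cs.simple b * v1.1 = v1.1 * cs.simple (ι x)
  · obtain ⟨x, hx⟩ := hfix
    have hx' := hx
    rw [hv1] at hx'
    have h3 : M (ι x) b = 3 := label_three cs x.2 hw hx'
    have hl : w * cs.simple (ι x) ∈ PW cs (lkb M b) := by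
      apply cent_W cs (mul_mem hw (PW_mem cs x.2))
      have hbr := simple_braid cs h3
      have hxx := cs.simple_mul_simple_self (ι x)
      have h4 : cs.simple b * w = w * (cs.simple (ι x) * cs.simple b * cs.simple (ι x)) := by
        have h5 : cs.simple b * w = w * cs.simple b * cs.simple (ι x) * cs.simple b := by
          calc cs.simple b * w = cs.simple b * (w * cs.simple b) * cs.simple b := by
                rw [mul_assoc, mul_assoc, hbb, mul_one]
            _ = w * cs.simple b * cs.simple (ι x) * cs.simple b := by rw [hx']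
        rw [h5, hbr]
        simp only [mul_assoc]
      calc cs.simple b * (w * cs.simple (ι x))
          = (cs.simple b * w) * cs.simple (ι x) := (mul_assoc _ _ _).symm
        _ = w * (cs.simple (ι x) * cs.simple b * cs.simple (ι x)) * cs.simple (ι x) := by rw [h4]
        _ = w * cs.simple (ι x) * cs.simple b * (cs.simple (ι x) * cs.simple (ι x)) := by
          simp only [mul_assoc]
        _ = w * cs.simple (ι x) * cs.simple b := by rw [hxx, mul_one]
    rw [ac_pow_pos hx c c1] at k2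
    obtain ⟨c2, hc2, v2, _, e2⟩ := hT g1 hg1 (Sh.gen _ _ x ^ c * c1) v1 ⟨w, hw, hv1⟩
    rw [e2, mul_one] at k2
    have h5 : c2 * (Sh.gen _ _ x ^ c * c1) = h' := congrArg Prod.fst k2
    refine ⟨ι x, h3, ⟨inc M (z0 B) ι hι c2, P_mono hsub (inc_mem hc2), inc M (z0 B) ι hι c1,
      P_mono hsub (inc_mem hc1), ?_⟩, ?_⟩
    · rw [← hh'', ← h5, map_mul, map_mul, map_zpow, inc_gen, mul_assoc]
    · have h6 := ac_tot (cs := cs) (ι := ι) (hι := hι) g2 (1, pb)
      rw [e1, tot, tot, mul_one, map_one, mul_one] at h6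
      have h7 : v1.1 * bar cs (adm0 M) ι hι c1 = co cs g2 * (cs.simple b * 1) := h6
      have h8 : bar cs (adm0 M) ι hι c1 ∈ PW cs (lkb M b) := PW_mono cs hsub (bar_mem hc1)
      refine ⟨w * cs.simple (ι x), hl, bar cs (adm0 M) ι hι c1, h8, ?_⟩
      have h9 := PW_comm cs h8
      have hxx := cs.simple_mul_simple_self (ι x)
      rw [mul_one] at h7
      calc co cs g2 = co cs g2 * cs.simple b * cs.simple b := by rw [mul_assoc, hbb, mul_one]
        _ = v1.1 * bar cs (adm0 M) ι hι c1 * cs.simple b := by rw [h7]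
        _ = w * (cs.simple b * bar cs (adm0 M) ι hι c1) * cs.simple b := by
          rw [hv1]; simp only [mul_assoc]
        _ = w * bar cs (adm0 M) ι hι c1 * (cs.simple b * cs.simple b) := by
          rw [h9]; simp only [mul_assoc]
        _ = w * (cs.simple (ι x) * cs.simple (ι x)) * bar cs (adm0 M) ι hι c1 := by
          rw [hbb, hxx, mul_one, mul_one]
        _ = (w * cs.simple (ι x)) * cs.simple (ι x) * bar cs (adm0 M) ι hι c1 := by
          simp only [mul_assoc]
  · exfalso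
    have e3 := ac_neg (hι := hι) (a := c1) hfix
    have e4 : ac cs ι hι (g M b) (c1, ⟨cs.simple b * v1.1, Mn_move cs ι v1.2 hfix⟩) =
        (c1, v1) := by
      rw [ac_neg (v := ⟨cs.simple b * v1.1, Mn_move cs ι v1.2 hfix⟩) (back cs ι hfix)]
      refine Prod.ext rfl (Subtype.ext ?_)
      show cs.simple b * (cs.simple b * v1.1) = v1.1
      rw [← mul_assoc, hbb, one_mul]
    rw [(zpow_swap _ e3 e4 c).2 hc] at k2
    have hT2 : Tk cs ι hι Set.univ {v | ∃ u ∈ PW cs {b}ᶜ, v = u * (cs.simple b * v1.1)} g1 := by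
      refine track ?_ (fun _ _ _ _ _ _ => trivial) hg1
      rintro d hd v ⟨w, hw, rfl⟩
      exact ⟨cs.simple d * w, mul_mem (PW_mem cs hd) hw, (mul_assoc _ _ _).symm⟩
    obtain ⟨c2, _, v2, ⟨u, hu, hv2⟩, e5⟩ := hT2 c1
      ⟨cs.simple b * v1.1, Mn_move cs ι v1.2 hfix⟩ ⟨1, one_mem _, by rw [one_mul]⟩
    rw [e5] at k2
    have e6 : v2.1 = cs.simple b * 1 := congrArg (fun p => p.2.1) k2
    rw [hv2, hv1, mul_one] at e6
    apply hbW
    have e7 : u * (cs.simple b * w) = 1 := by
      have e8 : u * (cs.simple b * w) * cs.simple b = cs.simple b := by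
        rw [mul_assoc, mul_assoc, e6]
      exact mul_eq_right.1 e8
    have e9 : cs.simple b = u⁻¹ * w⁻¹ := by
      have e10 : cs.simple b * w = u⁻¹ := (inv_eq_of_mul_eq_one_right e7).symm
      rw [← e10, mul_inv_cancel_right]
    rw [e9]
    exact mul_mem (inv_mem hu) (inv_mem hw)

end facts

end Pool.Agent.K7.H20.AW
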