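import Pool.Agent.K7.H20.AW.NT
import Pool.Agent.K7.H20.AW.Mp

/-!
# A representation of an Artin group by noncommutative transvections
-/

set_option autoImplicit false
set_option linter.unusedSectionVars false

namespace Pool.Agent.K7.H20.AW

open Pool.Agent.Helper741 Pool.Agent.K7.H87.FJ6 CoxeterSystem Real

section rep

variable {B : Type*} [Fintype B] [DecidableEq B]

/-- the left multiplication with a letter, as an operator on functions on words -/
def Xo (t : B) : Module.End ℝ (List B → ℝ) where
  toFun u m := match m with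
    | [] => 0
    | a :: m' => if a = t then u m' else 0
  map_add' u v := by
    funext m
    cases m with
    | nil => simp
    | cons a m =>
      simp only [Pi.add_apply]
      split_ifs
      · rfl
      · rw [add_zero]
  map_smul' c u := by
    funext m
    cases m with
    | nil => simp
    | cons a m =>
      simp only [Pi.smul_apply, RingHom.id_apply]
      split_ifs
      · rfl
      · rw [smul_zero]

theorem Xo_nil (t : B) (u : List B → ℝ) : Xo t u [] = 0 := rfl

theorem Xo_cons (t : B) (u : List B → ℝ) (a : B) (m : List B) :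
    Xo t u (a :: m) = if a = t then u m else 0 := rfl

variable (M : CoxeterMatrix B) (Y : Finset B) (sc : B → B → ℝ)

/-- the coefficients -/
def Yo (s t : B) : Module.End ℝ (List B → ℝ) :=
  if s = t ∨ M s t = 2 then 0 else if s ∈ Y ∧ t ∈ Y then Xo t else sc s t • 1

/-- the nilpotent part of a transvection -/
def Ro (s : B) : Module.End ℝ (B → List B → ℝ) :=
  (LinearMap.single ℝ (fun _ : B => List B → ℝ) s) ∘ₗ
    (∑ t, (Yo M Y sc s t) ∘ₗ (LinearMap.proj t))

variable {M Y sc}

theorem Ro_apply (s : B) (v : B → List B → ℝ) :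
    Ro M Y sc s v = Pi.single s (∑ t, Yo M Y sc s t (v t)) := by
  rw [Ro, LinearMap.comp_apply, LinearMap.single_apply]
  congr 1
  rw [LinearMap.sum_apply]
  rfl

theorem Ro_single (s t : B) (u : List B → ℝ) :
    Ro M Y sc s (Pi.single t u) = Pi.single s (Yo M Y sc s t u) := by
  rw [Ro_apply]
  congr 1
  rw [Finset.sum_eq_single t]
  · rw [Pi.single_eq_same]
  · intro b _ hb
    rw [Pi.single_eq_of_ne hb, map_zero]
  · intro h
    exact absurd (Finset.mem_univ t) h

theorem Ro_mul (i j : B) (v : B → List B → ℝ) : (Ro M Y sc i * Ro M Y sc j) v =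
    Pi.single i (Yo M Y sc i j (∑ t, Yo M Y sc j t (v t))) := by
  rw [Module.End.mul_apply, Ro_apply j, Ro_single]

/-- the representation -/
theorem rep0 (hY : ∀ s ∈ Y, ∀ t ∈ Y, s ≠ t → M s t = 2 ∨ M s t = 0)
    (hsc : ∀ i j, 3 ≤ M i j → sc i j * sc j i = kap (M i j)) :
    ∃ ρ : Art M →* (Module.End ℝ (B → List B → ℝ))ˣ, ∀ (b : B) (k : ℤ),
      ((ρ (g M b ^ k) : (Module.End ℝ (B → List B → ℝ))ˣ) : Module.End ℝ (B → List B → ℝ)) =
        1 + (k : ℝ) • Ro M Y sc b := by
  apply rep_exists
  · intro b
    apply LinearMap.ext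
    intro v
    rw [Ro_mul, Yo, if_pos (Or.inl rfl)]
    simp
  · intro i j h
    apply LinearMap.ext
    intro v
    rw [Ro_mul, Yo, if_pos (Or.inr h)]
    simp
  · intro i j h
    have hij : i ≠ j := by
      rintro rfl
      rw [M.diagonal] at h
      omega
    have h1 : ¬ (i ∈ Y ∧ j ∈ Y) := by
      rintro ⟨hi, hj⟩
      rcases hY i hi j hj hij with h' | h' <;> omega
    have h2 : Yo M Y sc i j = sc i j • 1 := by
      rw [Yo, if_neg, if_neg h1]
      rintro (h' | h')
      · exact hij h'
      · omega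
    have h3 : Yo M Y sc j i = sc j i • 1 := by
      rw [Yo, if_neg, if_neg (fun h' => h1 h'.symm)]
      rintro (h' | h')
      · exact hij h'.symm
      · rw [M.symmetric] at h'
        omega
    apply LinearMap.ext
    intro v
    rw [mul_assoc, Module.End.mul_apply, Ro_mul, Ro_single, LinearMap.smul_apply, Ro_apply, h2, h3,
      ← hsc i j h]
    simp only [LinearMap.smul_apply, Module.End.one_apply]
    rw [smul_smul, Pi.single_smul]

/-- the function which is one at the empty word -/
def de : List B → ℝ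
  | [] => 1
  | _ :: _ => 0

theorem Fo_eval {x : B} (hx : x ∉ Y) {s : B} (hs : s ∈ Y) {β : B → ℝ}
    (hβ : β s = if M s x = 2 then 0 else sc s x) {v : B → List B → ℝ} {n : B → List B → ℝ}
    (h1 : v x = de) (h2 : ∀ a, a ∉ Y → a ≠ x → v a = 0) (h3 : ∀ a ∈ Y, ∀ m, v a m = n a m)
    (h4 : ∀ a, a ∉ Y → ∀ m, n a m = 0) (m : List B) :
    (∑ t, Yo M Y sc s t (v t)) m = match m with
      | [] => β s
      | t :: m' => if t ≠ s ∧ M t s ≠ 2 then n t m' else 0 := by
  have hsx : s ≠ x := fun h => hx (h ▸ hs)
  have hYx : Yo M Y sc s x = β s • 1 := by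
    rw [hβ, Yo]
    by_cases h : M s x = 2
    · rw [if_pos (Or.inr h), if_pos h, zero_smul]
    · rw [if_neg, if_neg (fun h' => hx h'.2), if_neg h]
      rintro (h' | h')
      · exact hsx h'
      · exact h h'
  rw [Finset.sum_apply]
  cases m with
  | nil =>
    show _ = β s
    rw [Finset.sum_eq_single x]
    · rw [hYx, h1]
      simp [de]
    · intro t _ htx
      by_cases ht : t ∈ Y
      · rw [Yo]
        split_ifs with h5 h6
        · rfl
        · rfl
        · exact absurd ⟨hs, ht⟩ h6
      · rw [h2 t ht htx, map_zero]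
        rfl
    · intro h
      exact absurd (Finset.mem_univ x) h
  | cons a m =>
    show _ = if a ≠ s ∧ M a s ≠ 2 then n a m else 0
    rw [Finset.sum_eq_single a]
    · by_cases ha : a ∈ Y
      · rw [Yo]
        by_cases h5 : s = a ∨ M s a = 2
        · rw [if_pos h5, if_neg]
          · rfl
          · rintro ⟨h6, h7⟩
            rcases h5 with h5 | h5
            · exact h6 h5.symm
            · exact h7 (by rw [M.symmetric]; exact h5)
        · rw [if_neg h5, if_pos ⟨hs, ha⟩, if_pos, Xo_cons, if_pos rfl, h3 a ha]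
          refine ⟨fun h6 => h5 (Or.inl h6.symm), fun h6 => h5 (Or.inr ?_)⟩
          rw [M.symmetric]
          exact h6
      · have h5 : (if a ≠ s ∧ M a s ≠ 2 then n a m else 0) = 0 := by
          split_ifs
          · exact h4 a ha m
          · rfl
        rw [h5]
        by_cases hax : a = x
        · rw [hax, hYx, h1]
          simp [de]
        · rw [h2 a ha hax, map_zero]
          rfl
    · intro t _ hta
      by_cases htx : t = x
      · rw [htx, hYx, h1]
        simp [de]
      by_cases ht : t ∈ Y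
      · rw [Yo]
        split_ifs with h5 h6
        · rfl
        · rw [Xo_cons, if_neg hta.symm]
        · exact absurd ⟨hs, ht⟩ h6
      · rw [h2 t ht htx, map_zero]
        rfl
    · intro h
      exact absurd (Finset.mem_univ a) h

/-- the column of a word in the letters of `Y` -/
theorem col {x : B} (hx : x ∉ Y) {β : B → ℝ}
    (hβ : ∀ s ∈ Y, β s = if M s x = 2 then 0 else sc s x)
    {ρ : Art M →* (Module.End ℝ (B → List B → ℝ))ˣ}
    (hρ : ∀ (b : B) (k : ℤ), ((ρ (g M b ^ k) : (Module.End ℝ (B → List B → ℝ))ˣ) :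
      Module.End ℝ (B → List B → ℝ)) = 1 + (k : ℝ) • Ro M Y sc b) {y : List (B × ℤ)}
    (hy : ∀ p ∈ y, p.1 ∈ Y) :
    ((ρ (val M y) : (Module.End ℝ (B → List B → ℝ))ˣ) : Module.End ℝ (B → List B → ℝ))
      (Pi.single x de) x = de ∧
    (∀ a, a ∉ Y → a ≠ x →
      ((ρ (val M y) : (Module.End ℝ (B → List B → ℝ))ˣ) : Module.End ℝ (B → List B → ℝ))
      (Pi.single x de) a = 0) ∧
    (∀ a ∈ Y, ∀ m,
      ((ρ (val M y) : (Module.End ℝ (B → List B → ℝ))ˣ) : Module.End ℝ (B → List B → ℝ))
      (Pi.single x de) a m = NN M β y a m) := by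
  induction y with
  | nil =>
    rw [val_nil, map_one, Units.val_one, Module.End.one_apply]
    refine ⟨Pi.single_eq_same _ _, fun a _ hax => Pi.single_eq_of_ne hax _, fun a ha m => ?_⟩
    rw [Pi.single_eq_of_ne (show a ≠ x from fun h => hx (h ▸ ha))]
    rfl
  | cons p y ih =>
    obtain ⟨s, k⟩ := p
    have hs : s ∈ Y := hy (s, k) (by simp)
    have hyY : ∀ p ∈ y, p.1 ∈ Y := fun p hp => hy p (by simp [hp])
    obtain ⟨i1, i2, i3⟩ := ih hyY
    rw [val_cons, map_mul, Units.val_mul, hρ, Module.End.mul_apply]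
    set v := ((ρ (val M y) : (Module.End ℝ (B → List B → ℝ))ˣ) : Module.End ℝ (B → List B → ℝ))
      (Pi.single x de) with hv
    have e : (1 + (k : ℝ) • Ro M Y sc s) v =
        v + (k : ℝ) • (Pi.single s (∑ t, Yo M Y sc s t (v t)) : B → List B → ℝ) := by
      rw [LinearMap.add_apply, LinearMap.smul_apply, Ro_apply, Module.End.one_apply]
    rw [e]
    have hne : ∀ a, a ∉ Y →
        (v + (k : ℝ) • (Pi.single s (∑ t, Yo M Y sc s t (v t)) : B → List B → ℝ)) a = v a := by
      intro a ha
      have : a ≠ s := fun h => ha (h ▸ hs)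
      rw [Pi.add_apply, Pi.smul_apply, Pi.single_eq_of_ne this, smul_zero, add_zero]
    refine ⟨by rw [hne x hx, i1], fun a ha hax => by rw [hne a ha, i2 a ha hax], fun a ha m => ?_⟩
    by_cases has : a = s
    · subst has
      have h4 : ∀ b, b ∉ Y → ∀ m, NN M β y b m = 0 := fun b hb m =>
        NN_not (fun p hp (h : p.1 = b) => hb (h ▸ hyY p hp)) m
      have h5 := Fo_eval hx ha (hβ a ha) i1 i2 i3 h4 m
      rw [Pi.add_apply, Pi.add_apply, Pi.smul_apply, Pi.single_eq_same, Pi.smul_apply, h5, i3 a ha m]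
      cases m with
      | nil =>
        rw [NN_self_nil]
        rfl
      | cons b m =>
        rw [NN_self_cons]
        rfl
    · rw [NN_ne has, Pi.add_apply, Pi.smul_apply, Pi.single_eq_of_ne has, smul_zero, add_zero, i3 a ha m]

end rep

end Pool.Agent.K7.H20.AW
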