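import Pool.Agent.K7.H87.FJ6.Lek

/-!
# Tracking the action of a parabolic subgroup of an Artin group on the cosets of another one
-/

set_option autoImplicit false
set_option linter.unusedSectionVars false
set_option linter.unusedSimpArgs false

namespace Pool.Agent.K7.H20.AW

open Pool.Agent.Helper741 Pool.Agent.K7.H87.FJ6 CoxeterSystem Real

/-- no exponents -/
abbrev z0 (B : Type*) : B → ℕ := fun _ => 0

theorem adm0 {B : Type*} (M : CoxeterMatrix B) : Adm M (z0 B) :=
  ⟨fun _ => ⟨0, rfl⟩, fun _ _ _ => rfl⟩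

/-- the Artin group -/
abbrev Art {B : Type*} (M : CoxeterMatrix B) : Type _ := Sh M (z0 B)

/-- the generator -/
abbrev g {B : Type*} (M : CoxeterMatrix B) (b : B) : Art M := Sh.gen M (z0 B) b

/-- the standard parabolic subgroup -/
def P {B : Type*} (M : CoxeterMatrix B) (V : Set B) : Subgroup (Art M) :=
  Subgroup.closure (g M '' V)

theorem g_mem {B : Type*} {M : CoxeterMatrix B} {V : Set B} {b : B} (h : b ∈ V) : g M b ∈ P M V :=
  Subgroup.subset_closure ⟨b, h, rfl⟩

theorem P_mono {B : Type*} {M : CoxeterMatrix B} {V V' : Set B} (h : V ⊆ V') : P M V ≤ P M V' :=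
  Subgroup.closure_mono (Set.image_mono h)

section cox

variable {B : Type*} [Fintype B] [DecidableEq B] {M : CoxeterMatrix B}
variable {W : Type*} [Group W] (cs : CoxeterSystem M W)

/-- the standard parabolic subgroup of the Coxeter group -/
def PW (V : Set B) : Subgroup W := Subgroup.closure (cs.simple '' V)

theorem PW_mem {V : Set B} {b : B} (h : b ∈ V) : cs.simple b ∈ PW cs V :=
  Subgroup.subset_closure ⟨b, h, rfl⟩

/-- the other coordinates do not change -/
theorem PW_coord {V : Set B} {w : W} (hw : w ∈ PW cs V) : ∀ (z : B → ℝ) (d : B), d ∉ V →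
    geo cs w z d = z d := by
  induction hw using Subgroup.closure_induction with
  | mem w hw =>
    obtain ⟨b, hb, rfl⟩ := hw
    intro z d hd
    rw [geo_simple, sg_apply, Pi.sub_apply, Pi.smul_apply]
    have hbd : d ≠ b := fun h => hd (h ▸ hb)
    have : ee b d = (0 : ℝ) := by simp [ee, Pi.single_apply, hbd]
    rw [this, smul_zero, sub_zero]
  | one => intro z d _; rw [map_one]; rfl
  | mul x y _ _ hx hy =>
    intro z d hd
    rw [geo_mul_apply, hx _ d hd, hy z d hd]
  | inv x _ hx =>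
    intro z d hd
    have := hx (geo cs x⁻¹ z) d hd
    rw [Pool.Agent.K7.H87.FJ6.geo_apply_inv] at this
    exact this.symm

theorem mem_of_simple_mem {V : Set B} {b : B} (h : cs.simple b ∈ PW cs V) : b ∈ V := by
  by_contra hb
  have h1 := PW_coord cs h (ee b) b hb
  rw [geo_simple, sg_ee_self] at h1
  simp [ee] at h1
  norm_num at h1

/-- the double coset of a simple reflection -/
theorem comm_of_mem {V : Set B} {b x : B} (hb : b ∉ V) (hx : x ≠ b)
    (h : cs.simple b * cs.simple x * cs.simple b ∈ PW cs V) : M x b = 2 := by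
  have h1 := PW_coord cs h (ee b) b hb
  rw [geo_mul_apply, geo_mul_apply, geo_simple, geo_simple, sg_ee_self, map_neg, map_neg, sg_ee,
    map_add, map_smul, sg_ee_self, sg_ee] at h1
  have h2 : cc M x b = 0 := by
    have e1 : ee b b = (1 : ℝ) := by simp [ee]
    have e2 : ee x b = (0 : ℝ) := by simp [ee, Pi.single_apply, hx.symm]
    simp only [Pi.neg_apply, Pi.add_apply, Pi.smul_apply, smul_eq_mul, e1, e2] at h1
    rw [cc_symm M b x] at h1
    nlinarith
  by_contra hne
  exact cc_ne_zero hx hne h2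

end cox

section track

variable {A B : Type*} [Fintype B] [DecidableEq B] {M : CoxeterMatrix B}
variable {W : Type*} [Group W] (cs : CoxeterSystem M W) (ι : A → B) (hι : Function.Injective ι)

/-- the action of the Artin group -/
noncomputable def ac : Art M →* Equiv.Perm (Om cs ι hι (z0 B)) := act cs (adm0 M) ι hι

theorem ac_gen (b : B) (ω : Om cs ι hι (z0 B)) : ac cs ι hι (g M b) ω = stp cs ι hι b ω := by
  rw [ac, act, g, Sh.lift_gen, prm_apply]

theorem back {v : W} {b : B} (h : ¬ ∃ x, cs.simple b * v = v * cs.simple (ι x)) :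
    ¬ ∃ x, cs.simple b * (cs.simple b * v) = (cs.simple b * v) * cs.simple (ι x) := by
  rintro ⟨x, hx⟩
  apply h
  refine ⟨x, ?_⟩
  have hb := cs.simple_mul_simple_self b
  have hx' := cs.simple_mul_simple_self (ι x)
  rw [← mul_assoc, hb, one_mul] at hx
  calc cs.simple b * v = cs.simple b * v * (cs.simple (ι x) * cs.simple (ι x)) := by
        rw [hx', mul_one]
    _ = (cs.simple b * v * cs.simple (ι x)) * cs.simple (ι x) := by group
    _ = v * cs.simple (ι x) := by rw [← hx]

variable {cs ι hι}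

theorem ac_pos {b : B} {a : Sh (pull M ι hι) (z0 B ∘ ι)} {v : {v : W // Mn cs ι v}} {x : A}
    (h : cs.simple b * v.1 = v.1 * cs.simple (ι x)) :
    ac cs ι hι (g M b) (a, v) = (Sh.gen _ _ x * a, v) := by
  rw [ac_gen]
  exact stp_pos (ω := (a, v)) h

theorem ac_neg {b : B} {a : Sh (pull M ι hι) (z0 B ∘ ι)} {v : {v : W // Mn cs ι v}}
    (h : ¬ ∃ x, cs.simple b * v.1 = v.1 * cs.simple (ι x)) :
    ac cs ι hι (g M b) (a, v) = (a, ⟨cs.simple b * v.1, Mn_move cs ι v.2 h⟩) := by
  rw [ac_gen]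
  exact stp_neg (ω := (a, v)) h

theorem ac_inv_pos {b : B} {a : Sh (pull M ι hι) (z0 B ∘ ι)} {v : {v : W // Mn cs ι v}} {x : A}
    (h : cs.simple b * v.1 = v.1 * cs.simple (ι x)) :
    ac cs ι hι (g M b)⁻¹ (a, v) = ((Sh.gen _ _ x)⁻¹ * a, v) := by
  rw [map_inv, Equiv.Perm.inv_eq_iff_eq, ac_pos h, mul_inv_cancel_left]

theorem ac_inv_neg {b : B} {a : Sh (pull M ι hι) (z0 B ∘ ι)} {v : {v : W // Mn cs ι v}}
    (h : ¬ ∃ x, cs.simple b * v.1 = v.1 * cs.simple (ι x)) :
    ac cs ι hι (g M b)⁻¹ (a, v) = (a, ⟨cs.simple b * v.1, Mn_move cs ι v.2 h⟩) := by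
  rw [map_inv, Equiv.Perm.inv_eq_iff_eq,
    ac_neg (v := ⟨cs.simple b * v.1, Mn_move cs ι v.2 h⟩) (back cs ι h)]
  refine Prod.ext rfl (Subtype.ext ?_)
  show v.1 = cs.simple b * (cs.simple b * v.1)
  rw [← mul_assoc, cs.simple_mul_simple_self, one_mul]

variable (cs ι hι) in
/-- the element moves the cosets of a set among each other, with labels in the subgroup of `L` -/
def Tk (L : Set A) (V' : Set W) (x : Art M) : Prop :=
  ∀ (a : Sh (pull M ι hι) (z0 B ∘ ι)) (v : {v : W // Mn cs ι v}), v.1 ∈ V' →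
    ∃ c ∈ Subgroup.closure (Sh.gen (pull M ι hι) (z0 B ∘ ι) '' L),
    ∃ v' : {v : W // Mn cs ι v}, v'.1 ∈ V' ∧ ac cs ι hι x (a, v) = (c * a, v')

theorem track {V : Set B} {L : Set A} {V' : Set W} (h1 : ∀ d ∈ V, ∀ v ∈ V', cs.simple d * v ∈ V')
    (h2 : ∀ d ∈ V, ∀ v ∈ V', ∀ x, cs.simple d * v = v * cs.simple (ι x) → x ∈ L)
    {x : Art M} (hx : x ∈ P M V) : Tk cs ι hι L V' x := by
  have key : Tk cs ι hι L V' x ∧ Tk cs ι hι L V' x⁻¹ := by
    induction hx using Subgroup.closure_induction with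
    | mem x hx =>
      obtain ⟨d, hd, rfl⟩ := hx
      constructor
      · intro a v hv
        by_cases h : ∃ x, cs.simple d * v.1 = v.1 * cs.simple (ι x)
        · obtain ⟨x, hx⟩ := h
          exact ⟨Sh.gen _ _ x, Subgroup.subset_closure ⟨x, h2 d hd v.1 hv x hx, rfl⟩, v, hv,
            ac_pos hx⟩
        · refine ⟨1, one_mem _, ⟨cs.simple d * v.1, Mn_move cs ι v.2 h⟩, h1 d hd v.1 hv, ?_⟩
          rw [one_mul]
          exact ac_neg h
      · intro a v hv
        by_cases h : ∃ x, cs.simple d * v.1 = v.1 * cs.simple (ι x)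
        · obtain ⟨x, hx⟩ := h
          exact ⟨(Sh.gen _ _ x)⁻¹, inv_mem (Subgroup.subset_closure
            ⟨x, h2 d hd v.1 hv x hx, rfl⟩), v, hv, ac_inv_pos hx⟩
        · refine ⟨1, one_mem _, ⟨cs.simple d * v.1, Mn_move cs ι v.2 h⟩, h1 d hd v.1 hv, ?_⟩
          rw [one_mul]
          exact ac_inv_neg h
    | one =>
      have h : Tk cs ι hι L V' (1 : Art M) := by
        intro a v hv
        refine ⟨1, one_mem _, v, hv, ?_⟩
        rw [map_one, one_mul]
        rfl
      exact ⟨h, by rwa [inv_one]⟩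
    | mul x y _ _ hx hy =>
      have hm : ∀ x y : Art M, Tk cs ι hι L V' x → Tk cs ι hι L V' y →
          Tk cs ι hι L V' (x * y) := by
        intro x y hx hy a v hv
        obtain ⟨c, hc, v', hv', h⟩ := hy a v hv
        obtain ⟨c', hc', v'', hv'', h'⟩ := hx (c * a) v' hv'
        refine ⟨c' * c, mul_mem hc' hc, v'', hv'', ?_⟩
        rw [map_mul, Equiv.Perm.mul_apply, h, h', mul_assoc]
      refine ⟨hm x y hx.1 hy.1, ?_⟩
      rw [_root_.mul_inv_rev]
      exact hm _ _ hy.2 hx.2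
    | inv x _ hx => exact ⟨hx.2, by rw [inv_inv]; exact hx.1⟩
  exact key.1

theorem ac_inc (a a' : Sh (pull M ι hι) (z0 B ∘ ι)) :
    ac cs ι hι (inc M (z0 B) ι hι a) (a', ⟨1, Mn_one cs ι⟩) = (a * a', ⟨1, Mn_one cs ι⟩) :=
  act_inc (ho := adm0 M) a a'

theorem P_range {x : Art M} (hx : x ∈ P M (Set.range ι)) :
    ∃ a, inc M (z0 B) ι hι a = x := by
  induction hx using Subgroup.closure_induction with
  | mem x hx =>
    obtain ⟨_, ⟨a, rfl⟩, rfl⟩ := hx
    exact ⟨Sh.gen _ _ a, inc_gen _ _ _ _ _⟩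
  | one => exact ⟨1, map_one _⟩
  | mul x y _ _ hx hy =>
    obtain ⟨a, rfl⟩ := hx
    obtain ⟨b, rfl⟩ := hy
    exact ⟨a * b, map_mul _ _ _⟩
  | inv x _ hx =>
    obtain ⟨a, rfl⟩ := hx
    exact ⟨a⁻¹, map_inv _ _⟩

theorem inc_mem {L : Set A} {a : Sh (pull M ι hι) (z0 B ∘ ι)}
    (ha : a ∈ Subgroup.closure (Sh.gen (pull M ι hι) (z0 B ∘ ι) '' L)) :
    inc M (z0 B) ι hι a ∈ P M (ι '' L) := by
  induction ha using Subgroup.closure_induction with
  | mem x hx =>
    obtain ⟨l, hl, rfl⟩ := hx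
    rw [inc_gen]
    exact g_mem ⟨l, hl, rfl⟩
  | one => rw [map_one]; exact one_mem _
  | mul x y _ _ hx hy => rw [map_mul]; exact mul_mem hx hy
  | inv x _ hx => rw [map_inv]; exact inv_mem hx

end track

section facts

variable {B : Type*} [Fintype B] [DecidableEq B] {M : CoxeterMatrix B}

/-- powers of a generator are not in the parabolic subgroup of the others -/
theorem pow_mem {b : B} {n : ℤ} (h : g M b ^ n ∈ P M {b}ᶜ) : n = 0 := by
  let cs := M.toCoxeterSystem
  let ι : Unit → B := fun _ => b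
  have hι : Function.Injective ι := fun _ _ _ => rfl
  have ht : Tk cs ι hι ∅ (PW cs {b}ᶜ : Set M.Group) (g M b ^ n) := by
    refine track ?_ ?_ h
    · intro d hd v hv
      exact mul_mem (PW_mem cs hd) hv
    · intro d hd v hv x hx
      exfalso
      have h1 : cs.simple (ι x) = v⁻¹ * cs.simple d * v := by
        rw [mul_assoc, hx, inv_mul_cancel_left]
      have h2 : cs.simple b ∈ PW cs {b}ᶜ := by
        show cs.simple (ι x) ∈ _
        rw [h1]
        exact mul_mem (mul_mem (inv_mem hv) (PW_mem cs hd)) hv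
      exact mem_of_simple_mem cs h2 rfl
  obtain ⟨c, hc, v', _, he⟩ := ht 1 ⟨1, Mn_one cs ι⟩ (one_mem _)
  have hc1 : c = 1 := by
    rw [Set.image_empty, Subgroup.closure_empty] at hc
    exact Subgroup.mem_bot.1 hc
  have h3 : g M b ^ n = inc M (z0 B) ι hι (Sh.gen _ _ () ^ n) := by
    rw [map_zpow, inc_gen]
  rw [h3, ac_inc, hc1] at he
  have h4 : (Sh.gen (pull M ι hι) (z0 B ∘ ι) ()) ^ n = 1 := by
    have := congrArg Prod.fst he
    simpa using this
  have h5 : (Multiplicative.ofAdd (1 : ℤ)) ^ n = 1 := by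
    have h6 := congrArg (Sh.lift (M := pull M ι hι) (p := z0 B ∘ ι)
      (fun _ => Multiplicative.ofAdd (1 : ℤ)) (fun _ _ => rfl) (fun _ => pow_zero _)) h4
    rw [map_zpow, Sh.lift_gen] at h6
    exact h6.trans (map_one _)
  rw [← ofAdd_zsmul, ofAdd_eq_one] at h5
  simpa using h5

theorem zpow_swap {α : Type*} (f : Equiv.Perm α) {p q : α} (h1 : f p = q) (h2 : f q = p) (k : ℤ) :
    (Even k → (f ^ k) p = p) ∧ (Odd k → (f ^ k) p = q) := by
  have key : ∀ p q : α, f p = q → f q = p → ∀ j : ℤ, (f ^ (j + j)) p = p := by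
    intro p q h1 h2 j
    have h3 : f ^ (j + j) = (f * f) ^ j := by
      rw [← pow_two, ← zpow_natCast, ← zpow_mul]
      congr 1
      push_cast
      ring
    rw [h3]
    apply Equiv.Perm.zpow_apply_eq_self_of_apply_eq_self
    rw [Equiv.Perm.mul_apply, h1, h2]
  constructor
  · rintro ⟨j, rfl⟩
    exact key p q h1 h2 j
  · rintro ⟨j, rfl⟩
    have h3 : f ^ (2 * j + 1) = f ^ (j + j) * f := by
      rw [← zpow_add_one]
      congr 1
      ring
    rw [h3, Equiv.Perm.mul_apply, h1]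
    exact key q p h2 h1 j

/-- two syllables -/
theorem two {b : B} {k l : ℤ} {y h : Art M} (hy : y ∈ P M {b}ᶜ) (hh : h ∈ P M {b}ᶜ)
    (e : g M b ^ k * y * g M b ^ l = h) :
    (Odd k ∧ Odd l ∧ y ∈ P M {x | x ≠ b ∧ M x b = 2}) ∨ (Even k ∧ Even l ∧ y = h) := by
  let cs := M.toCoxeterSystem
  let ι : {x : B // x ≠ b} → B := Subtype.val
  have hι : Function.Injective ι := Subtype.val_injective
  have hr : Set.range ι = {b}ᶜ := by
    ext x
    simp [ι]
  rw [← hr] at hy
  obtain ⟨y', rfl⟩ := P_range (hι := hι) hy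
  have hh' := hh
  rw [← hr] at hh'
  obtain ⟨h', hh''⟩ := P_range (hι := hι) hh'
  have h0 : ¬ ∃ x, cs.simple b * 1 = 1 * cs.simple (ι x) := by
    rintro ⟨x, hx⟩
    rw [mul_one, one_mul] at hx
    exact x.2 (simple_injective cs hx).symm
  let p1 : {v : M.Group // Mn cs ι v} := ⟨1, Mn_one cs ι⟩
  let pb : {v : M.Group // Mn cs ι v} := ⟨cs.simple b * 1, Mn_move cs ι (Mn_one cs ι) h0⟩
  have a1 : ∀ a, ac cs ι hι (g M b) (a, p1) = (a, pb) := fun a => ac_neg h0
  have a2 : ∀ a, ac cs ι hι (g M b) (a, pb) = (a, p1) := by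
    intro a
    rw [ac_neg (v := pb) (back cs ι h0)]
    refine Prod.ext rfl (Subtype.ext ?_)
    show cs.simple b * (cs.simple b * 1) = 1
    rw [mul_one, cs.simple_mul_simple_self]
  have hne : p1 ≠ pb := by
    intro h
    have h1 : (1 : M.Group) = cs.simple b * 1 := congrArg Subtype.val h
    rw [mul_one] at h1
    have h2 : cs.simple b ∈ PW cs ∅ := by
      rw [← h1]
      exact one_mem _
    exact mem_of_simple_mem cs h2
  have key : ∀ ω, ((ac cs ι hι (g M b)) ^ k) (ac cs ι hι (inc M (z0 B) ι hι y')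
      (((ac cs ι hι (g M b)) ^ l) ω)) = ac cs ι hι h ω := by
    intro ω
    rw [← e, map_mul, map_mul, map_zpow, map_zpow]
    rfl
  rcases Int.even_or_odd l with hl | hl
  · right
    have h1 := key (1, p1)
    rw [(zpow_swap _ (a1 1) (a2 1) l).1 hl, ac_inc, ← hh'', ac_inc, mul_one, mul_one] at h1
    rcases Int.even_or_odd k with hk | hk
    · refine ⟨hk, hl, ?_⟩
      have h2 : ((ac cs ι hι (g M b) ^ k)) (y', p1) = (h', p1) := h1
      rw [(zpow_swap _ (a1 y') (a2 y') k).1 hk] at h2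
      have h3 : y' = h' := congrArg Prod.fst h2
      rw [h3, hh'']
    · exfalso
      have h2 : ((ac cs ι hι (g M b) ^ k)) (y', p1) = (h', p1) := h1
      rw [(zpow_swap _ (a1 y') (a2 y') k).2 hk] at h2
      exact hne (congrArg Prod.snd h2).symm
  · left
    have h1 := key (1, pb)
    have ht : Tk cs ι hι {x | M (ι x) b = 2} {v | ∃ w ∈ PW cs {b}ᶜ, v = w * cs.simple b} h := by
      refine track ?_ ?_ hh
      · rintro d hd v ⟨w, hw, rfl⟩
        exact ⟨cs.simple d * w, mul_mem (PW_mem cs hd) hw, (mul_assoc _ _ _).symm⟩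
      · rintro d hd v ⟨w, hw, rfl⟩ x hx
        refine comm_of_mem cs (V := {b}ᶜ) (b := b) (x := ι x) (fun h => h rfl) x.2 ?_
        have hb := cs.simple_mul_simple_self b
        have h3 : cs.simple b * cs.simple (ι x) * cs.simple b = w⁻¹ * cs.simple d * w := by
          calc cs.simple b * cs.simple (ι x) * cs.simple b
              = w⁻¹ * ((w * cs.simple b) * cs.simple (ι x)) * cs.simple b := by group
            _ = w⁻¹ * (cs.simple d * (w * cs.simple b)) * cs.simple b := by rw [hx]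
            _ = w⁻¹ * cs.simple d * w * (cs.simple b * cs.simple b) := by group
            _ = w⁻¹ * cs.simple d * w := by rw [hb, mul_one]
        rw [h3]
        exact mul_mem (mul_mem (inv_mem hw) (PW_mem cs hd)) hw
    obtain ⟨c, hc, v', ⟨w, hw, hv'⟩, he⟩ := ht 1 pb ⟨1, one_mem _, by
      show cs.simple b * 1 = 1 * cs.simple b
      rw [mul_one, one_mul]⟩
    rw [(zpow_swap _ (a2 1) (a1 1) l).2 hl, ac_inc, he, mul_one, mul_one] at h1
    have h2 : ((ac cs ι hι (g M b) ^ k)) (y', p1) = (c, v') := h1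
    rcases Int.even_or_odd k with hk | hk
    · exfalso
      rw [(zpow_swap _ (a1 y') (a2 y') k).1 hk] at h2
      have h3 : (1 : M.Group) = v'.1 := congrArg (fun p => p.2.1) h2
      rw [hv'] at h3
      have h4 : cs.simple b ∈ PW cs {b}ᶜ := by
        have : cs.simple b = w⁻¹ := by
          rw [eq_inv_iff_mul_eq_one]
          have hb := cs.simple_mul_simple_self b
          have h5 : w = (cs.simple b)⁻¹ := by
            rw [eq_inv_iff_mul_eq_one]
            exact h3.symm
          rw [h5, mul_inv_cancel]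
        rw [this]
        exact inv_mem hw
      exact mem_of_simple_mem cs h4 rfl
    · refine ⟨hk, hl, ?_⟩
      rw [(zpow_swap _ (a1 y') (a2 y') k).2 hk] at h2
      have h3 : y' = c := congrArg Prod.fst h2
      rw [h3]
      refine P_mono ?_ (inc_mem hc)
      rintro _ ⟨x, hx, rfl⟩
      exact ⟨x.2, hx⟩

end facts

end Pool.Agent.K7.H20.AW
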